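import Mathlib
import Pool.Agent.TH44.SS.Tate

/-!
# Definitions: abelian varieties times arbitrary varieties
-/

set_option autoImplicit false

namespace Pool.Agent.L0h40.EU

open Module Pool.Agent.TH44.SS TensorProduct

open scoped ComplexConjugate

/-- For all `i` the numbers `π i j` are numbers of absolute value `√(q ^ d i)`; their quotients by
their complex conjugates are multiplicatively independent (for all `i` and `j`). -/
structure IsFamily (q : ℕ) {I : Type} {J : I → Type} (d : I → ℕ) (π : ∀ i, J i → ℂ) : Prop where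
  pos : ∀ i, 0 < d i
  norm : ∀ i j, π i j * conj (π i j) = (q : ℂ) ^ d i
  indep : ∀ f : (Σ i, J i) →₀ ℤ,
    (f.prod fun x n => (π x.1 x.2 / conj (π x.1 x.2)) ^ n) = 1 → f = 0

/-- Up to a root of unity, `z` is the square root of `q ^ s`. -/
def IsSuper (q s : ℕ) (z : ℂ) : Prop := ∃ N : ℕ, 0 < N ∧ z ^ (2 * N) = (q : ℂ) ^ (s * N)

/-- Up to a root of unity, `z` is the power with exponent `s / d` of `w` or of its conjugate. -/
def IsPower (d s : ℕ) (w z : ℂ) : Prop :=
  ∃ N : ℕ, 0 < N ∧ (z ^ (d * N) = w ^ (s * N) ∨ z ^ (d * N) = (conj w) ^ (s * N))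

section transfers

variable {V : Type} [AddCommGroup V] [Module ℂ V] {H : ℕ → Type} [∀ m, AddCommGroup (H m)]
  [∀ m, Module ℂ (H m)]

/-- The Frobenius endomorphisms of the extension of degree `N`. -/
def ext (G : ∀ m, H m →ₗ[ℂ] H m) (N : ℕ) : ∀ m, H m →ₗ[ℂ] H m := fun m => G m ^ N

/-- Let `F` be the Frobenius endomorphism on the first cohomology `V` of an abelian variety `A` and
`G m` the one on the cohomology `H m` of a variety `U`, over a field with `Q` elements. If the
conjecture of Tate and the semisimplicity hold for `U` over all finite extensions, then each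
generalized Tate class of `A × U` over a finite extension is an eigenvector and a combination of
products of classes of divisors of `A` and classes of cycles of `U`; and the semisimplicity alone,
over all finite extensions, holds for `A × U` if and only if it holds for `U`. -/
def Transfers (F : V →ₗ[ℂ] V) (G : ∀ m, H m →ₗ[ℂ] H m) (Q : ℂ) : Prop :=
  (∀ Z : ∀ m, Submodule ℂ (H m), TateHolds G Q Z → ∀ (i : ℕ) (t : Total V H (2 * i)),
    IsGenTate (total F G (2 * i)) Q i t → IsProductClass F G Q Z i t) ∧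
  ((∀ N : ℕ, 0 < N → SemiTate (total (F ^ N) (ext G N)) (Q ^ N)) ↔
    ∀ N : ℕ, 0 < N → SemiTate (ext G N) (Q ^ N))

end transfers

/-- The elements of `R` that are not, up to roots of unity, rational powers of `q`. -/
def angular (q : ℕ) (R : Finset ℂ) : Set ℂ :=
  {ρ | ρ ∈ R ∧ ∀ (N : ℕ) (M : ℤ), 0 < N → ρ ^ N ≠ (q : ℂ) ^ M}

/-- All eigenvalues have the property `P`. -/
def EigenIn (P : ℂ → Prop) {H : ℕ → Type} [∀ m, AddCommGroup (H m)]
    [∀ m, Module ℂ (H m)] (G : ∀ m, H m →ₗ[ℂ] H m) : Prop :=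
  ∀ m μ, Module.End.HasEigenvalue (G m) μ → P μ

/-- `F` is diagonalizable and its eigenvalues have the property `P`. -/
def Diagonal (P : ℂ → Prop) {V : Type} [AddCommGroup V] [Module ℂ V] (F : V →ₗ[ℂ] V) : Prop :=
  Submodule.span ℂ {v : V | ∃ z, P z ∧ F v = z • v} = ⊤

/-- No eigenvalue is, up to roots of unity, an odd power of the square root of `Q`. -/
def NoOddPower (Q : ℂ) {H : ℕ → Type} [∀ m, AddCommGroup (H m)]
    [∀ m, Module ℂ (H m)] (G : ∀ m, H m →ₗ[ℂ] H m) : Prop :=
  EigenIn (fun μ => ∀ (N : ℕ) (k : ℤ), 0 < N → Odd k → μ ^ (2 * N) ≠ Q ^ (k * N)) G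

/-- Let `A` be an abelian variety and `B` a variety over the field with `q ^ s` elements. Suppose
that the eigenvalues of Frobenius on the cohomology of `B` have the property `P'`, and that those on
the first cohomology of `A` have the property `P` or are supersingular; the latter is allowed only
if no eigenvalue for `B` is, up to roots of unity, an odd power of the square root of `q ^ s`. Then
the conjectures for `B` imply those for `A × B` (`Transfers`). -/
def TransfersFor (q s : ℕ) (P P' : ℂ → Prop) : Prop :=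
  ∀ (H : ℕ → Type) [∀ m, AddCommGroup (H m)] [∀ m, Module ℂ (H m)]
    [∀ m, FiniteDimensional ℂ (H m)] (G : ∀ m, H m →ₗ[ℂ] H m), EigenIn P' G →
    ∀ (V : Type) [AddCommGroup V] [Module ℂ V] [FiniteDimensional ℂ V] (F : V →ₗ[ℂ] V),
      Diagonal (fun z => P z ∨ IsSuper q s z ∧ NoOddPower ((q : ℂ) ^ s) G) F →
      Transfers F G ((q : ℂ) ^ s)

/-- Up to roots of unity, an element of the finite set `R`, raised to the power `s`. -/
def InPowers (R : Finset ℂ) (s : ℕ) (μ : ℂ) : Prop :=
  ∃ ρ ∈ R, ∃ N : ℕ, 0 < N ∧ μ ^ N = ρ ^ (s * N)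

/-- `z` is an eigenvalue of Frobenius of an ordinary elliptic curve over the field with `q ^ s`
elements, of trace `a`: by Hasse `a ^ 2 < 4 q ^ s`, and `a` is prime to `q`. -/
def IsOrdinary (q s : ℕ) (a : ℤ) (z : ℂ) : Prop :=
  z ^ 2 - a * z + (q : ℂ) ^ s = 0 ∧ a ^ 2 < 4 * (q : ℤ) ^ s ∧ IsCoprime a (q : ℤ)

/-- Up to a root, `z` is a product of powers of `q` and of elements of `R`. -/
def Hull (q : ℕ) (R : Finset ℂ) (z : ℂ) : Prop :=
  ∃ (N : ℕ) (M : ℤ) (m : ℂ → ℤ), 0 < N ∧ z ^ N = (q : ℂ) ^ M * ∏ ρ ∈ R, ρ ^ m ρ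

/-- The numbers `π i` have absolute value `√(q ^ d i)`, the quotients `π i / conj (π i)` are not roots
of unity, and for `i ≠ j` some automorphism of `ℂ` maps each `π k` to itself or to its conjugate,
and exactly one of `π i` and `π j` to itself. -/
structure IsSignFamily (q : ℕ) {I : Type} (d : I → ℕ) (π : I → ℂ) : Prop where
  pos : ∀ i, 0 < d i
  norm : ∀ i, π i * conj (π i) = (q : ℂ) ^ d i
  free : ∀ i (n : ℕ), 0 < n → π i ^ n ≠ (conj (π i)) ^ n
  sep : ∀ i j, i ≠ j → ∃ τ : ℂ ≃+* ℂ, (∀ k, τ (π k) = π k ∨ τ (π k) = conj (π k)) ∧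
    ((τ (π i) = π i ∧ τ (π j) = conj (π j)) ∨ (τ (π i) = conj (π i) ∧ τ (π j) = π j))

/-- `A' × U` for an abelian variety `A'` all of whose eigenvalues are, up to roots, in the group
generated by `q` and `R`, and `A × (A' × U)` for `A` a product of other elliptic curves. -/
def Reduction (q : ℕ) (R : Finset ℂ) : Prop :=
  ∀ s : ℕ, 0 < s → ∀ (H : ℕ → Type) [∀ m, AddCommGroup (H m)] [∀ m, Module ℂ (H m)]
    [∀ m, FiniteDimensional ℂ (H m)] (G : ∀ m, H m →ₗ[ℂ] H m), EigenIn (Hull q R) G →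
    ∀ (V' : Type) [AddCommGroup V'] [Module ℂ V'] [FiniteDimensional ℂ V'] (F' : V' →ₗ[ℂ] V'),
      Diagonal (fun z => IsSuper q s z ∨ Hull q R z) F' →
    ∀ (V : Type) [AddCommGroup V] [Module ℂ V] [FiniteDimensional ℂ V] (F : V →ₗ[ℂ] V),
      Diagonal (fun z => ∃ a : ℤ, IsOrdinary q s a z ∧ ¬ Hull q R z) F →
      Transfers F (total F' G) ((q : ℂ) ^ s)

end Pool.Agent.L0h40.EU
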