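import Mathlib
import Pool.Agent.L0h40.EU.Def

/-!
# Definitions: pull-backs from one test variety
-/

set_option autoImplicit false

namespace Pool.Agent.L0h40.EU

open Module Pool.Agent.TH44.SS Pool.Agent.W484.AA Pool.Agent.W484.BB TensorProduct

open scoped ComplexConjugate

variable {V₀ : Type} [AddCommGroup V₀] [Module ℂ V₀] {V : Type} [AddCommGroup V] [Module ℂ V]
  {H : ℕ → Type} [∀ m, AddCommGroup (H m)] [∀ m, Module ℂ (H m)]

/-- The Frobenius endomorphism on `⋀ ^ n V ⊗ H m`, the part of bidegree `(n, m)` of the cohomology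
of `A × U`. -/
noncomputable def bi (F : V →ₗ[ℂ] V) (G : ∀ m, H m →ₗ[ℂ] H m) (n m : ℕ) :
    ((⋀[ℂ]^n V) ⊗[ℂ] H m) →ₗ[ℂ] ((⋀[ℂ]^n V) ⊗[ℂ] H m) :=
  TensorProduct.map (exteriorPower.map n F) (G m)

/-- The Tate conjecture and the semisimplicity for `A × U` over all finite extensions: `Z n m` is the
span of the components of bidegree `(n, m)` of the classes of cycles of codimension
`(n + m) / 2` on `A × U`; its elements are eigenvectors of a power of Frobenius, and all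
generalized eigenvectors of powers of Frobenius with the same eigenvalues belong to `Z n m`. -/
def BiTate (F : V →ₗ[ℂ] V) (G : ∀ m, H m →ₗ[ℂ] H m) (Q : ℂ)
    (Z : ∀ n m, Submodule ℂ ((⋀[ℂ]^n V) ⊗[ℂ] H m)) : Prop :=
  ∀ n m i : ℕ, n + m = 2 * i →
    (∀ x ∈ Z n m, ∃ N : ℕ, 0 < N ∧ (bi F G n m ^ N) x = (Q ^ i) ^ N • x) ∧
    ∀ x, IsGenTate (bi F G n m) Q i x → x ∈ Z n m

/-- The span of the products of `k` classes of divisors on `A` and of the pull-back to `A × U`, under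
a linear map `φ` compatible with some powers of the Frobenius endomorphisms, of a class on `A₀ × U` in
`Z j`, with `n = 2 k + j`. By the theorem of Tate such maps `φ` are combinations of the maps
on the first cohomology defined by homomorphisms from `A` to `A₀` over a finite extension. -/
noncomputable def pulled (F₀ : V₀ →ₗ[ℂ] V₀) (F : V →ₗ[ℂ] V) (Q : ℂ) {K : Type} [AddCommGroup K]
    [Module ℂ K] (Z : ∀ j : ℕ, Submodule ℂ ((⋀[ℂ]^j V₀) ⊗[ℂ] K)) (n : ℕ) :
    Submodule ℂ (ExteriorAlgebra ℂ V ⊗[ℂ] K) :=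
  Submodule.span ℂ {t | ∃ (k j : ℕ) (D : Fin k → ExteriorAlgebra ℂ V) (φ : V₀ →ₗ[ℂ] V)
    (x : (⋀[ℂ]^j V₀) ⊗[ℂ] K), n = 2 * k + j ∧ (∀ l, IsDivisorClass F Q (D l)) ∧
    (∃ N : ℕ, 0 < N ∧ ∀ v, φ ((F₀ ^ N) v) = (F ^ N) (φ v)) ∧ x ∈ Z j ∧
    t = TensorProduct.map (LinearMap.mulLeft ℂ (List.ofFn D).prod ∘ₗ
      (ExteriorAlgebra.map φ).toLinearMap) LinearMap.id (incl V₀ K j x)}

/-- Let `A₀` and `A` be abelian varieties and `U` a variety. If the conjecture of Tate and the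
semisimplicity hold for `A₀ × U` over all finite extensions, then each generalized Tate class of
`A × U` is an eigenvector of a power of Frobenius and a combination of products of classes of divisors
on `A` and of pull-backs of classes of cycles on `A₀ × U`. If the semisimplicity holds for `A₀ × U`
over all finite extensions, then it holds for `A × U`. -/
def Governs (F₀ : V₀ →ₗ[ℂ] V₀) (F : V →ₗ[ℂ] V) (G : ∀ m, H m →ₗ[ℂ] H m) (Q : ℂ) : Prop :=
  (∀ Z : ∀ n m, Submodule ℂ ((⋀[ℂ]^n V₀) ⊗[ℂ] H m), BiTate F₀ G Q Z →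
    ∀ n m i : ℕ, n + m = 2 * i → ∀ t : (⋀[ℂ]^n V) ⊗[ℂ] H m, IsGenTate (bi F G n m) Q i t →
      (∃ N : ℕ, 0 < N ∧ (bi F G n m ^ N) t = (Q ^ i) ^ N • t) ∧
      incl V (H m) n t ∈ pulled F₀ F Q (fun j => Z j m) n) ∧
  ((∀ N : ℕ, 0 < N → SemiTate (total (F₀ ^ N) (ext G N)) (Q ^ N)) →
    ∀ N : ℕ, 0 < N → SemiTate (total (F ^ N) (ext G N)) (Q ^ N))

/-- The abelian variety `A₀` over the field with `q ^ s` elements contains, for each `i` such that
`π i` belongs to the hull of `R`, up to roots of unity the power of `π i` of absolute value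
`√(q ^ s)` and its conjugate at least `K` times, and at least one supersingular eigenvalue. -/
def IsTest (q : ℕ) (R : Finset ℂ) (K s : ℕ) {I : Type} (d : I → ℕ) (π : I → ℂ)
    (F₀ : V₀ →ₗ[ℂ] V₀) : Prop :=
  (∀ i, Hull q R (π i) → ∃ z, IsPower (d i) s (π i) z ∧
    K ≤ finrank ℂ (Module.End.eigenspace F₀ z) ∧
    K ≤ finrank ℂ (Module.End.eigenspace F₀ (conj z))) ∧
  ∃ z, IsSuper q s z ∧ Module.End.HasEigenvalue F₀ z

/-- `A₀` contains, up to isogeny, for each `δ` in `D` the power with exponent `K` of an ordinary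
elliptic curve with endomorphism algebra generated by a square root of `δ`, and it has a
supersingular eigenvalue. -/
def IsEllTest (q K s : ℕ) (D : Finset ℤ) (F₀ : V₀ →ₗ[ℂ] V₀) : Prop :=
  (∀ δ ∈ D, ∃ (a : ℤ) (z : ℂ), IsOrdinary q s a z ∧ IsSquare (δ * (a ^ 2 - 4 * (q : ℤ) ^ s)) ∧
    K ≤ finrank ℂ (Module.End.eigenspace F₀ z) ∧
    K ≤ finrank ℂ (Module.End.eigenspace F₀ (conj z))) ∧
  ∃ z, IsSuper q s z ∧ Module.End.HasEigenvalue F₀ z

/-- For all varieties `U` over the field with `q ^ s` elements with eigenvalues in `R`, all test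
varieties `A₀` with property `T`, and all `A` with eigenvalues with property `P`, the conjectures
for `A₀ × U` imply those for `A × U`. -/
def GovernsFor (q s : ℕ) (R : Finset ℂ)
    (T : ∀ {V₀ : Type} [AddCommGroup V₀] [Module ℂ V₀], (V₀ →ₗ[ℂ] V₀) → Prop) (P : ℂ → Prop) :
    Prop :=
  ∀ (H : ℕ → Type) [∀ m, AddCommGroup (H m)] [∀ m, Module ℂ (H m)]
    [∀ m, FiniteDimensional ℂ (H m)] (G : ∀ m, H m →ₗ[ℂ] H m), EigenIn (InPowers R s) G →
    ∀ (V₀ : Type) [AddCommGroup V₀] [Module ℂ V₀] [FiniteDimensional ℂ V₀] (F₀ : V₀ →ₗ[ℂ] V₀),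
      Diagonal (fun _ => True) F₀ → T F₀ →
    ∀ (V : Type) [AddCommGroup V] [Module ℂ V] [FiniteDimensional ℂ V] (F : V →ₗ[ℂ] V),
      Diagonal P F → Governs F₀ F G ((q : ℂ) ^ s)

end Pool.Agent.L0h40.EU
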