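import Mathlib
import Pool.Agent.L0h12.EC.Supp

/-!
# Eigenvalues of Frobenius of ordinary elliptic curves
-/

set_option autoImplicit false

namespace Pool.Agent.L0h40.EU

open scoped ComplexConjugate

/-- `z` is an eigenvalue of Frobenius for an ordinary elliptic curve over the field with `q ^ s`
elements and trace `a`. -/
structure Ord (q s : ℕ) (a : ℤ) (z : ℂ) : Prop where
  pos : 0 < s
  add : z + conj z = a
  mul : z * conj z = (q : ℂ) ^ s
  cop : IsCoprime a (q : ℤ)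

variable {q s : ℕ} {a b : ℤ} {z w : ℂ}

theorem ord_of_root (hs : 0 < s) (hz : z ^ 2 - a * z + (q : ℂ) ^ s = 0)
    (ha : a ^ 2 < 4 * (q : ℤ) ^ s) (hc : IsCoprime a (q : ℤ)) : Ord q s a z := by
  have h1 := congrArg (starRingEnd ℂ) hz
  simp only [map_add, map_sub, map_mul, map_pow, map_zero, Complex.conj_natCast] at h1
  have hca : conj (a : ℂ) = a := map_intCast _ a
  rw [hca] at h1
  have h2 : (z - conj z) * (z + conj z - a) = 0 := by linear_combination hz - h1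
  have h3 : z - conj z ≠ 0 := by
    intro h3
    have h4 : conj z = z := (sub_eq_zero.1 h3).symm
    obtain ⟨r, rfl⟩ := Complex.conj_eq_iff_real.1 h4
    have h5 : (r : ℝ) ^ 2 - a * r + (q : ℝ) ^ s = 0 := by exact_mod_cast hz
    have h6 : (a : ℝ) ^ 2 < 4 * (q : ℝ) ^ s := by exact_mod_cast ha
    nlinarith [sq_nonneg (2 * r - a)]
  have h4 : z + conj z = a := by
    have := (mul_eq_zero.1 h2).resolve_left h3
    linear_combination this
  refine ⟨hs, h4, ?_, hc⟩
  linear_combination z * h4 - hz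

namespace Ord

theorem conj' (h : Ord q s a z) : Ord q s a (conj z) :=
  ⟨h.pos, by rw [Complex.conj_conj, add_comm, h.add], by
    rw [Complex.conj_conj, mul_comm, h.mul], h.cop⟩

theorem ne (h : Ord q s a z) (hq : 1 < q) : z ≠ 0 := by
  rintro rfl
  have h1 := h.mul
  rw [zero_mul] at h1
  exact pow_ne_zero s (Nat.cast_ne_zero.2 (by omega)) h1.symm

theorem sq_disc (h : Ord q s a z) : (z - conj z) ^ 2 = ((a ^ 2 - 4 * (q : ℤ) ^ s : ℤ) : ℂ) := by
  push_cast
  linear_combination (z + conj z + a) * h.add - 4 * h.mul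

theorem disc_neg (h : Ord q s a z) (hq : 1 < q) : a ^ 2 - 4 * (q : ℤ) ^ s < 0 := by
  have h1 := h.sq_disc
  have h2 : (z - conj z) ^ 2 = ((-(4 * z.im ^ 2) : ℝ) : ℂ) := by
    have h3 : z - conj z = (2 * z.im : ℝ) * Complex.I := by
      rw [Complex.sub_conj]
    rw [h3, mul_pow, Complex.I_sq]
    push_cast
    ring
  rw [h2] at h1
  have h3 : -(4 * z.im ^ 2) = ((a ^ 2 - 4 * (q : ℤ) ^ s : ℤ) : ℝ) := by exact_mod_cast h1
  have h4 : ((a ^ 2 - 4 * (q : ℤ) ^ s : ℤ) : ℝ) ≤ 0 := by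
    rw [← h3]
    nlinarith [sq_nonneg z.im]
  have h5 : a ^ 2 - 4 * (q : ℤ) ^ s ≤ 0 := by exact_mod_cast h4
  rcases h5.lt_or_eq with h6 | h6
  · exact h6
  · exfalso
    have h7 : (q : ℤ) ∣ a ^ 2 := by
      have h8 : a ^ 2 = 4 * (q : ℤ) ^ s := by linarith
      rw [h8]
      exact Dvd.dvd.mul_left (dvd_pow_self _ h.pos.ne') _
    have h8 : IsCoprime (a ^ 2) (q : ℤ) := h.cop.pow_left
    have h9 : IsUnit (q : ℤ) := h8.isUnit_of_dvd' h7 dvd_rfl
    rw [Int.isUnit_iff] at h9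
    omega

/-- The powers. -/
theorem pow (h : Ord q s a z) {n : ℕ} (hn : 0 < n) : ∃ t u : ℤ, Ord q (s * n) t (z ^ n) ∧
    t ^ 2 - 4 * (q : ℤ) ^ (s * n) = (a ^ 2 - 4 * (q : ℤ) ^ s) * u ^ 2 := by
  have key : ∀ n : ℕ, ∃ t u t' u' : ℤ, z ^ n + (conj z) ^ n = t ∧
      z ^ n - (conj z) ^ n = u * (z - conj z) ∧ z ^ (n + 1) + (conj z) ^ (n + 1) = t' ∧
      z ^ (n + 1) - (conj z) ^ (n + 1) = u' * (z - conj z) ∧ IsCoprime t' (q : ℤ) := by
    intro n
    induction n with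
    | zero => exact ⟨2, 0, a, 1, by norm_num, by simp, by simpa using h.add, by simp, h.cop⟩
    | succ n ih =>
      obtain ⟨t, u, t', u', h1, h2, h3, h4, h5⟩ := ih
      refine ⟨t', u', a * t' - (q : ℤ) ^ s * t, a * u' - (q : ℤ) ^ s * u, h3, h4, ?_, ?_, ?_⟩
      · push_cast
        rw [← h1, ← h3, ← h.add, ← h.mul]
        ring
      · push_cast
        have e : ((a : ℂ) * u' - (q : ℂ) ^ s * u) * (z - conj z) =
            a * (u' * (z - conj z)) - (q : ℂ) ^ s * (u * (z - conj z)) := by ring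
        rw [e, ← h2, ← h4, ← h.add, ← h.mul]
        ring
      · have h6 : IsCoprime (a * t') (q : ℤ) := h.cop.mul_left h5
        obtain ⟨k, hk⟩ : (q : ℤ) ∣ (q : ℤ) ^ s * t := Dvd.dvd.mul_right (dvd_pow_self _ h.pos.ne') _
        rw [hk, sub_eq_add_neg, ← mul_neg]
        exact (IsCoprime.add_mul_left_left_iff).2 h6
  obtain ⟨n, rfl⟩ := Nat.exists_eq_succ_of_ne_zero hn.ne'
  obtain ⟨-, -, t, u, -, -, h1, h2, h3⟩ := key n
  have hord : Ord q (s * (n + 1)) t (z ^ (n + 1)) :=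
    ⟨Nat.mul_pos h.pos hn, by rw [map_pow, h1], by rw [map_pow, ← mul_pow, h.mul, pow_mul], h3⟩
  refine ⟨t, u, hord, ?_⟩
  have h4 := hord.sq_disc
  rw [map_pow, h2, mul_pow, h.sq_disc] at h4
  have h5 : (((a ^ 2 - 4 * (q : ℤ) ^ s) * u ^ 2 : ℤ) : ℂ) =
      ((t ^ 2 - 4 * (q : ℤ) ^ (s * (n + 1)) : ℤ) : ℂ) := by
    rw [← h4]
    push_cast
    ring
  exact (Int.cast_injective (α := ℂ) h5).symm

/-- `z / conj z` is not a root of unity. -/
theorem free (h : Ord q s a z) (hq : 1 < q) {n : ℕ} (hn : 0 < n) : z ^ n ≠ (conj z) ^ n := by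
  intro he
  obtain ⟨t, u, h1, -⟩ := h.pow hn
  have h2 := h1.disc_neg hq
  have h3 := h1.sq_disc
  rw [map_pow, he, sub_self, zero_pow two_ne_zero] at h3
  have h4 : t ^ 2 - 4 * (q : ℤ) ^ (s * n) = 0 := by exact_mod_cast h3.symm
  omega

end Ord

theorem pow_twelve {u : ℂ} {c : ℤ} (hc : c ^ 2 ≤ 4) (h : u ^ 2 - c * u + 1 = 0) : u ^ 12 = 1 := by
  have h1 : -2 ≤ c := by nlinarith
  have h2 : c ≤ 2 := by nlinarith
  interval_cases c
  · have h3 : (u + 1) ^ 2 = 0 := by linear_combination h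
    have h4 : u = -1 := by
      have := pow_eq_zero_iff (two_ne_zero) |>.1 h3
      linear_combination this
    rw [h4]
    norm_num
  · have h3 : u ^ 3 = 1 := by linear_combination (u - 1) * h
    rw [show (12 : ℕ) = 3 * 4 from rfl, pow_mul, h3, one_pow]
  · have h3 : u ^ 2 = -1 := by linear_combination h
    rw [show (12 : ℕ) = 2 * 6 from rfl, pow_mul, h3]
    norm_num
  · have h3 : u ^ 3 = -1 := by linear_combination (u + 1) * h
    rw [show (12 : ℕ) = 3 * 4 from rfl, pow_mul, h3]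
    norm_num
  · have h3 : (u - 1) ^ 2 = 0 := by linear_combination h
    have h4 : u = 1 := by
      have := pow_eq_zero_iff (two_ne_zero) |>.1 h3
      linear_combination this
    rw [h4, one_pow]

/-- The case that one of the traces is divisible. -/
theorem pow_eq_of_dvd (hq : 1 < q) (hz : Ord q s a z) (hw : Ord q s b w) {A : ℤ}
    (hA : z * conj w + conj z * w = A) (hd : (q : ℤ) ^ s ∣ A) : z ^ 12 = w ^ 12 := by
  obtain ⟨c, rfl⟩ := hd
  have hQ : (q : ℂ) ^ s ≠ 0 := pow_ne_zero s (Nat.cast_ne_zero.2 (by omega))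
  have hw0 := hw.ne hq
  have hwc0 := hw.conj'.ne hq
  have hu : (z / w) ^ 2 - c * (z / w) + 1 = 0 := by
    push_cast at hA
    have h1 : (z ^ 2 - c * z * w + w ^ 2) * (q : ℂ) ^ s = 0 := by
      linear_combination (-(z ^ 2)) * hw.mul - w ^ 2 * hz.mul + z * w * hA
    have h2 : z ^ 2 - c * z * w + w ^ 2 = 0 := (mul_eq_zero.1 h1).resolve_right hQ
    have h3 : (z / w) ^ 2 - c * (z / w) + 1 = (z ^ 2 - c * z * w + w ^ 2) / w ^ 2 := by
      field_simp
    rw [h3, h2, zero_div]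
  have hc : c ^ 2 ≤ 4 := by
    -- `(z conj w - conj z w) ^ 2` is not positive
    have h1 : (z * conj w - conj z * w) ^ 2 = (((c ^ 2 - 4) * ((q : ℤ) ^ s) ^ 2 : ℤ) : ℂ) := by
      push_cast at hA ⊢
      linear_combination (z * conj w + conj z * w + (q : ℂ) ^ s * c) * hA -
        4 * (w * conj w) * hz.mul - 4 * (q : ℂ) ^ s * hw.mul
    have h2 : (z * conj w - conj z * w) ^ 2 = ((-(4 * (z * conj w).im ^ 2) : ℝ) : ℂ) := by
      have h3 : z * conj w - conj z * w = (2 * (z * conj w).im : ℝ) * Complex.I := by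
        rw [← Complex.sub_conj, map_mul, Complex.conj_conj]
      rw [h3, mul_pow, Complex.I_sq]
      push_cast
      ring
    rw [h2] at h1
    have h3 : -(4 * (z * conj w).im ^ 2) = (((c ^ 2 - 4) * ((q : ℤ) ^ s) ^ 2 : ℤ) : ℝ) := by
      exact_mod_cast h1
    have h4 : (((c ^ 2 - 4) * ((q : ℤ) ^ s) ^ 2 : ℤ) : ℝ) ≤ 0 := by
      rw [← h3]
      nlinarith [sq_nonneg (z * conj w).im]
    have h5 : (c ^ 2 - 4) * ((q : ℤ) ^ s) ^ 2 ≤ 0 := by exact_mod_cast h4
    have h6 : 0 < ((q : ℤ) ^ s) ^ 2 := by positivity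
    nlinarith
  have h1 := pow_twelve hc hu
  rw [div_pow, div_eq_one_iff_eq (pow_ne_zero _ hw0)] at h1
  exact h1

/-- **Comparison.** -/
theorem pow_eq_of_square (hq : IsPrimePow q) (hz : Ord q s a z) (hw : Ord q s b w)
    (h : IsSquare ((a ^ 2 - 4 * (q : ℤ) ^ s) * (b ^ 2 - 4 * (q : ℤ) ^ s))) :
    z ^ 12 = w ^ 12 ∨ z ^ 12 = (conj w) ^ 12 := by
  have hq1 := hq.one_lt
  obtain ⟨m, hm⟩ := h
  have hQ : (q : ℂ) ^ s ≠ 0 := pow_ne_zero s (Nat.cast_ne_zero.2 (by omega))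
  -- the sign of `m`
  have h1 : ((z - conj z) * (w - conj w)) ^ 2 = (m : ℂ) ^ 2 := by
    rw [mul_pow, hz.sq_disc, hw.sq_disc]
    have h2 := congrArg (Int.cast : ℤ → ℂ) hm
    rw [Int.cast_mul, Int.cast_mul] at h2
    rw [h2]
    ring
  obtain ⟨m', hm', hmm⟩ : ∃ m' : ℤ, (z - conj z) * (w - conj w) = m' ∧ m' * m' = m * m := by
    rcases sq_eq_sq_iff_eq_or_eq_neg.1 h1 with h2 | h2
    · exact ⟨m, h2, rfl⟩
    · exact ⟨-m, by rw [h2]; push_cast; ring, by ring⟩
  rw [← hmm] at hm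
  -- parity
  obtain ⟨A, B, hA, hB⟩ : ∃ A B : ℤ, 2 * A = a * b - m' ∧ 2 * B = a * b + m' := by
    have h2 : Even (a * b - m') := by
      have h3 : (a * b - m') * (a * b + m') =
          2 * (2 * ((q : ℤ) ^ s * (a ^ 2 + b ^ 2) - 4 * ((q : ℤ) ^ s) ^ 2)) := by
        linear_combination hm
      have h4 : Even ((a * b - m') * (a * b + m')) := by
        rw [h3]
        exact even_two_mul _
      rcases Int.even_mul.1 h4 with h5 | h5
      · exact h5
      · have h6 : a * b - m' = a * b + m' - 2 * m' := by ring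
        rw [h6]
        exact h5.sub (even_two_mul _)
    obtain ⟨A, hA⟩ := h2
    exact ⟨A, A + m', by linarith, by linarith⟩
  have hAC : z * conj w + conj z * w = A := by
    have h2 : (2 : ℂ) * A = a * b - m' := by exact_mod_cast hA
    have h3 : (2 : ℂ) * (z * conj w + conj z * w) = 2 * A := by
      rw [h2, ← hm', ← hz.add, ← hw.add]
      ring
    exact mul_left_cancel₀ two_ne_zero h3
  have hBC : z * w + conj z * conj w = B := by
    have h2 : (2 : ℂ) * B = a * b + m' := by exact_mod_cast hB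
    have h3 : (2 : ℂ) * (z * w + conj z * conj w) = 2 * B := by
      rw [h2, ← hm', ← hz.add, ← hw.add]
      ring
    exact mul_left_cancel₀ two_ne_zero h3
  have hAB : (q : ℤ) ^ s ∣ A * B := by
    refine ⟨a ^ 2 + b ^ 2 - 4 * (q : ℤ) ^ s, ?_⟩
    have h2 : (4 : ℤ) * (A * B) = 4 * ((q : ℤ) ^ s * (a ^ 2 + b ^ 2 - 4 * (q : ℤ) ^ s)) := by
      have h3 : (4 : ℤ) * (A * B) = (2 * A) * (2 * B) := by ring
      rw [h3, hA, hB]
      linear_combination hm
    linarith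
  have hsum : A + B = a * b := by linarith
  obtain ⟨p, k, hp, hk, hpk⟩ := hq
  have hp' : Prime (p : ℤ) := Nat.prime_iff_prime_int.1 hp.nat_prime
  have hpq : (p : ℤ) ∣ (q : ℤ) := by
    rw [← hpk]
    push_cast
    exact dvd_pow_self _ hk.ne'
  have hdis : (q : ℤ) ^ s ∣ A ∨ (q : ℤ) ^ s ∣ B := by
    have hnot : ¬ ((p : ℤ) ∣ A ∧ (p : ℤ) ∣ B) := by
      rintro ⟨h2, h3⟩
      have h4 : (p : ℤ) ∣ a * b := by
        rw [← hsum]
        exact dvd_add h2 h3
      have h5 : IsCoprime (a * b) (q : ℤ) := hz.cop.mul_left hw.cop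
      exact hp'.not_isUnit (h5.isUnit_of_dvd' h4 hpq)
    by_cases h2 : (p : ℤ) ∣ A
    · left
      have h3 : ¬ (p : ℤ) ∣ B := fun h3 => hnot ⟨h2, h3⟩
      have h4 : IsCoprime ((q : ℤ) ^ s) B := by
        rw [← hpk]
        push_cast
        exact (IsCoprime.pow_left ((hp'.coprime_iff_not_dvd).2 h3)).pow_left
      exact h4.dvd_of_dvd_mul_right hAB
    · right
      have h4 : IsCoprime ((q : ℤ) ^ s) A := by
        rw [← hpk]
        push_cast
        exact (IsCoprime.pow_left ((hp'.coprime_iff_not_dvd).2 h2)).pow_left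
      exact h4.dvd_of_dvd_mul_left hAB
  rcases hdis with h2 | h2
  · exact Or.inl (pow_eq_of_dvd hq1 hz hw hAC h2)
  · right
    refine pow_eq_of_dvd hq1 hz hw.conj' ?_ h2
    rw [Complex.conj_conj]
    exact hBC

end Pool.Agent.L0h40.EU
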