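import Mathlib
import Pool.Agent.L0h12.EC.Supp

/-!
# Independent angles and hitting sets
-/

set_option autoImplicit false

namespace Pool.Agent.L0h40.EU

open Finsupp

section lin

variable {W : Type*} [AddCommGroup W] [Module ℚ W] {ι : Type*}

/-- Elements `θ i` on which the complex conjugation acts as `-1`, linearly independent, and an
invariant element. -/
structure Ang (c : W →ₗ[ℚ] W) (χ : W) (θ : ι → W) : Prop where
  tate : c χ = χ
  neg : ∀ i, c (θ i) = -θ i
  indep : LinearIndependent ℚ θ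

/-- `x` is a combination of `χ` and the `θ i`. -/
def Rep (χ : W) (θ : ι → W) (x : W) (f : ι →₀ ℚ) : Prop :=
  ∃ a : ℚ, x = a • χ + linearCombination ℚ θ f

variable {c : W →ₗ[ℚ] W} {χ : W} {θ : ι → W}

theorem Ang.lc (h : Ang c χ θ) (f : ι →₀ ℚ) :
    c (linearCombination ℚ θ f) = -linearCombination ℚ θ f := by
  rw [linearCombination_apply, Finsupp.sum, map_sum, ← Finset.sum_neg_distrib]
  refine Finset.sum_congr rfl fun i _ => ?_
  rw [map_smul, h.neg, smul_neg]

theorem Ang.uniq (h : Ang c χ θ) {x : W} {f g : ι →₀ ℚ} (hf : Rep χ θ x f) (hg : Rep χ θ x g) :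
    f = g := by
  obtain ⟨a, ha⟩ := hf
  obtain ⟨b, hb⟩ := hg
  have h1 : (a - b) • χ + linearCombination ℚ θ (f - g) = 0 := by
    rw [map_sub, sub_smul, sub_add_sub_comm, ← ha, ← hb, sub_self]
  have h2 := congrArg c h1
  rw [map_zero, map_add, map_smul, h.tate, h.lc] at h2
  have h3 : linearCombination ℚ θ (f - g) = 0 := by
    have h4 : (2 : ℚ) • linearCombination ℚ θ (f - g) = 0 := by
      rw [two_smul]
      have h5 : linearCombination ℚ θ (f - g) + linearCombination ℚ θ (f - g) =
        ((a - b) • χ + linearCombination ℚ θ (f - g)) -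
          ((a - b) • χ + -linearCombination ℚ θ (f - g)) := by abel
      rw [h5, h1, h2, sub_zero]
    rcases smul_eq_zero.1 h4 with h6 | h6
    · norm_num at h6
    · exact h6
  exact sub_eq_zero.1 (linearIndependent_iff.1 h.indep _ h3)

theorem Ang.conj (h : Ang c χ θ) {x : W} {f : ι →₀ ℚ} (hf : Rep χ θ x f) :
    Rep χ θ (c x) (-f) := by
  obtain ⟨a, rfl⟩ := hf
  exact ⟨a, by rw [map_add, map_smul, h.tate, h.lc, map_neg]⟩

/-- **Hitting sets.** -/
theorem Ang.exists_hit (h : Ang c χ θ) {A I : Type*} [DecidableEq A] [DecidableEq I] (b : ι → I)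
    (l : A → W) (σ : A → A) (T : Finset A) (hσ : ∀ x ∈ T, σ x ∈ T)
    (hσσ : ∀ x ∈ T, σ (σ x) = x) (hl : ∀ x ∈ T, l (σ x) = c (l x)) :
    ∃ (S : Finset I) (T' : Finset A), T' ⊆ T ∧ 2 * S.card ≤ T'.card ∧
      (∀ x ∈ T', ∃ f, f ≠ 0 ∧ Rep χ θ (l x) f) ∧
      ∀ x ∈ T, ∀ f, Rep χ θ (l x) f → f ≠ 0 → ∃ i, b i ∈ S ∧ f i ≠ 0 := by
  classical
  let T' := T.filter fun x => ∃ f, f ≠ 0 ∧ Rep χ θ (l x) f
  have hmem : ∀ x, x ∈ T' ↔ x ∈ T ∧ ∃ f, f ≠ 0 ∧ Rep χ θ (l x) f := fun x => Finset.mem_filter
  obtain ⟨R, hR, hRc, hRT⟩ := Pool.Agent.L0h12.EC.exists_half σ _ T' rfl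
    (fun x hx => by
      obtain ⟨h1, f, hf0, hf⟩ := (hmem x).1 hx
      refine (hmem _).2 ⟨hσ x h1, -f, neg_ne_zero.2 hf0, ?_⟩
      rw [hl x h1]
      exact h.conj hf)
    (fun x hx => hσσ x ((hmem x).1 hx).1)
    (fun x hx he => by
      obtain ⟨h1, f, hf0, hf⟩ := (hmem x).1 hx
      have h2 := h.conj hf
      rw [← hl x h1, he] at h2
      have h3 := h.uniq hf h2
      apply hf0
      ext i
      have h4 := DFunLike.congr_fun h3 i
      rw [Finsupp.neg_apply] at h4
      rw [Finsupp.zero_apply]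
      linarith)
  have hpick : ∀ x : R, ∃ i, ∃ f, Rep χ θ (l x.1) f ∧ f i ≠ 0 := by
    rintro ⟨x, hx⟩
    obtain ⟨-, f, hf0, hf⟩ := (hmem x).1 (hR hx)
    obtain ⟨i, hi⟩ := Finsupp.support_nonempty_iff.2 hf0
    exact ⟨i, f, hf, Finsupp.mem_support_iff.1 hi⟩
  choose pick F hF hFi using hpick
  refine ⟨R.attach.image fun x => b (pick x), T', Finset.filter_subset _ _, ?_,
    fun x hx => ((hmem x).1 hx).2, ?_⟩
  · have h1 := Finset.card_image_le (s := R.attach) (f := fun x => b (pick x))
    rw [Finset.card_attach] at h1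
    omega
  · intro x hx f hf hf0
    rcases hRT x ((hmem x).2 ⟨hx, f, hf0, hf⟩) with h' | h'
    · refine ⟨pick ⟨x, h'⟩, Finset.mem_image.2 ⟨⟨x, h'⟩, Finset.mem_attach _ _, rfl⟩, ?_⟩
      rw [h.uniq hf (hF ⟨x, h'⟩)]
      exact hFi ⟨x, h'⟩
    · refine ⟨pick ⟨_, h'⟩, Finset.mem_image.2 ⟨⟨_, h'⟩, Finset.mem_attach _ _, rfl⟩, ?_⟩
      have h2 := h.conj hf
      rw [← hl x hx] at h2
      have h3 := h.uniq h2 (hF ⟨_, h'⟩)
      intro h4
      apply hFi ⟨_, h'⟩
      rw [← h3, Finsupp.neg_apply, h4, neg_zero]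

/-- A reduced list of signed multiples of unit vectors. -/
theorem sum_reduced {X : Type*} (w : X → ι →₀ ℚ) (r : ι → ℚ) (hr : ∀ i, 0 < r i)
    (ys : List X) (hne : ys ≠ [])
    (hw : ∀ y ∈ ys, w y = 0 ∨ ∃ i, w y = single i (r i) ∨ w y = -single i (r i))
    (hp : ys.Pairwise fun y y' => w y + w y' ≠ 0) :
    (ys.map w).sum ≠ 0 ∨ ∃ y, ys = [y] ∧ w y = 0 := by
  classical
  by_cases h0 : ∀ y ∈ ys, w y = 0
  · right
    match ys, hne with
    | [y], _ => exact ⟨y, rfl, h0 y (by simp)⟩
    | y :: y' :: ys, _ =>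
      exfalso
      have h1 := (List.pairwise_cons.1 hp).1 y' (by simp)
      apply h1
      rw [h0 y (by simp), h0 y' (by simp), add_zero]
  · left
    push Not at h0
    obtain ⟨y, hy, hy0⟩ := h0
    obtain ⟨i, hi⟩ := (hw y hy).resolve_left hy0
    obtain ⟨e, he, hwy⟩ : ∃ e : ℚ, (e = 1 ∨ e = -1) ∧ w y = e • single i (r i) := by
      rcases hi with h | h
      · exact ⟨1, Or.inl rfl, by rw [h, one_smul]⟩
      · exact ⟨-1, Or.inr rfl, by rw [h, neg_smul, one_smul]⟩
    have hee : e * e = 1 := by rcases he with rfl | rfl <;> norm_num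
    have hsym : Std.Symm fun y y' => w y + w y' ≠ 0 := ⟨fun a b h => by rwa [add_comm]⟩
    have hall : ∀ y' ∈ ys, 0 ≤ e * w y' i := by
      intro y' hy'
      rcases hw y' hy' with h | ⟨i', h⟩
      · rw [h, Finsupp.zero_apply, mul_zero]
      · by_cases hii : i' = i
        · subst hii
          by_cases hneq : y = y'
          · subst hneq
            rw [hwy, Finsupp.smul_apply, single_eq_same, smul_eq_mul, ← mul_assoc, hee, one_mul]
            exact (hr i').le
          · have h1 := hp.forall hy hy' hneq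
            have h2 : w y' = e • single i' (r i') := by
              rcases he with rfl | rfl
              · rcases h with h | h
                · rw [h, one_smul]
                · exfalso
                  apply h1
                  rw [hwy, h, one_smul, add_neg_cancel]
              · rcases h with h | h
                · exfalso
                  apply h1
                  rw [hwy, h, neg_smul, one_smul, neg_add_cancel]
                · rw [h, neg_smul, one_smul]
            rw [h2, Finsupp.smul_apply, single_eq_same, smul_eq_mul, ← mul_assoc, hee, one_mul]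
            exact (hr i').le
        · have h1 : w y' i = 0 := by
            rcases h with h | h
            · rw [h, single_eq_of_ne (Ne.symm hii)]
            · rw [h, Finsupp.neg_apply, single_eq_of_ne (Ne.symm hii), neg_zero]
          rw [h1, mul_zero]
    intro hs
    have h1 : (ys.map fun y => e * w y i).sum = 0 := by
      have h2 : ∀ ys : List X, (ys.map fun y => e * w y i).sum = e * (ys.map w).sum i := by
        intro ys
        induction ys with
        | nil => simp
        | cons a ys ih => simp [ih, mul_add]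
      rw [h2, hs, Finsupp.zero_apply, mul_zero]
    have h2 : 0 < (ys.map fun y => e * w y i).sum := by
      have h4 : 0 < e * w y i := by
        rw [hwy, Finsupp.smul_apply, single_eq_same, smul_eq_mul, ← mul_assoc, hee, one_mul]
        exact hr i
      have h5 : ∀ ys : List X, (∀ y' ∈ ys, 0 ≤ e * w y' i) → y ∈ ys →
          e * w y i ≤ (ys.map fun y => e * w y i).sum := by
        intro ys hys hy
        exact List.single_le_sum (by
          intro x hx
          obtain ⟨y', hy', rfl⟩ := List.mem_map.1 hx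
          exact hys y' hy') _ (List.mem_map.2 ⟨y, hy, rfl⟩)
      exact h4.trans_le (h5 ys hall hy)
    exact absurd h1 h2.ne'

end lin

end Pool.Agent.L0h40.EU
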