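import Mathlib
import Pool.Agent.L0h40.EU.Lin

/-!
# Nonzero complex numbers up to roots of unity
-/

set_option autoImplicit false

namespace Pool.Agent.L0h40.EU

open Finsupp TensorProduct

/-- The nonzero complex numbers up to roots of unity, tensored with the rational numbers. -/
abbrev 𝕎 : Type := ℚ ⊗[ℤ] Additive ℂˣ

/-- the canonical map -/
noncomputable def can : Additive ℂˣ →ₗ[ℤ] 𝕎 := TensorProduct.mk ℤ ℚ (Additive ℂˣ) 1

instance : IsLocalizedModule (nonZeroDivisors ℤ) can := by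
  rw [isLocalizedModule_iff_isBaseChange (S := nonZeroDivisors ℤ) (A := ℚ)]
  exact TensorProduct.isBaseChange ℤ (Additive ℂˣ) ℚ

/-- the logarithm -/
noncomputable def lg (z : ℂ) : 𝕎 :=
  if h : z = 0 then 0 else can (Additive.ofMul (Units.mk0 z h))

theorem lg_of_ne {z : ℂ} (h : z ≠ 0) : lg z = can (Additive.ofMul (Units.mk0 z h)) := dif_neg h

theorem lg_unit (z : ℂˣ) : lg (z : ℂ) = can (Additive.ofMul z) := by
  rw [lg_of_ne z.ne_zero, Units.mk0_val]

theorem lg_mul {z w : ℂ} (hz : z ≠ 0) (hw : w ≠ 0) : lg (z * w) = lg z + lg w := by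
  rw [lg_of_ne hz, lg_of_ne hw, lg_of_ne (mul_ne_zero hz hw), ← map_add, ← ofMul_mul]
  congr 2
  ext
  rfl

theorem lg_one : lg 1 = 0 := by
  have h := lg_mul one_ne_zero (one_ne_zero (α := ℂ))
  rw [mul_one] at h
  exact left_eq_add.1 h

theorem lg_inv {z : ℂ} (hz : z ≠ 0) : lg z⁻¹ = -lg z := by
  have h := lg_mul hz (inv_ne_zero hz)
  rw [mul_inv_cancel₀ hz, lg_one] at h
  exact eq_neg_of_add_eq_zero_right h.symm

theorem lg_div {z w : ℂ} (hz : z ≠ 0) (hw : w ≠ 0) : lg (z / w) = lg z - lg w := by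
  rw [div_eq_mul_inv, lg_mul hz (inv_ne_zero hw), lg_inv hw, sub_eq_add_neg]

theorem lg_pow {z : ℂ} (hz : z ≠ 0) (n : ℕ) : lg (z ^ n) = (n : ℚ) • lg z := by
  induction n with
  | zero => rw [pow_zero, lg_one, Nat.cast_zero, zero_smul]
  | succ n ih => rw [pow_succ, lg_mul (pow_ne_zero n hz) hz, ih, Nat.cast_succ, add_smul, one_smul]

theorem lg_zpow {z : ℂ} (hz : z ≠ 0) (n : ℤ) : lg (z ^ n) = (n : ℚ) • lg z := by
  obtain ⟨n, rfl | rfl⟩ := n.eq_nat_or_neg
  · rw [zpow_natCast, lg_pow hz, Int.cast_natCast]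
  · rw [zpow_neg, zpow_natCast, lg_inv (pow_ne_zero n hz), lg_pow hz, Int.cast_neg,
      Int.cast_natCast, neg_smul]

theorem lg_eq_zero {z : ℂ} (hz : z ≠ 0) : lg z = 0 ↔ ∃ N : ℕ, 0 < N ∧ z ^ N = 1 := by
  rw [lg_of_ne hz]
  constructor
  · intro h
    obtain ⟨⟨n, hn⟩, h1⟩ := (IsLocalizedModule.eq_zero_iff (nonZeroDivisors ℤ) can).1 h
    have hn0 : n ≠ 0 := nonZeroDivisors.ne_zero hn
    refine ⟨n.natAbs, Int.natAbs_pos.2 hn0, ?_⟩
    have h2 : (n : ℤ) • Additive.ofMul (Units.mk0 z hz) = 0 := h1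
    rw [← ofMul_zpow] at h2
    have h3 : (Units.mk0 z hz) ^ n = 1 := Additive.ofMul.injective (by rw [h2, ofMul_one])
    have h4 : z ^ n = 1 := by
      have := congrArg Units.val h3
      simpa using this
    rcases Int.natAbs_eq n with h5 | h5
    · rw [h5, zpow_natCast] at h4
      exact h4
    · rw [h5, zpow_neg, zpow_natCast, inv_eq_one] at h4
      exact h4
  · rintro ⟨N, hN, h⟩
    have h1 := lg_pow hz N
    rw [h, lg_one, lg_of_ne hz] at h1
    rcases smul_eq_zero.1 h1.symm with h2 | h2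
    · exact absurd (Nat.cast_eq_zero.1 h2) hN.ne'
    · exact h2

theorem lg_eq {z w : ℂ} (hz : z ≠ 0) (hw : w ≠ 0) :
    lg z = lg w ↔ ∃ N : ℕ, 0 < N ∧ z ^ N = w ^ N := by
  rw [← sub_eq_zero, ← lg_div hz hw, lg_eq_zero (div_ne_zero hz hw)]
  refine exists_congr fun N => and_congr_right fun _ => ?_
  rw [div_pow, div_eq_one_iff_eq (pow_ne_zero N hw)]

/-- complex conjugation -/
noncomputable def cj0 : Additive ℂˣ →+ Additive ℂˣ :=
  MonoidHom.toAdditive (Units.map (starRingEnd ℂ : ℂ →* ℂ))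

/-- complex conjugation -/
noncomputable def cj : 𝕎 →ₗ[ℚ] 𝕎 := (cj0.toIntLinearMap).baseChange ℚ

theorem cj_lg (z : ℂ) : cj (lg z) = lg ((starRingEnd ℂ) z) := by
  by_cases hz : z = 0
  · subst hz
    rw [map_zero]
    simp [lg]
  · have hz' : (starRingEnd ℂ) z ≠ 0 := by rwa [Ne, map_eq_zero]
    rw [lg_of_ne hz, lg_of_ne hz']
    have h1 : cj (can (Additive.ofMul (Units.mk0 z hz))) =
        can (cj0 (Additive.ofMul (Units.mk0 z hz))) :=
      LinearMap.baseChange_tmul cj0.toIntLinearMap (1 : ℚ) (Additive.ofMul (Units.mk0 z hz))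
    rw [h1]
    congr 1
    show Additive.ofMul (Units.map (starRingEnd ℂ : ℂ →* ℂ) (Units.mk0 z hz)) = _
    congr 1
    ext
    rfl

/-- The numbers `π x / conj (π x)` are multiplicatively independent. -/
def Indep {ι : Type*} (π : ι → ℂ) : Prop :=
  ∀ f : ι →₀ ℤ, (f.prod fun x n => (π x / (starRingEnd ℂ) (π x)) ^ n) = 1 → f = 0

theorem linearIndependent_lg {ι : Type*} {π : ι → ℂ} (h0 : ∀ x, π x ≠ 0) (h : Indep π) :
    LinearIndependent ℚ fun x => lg (π x / (starRingEnd ℂ) (π x)) := by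
  have hc : ∀ x, (starRingEnd ℂ) (π x) ≠ 0 := fun x => by
    rw [Ne, map_eq_zero]
    exact h0 x
  have hu : ∀ x, π x / (starRingEnd ℂ) (π x) ≠ 0 := fun x => div_ne_zero (h0 x) (hc x)
  have h1 : LinearIndependent ℤ fun x => Additive.ofMul (Units.mk0 _ (hu x)) := by
    rw [linearIndependent_iff]
    intro f hf
    apply h f
    rw [linearCombination_apply] at hf
    have h2 : (f.prod fun x n => (Units.mk0 _ (hu x)) ^ n) = 1 := by
      apply Additive.ofMul.injective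
      rw [ofMul_one, ← hf, Finsupp.prod, Finsupp.sum, ofMul_prod]
      rfl
    have h3 := congrArg (Units.coeHom ℂ) h2
    rw [map_one, Finsupp.prod, map_prod] at h3
    rw [Finsupp.prod, ← h3]
    refine Finset.prod_congr rfl fun x _ => ?_
    rw [map_zpow]
    rfl
  have h2 := h1.of_isLocalizedModule ℚ (nonZeroDivisors ℤ) can
  have h3 : (fun x => lg (π x / (starRingEnd ℂ) (π x))) =
      can ∘ fun x => Additive.ofMul (Units.mk0 _ (hu x)) := funext fun x => lg_of_ne (hu x)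
  rw [h3]
  exact h2

end Pool.Agent.L0h40.EU
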