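import Mathlib
import Pool.Agent.L0h40.EU.Log
import Pool.Agent.W484.AA.Mixed
import Pool.Agent.L0h40.EU.Def

/-!
# Eigenvalues of abelian varieties in an independent family and arbitrary numbers
-/

set_option autoImplicit false

namespace Pool.Agent.L0h40.EU

open Finsupp Pool.Agent.W484.AA

open scoped ComplexConjugate

section family

variable {q : ℕ} {I : Type} {J : I → Type} {d : I → ℕ} {π : ∀ i, J i → ℂ}

theorem IsFamily.ne (h : IsFamily q d π) (hq : q ≠ 0) (i : I) (j : J i) : π i j ≠ 0 := by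
  intro h0
  have h1 := h.norm i j
  rw [h0, zero_mul] at h1
  exact pow_ne_zero (d i) (Nat.cast_ne_zero.2 hq) h1.symm

theorem IsFamily.ne' (h : IsFamily q d π) (hq : q ≠ 0) (i : I) (j : J i) : conj (π i j) ≠ 0 := by
  rw [Ne, map_eq_zero]
  exact h.ne hq i j

/-- the angles -/
noncomputable def ang (π : ∀ i, J i → ℂ) (x : Σ i, J i) : 𝕎 := lg (π x.1 x.2 / conj (π x.1 x.2))

theorem IsFamily.ang (h : IsFamily q d π) (hq : q ≠ 0) : Ang cj (lg q) (ang π) where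
  tate := by
    rw [cj_lg, Complex.conj_natCast]
  neg x := by
    unfold EU.ang
    rw [cj_lg, map_div₀, Complex.conj_conj, lg_div (h.ne' hq _ _) (h.ne hq _ _),
      lg_div (h.ne hq _ _) (h.ne' hq _ _), neg_sub]
  indep := linearIndependent_lg (π := fun x : Σ i, J i => π x.1 x.2) (fun x => h.ne hq _ _) h.indep

theorem IsFamily.lg_pi (h : IsFamily q d π) (hq : q ≠ 0) (i : I) (j : J i) :
    lg (π i j) = ((d i : ℚ) / 2) • lg (q : ℂ) + (1 / 2 : ℚ) • EU.ang π ⟨i, j⟩ ∧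
    lg (conj (π i j)) = ((d i : ℚ) / 2) • lg (q : ℂ) - (1 / 2 : ℚ) • EU.ang π ⟨i, j⟩ := by
  have hqC : (q : ℂ) ≠ 0 := Nat.cast_ne_zero.2 hq
  have h1 := congrArg lg (h.norm i j)
  rw [lg_mul (h.ne hq i j) (h.ne' hq i j), lg_pow hqC] at h1
  have h2 : EU.ang π ⟨i, j⟩ = lg (π i j) - lg (conj (π i j)) :=
    lg_div (h.ne hq i j) (h.ne' hq i j)
  have h3 : ((d i : ℚ) / 2) • lg (q : ℂ) = (1 / 2 : ℚ) • (lg (π i j) + lg (conj (π i j))) := by
    rw [h1, smul_smul]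
    congr 1
    ring
  rw [h2, h3]
  constructor
  · module
  · module

theorem eq_of_smul {W : Type*} [AddCommGroup W] [Module ℚ W] {a : ℚ} (ha : a ≠ 0) {x y : W}
    (h : a • x = y) : x = a⁻¹ • y := by
  rw [← h, smul_smul, inv_mul_cancel₀ ha, one_smul]

/-- The class `w` of an eigenvalue `z` of absolute value `√(q ^ s)` in the family. -/
structure Cls (q : ℕ) (d : I → ℕ) (π : ∀ i, J i → ℂ) (s : ℕ) (z : ℂ) (w : (Σ i, J i) →₀ ℚ) :
    Prop where
  ne : z ≠ 0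
  eq : lg z = ((s : ℚ) / 2) • lg (q : ℂ) + linearCombination ℚ (EU.ang π) w
  form : w = 0 ∨ ∃ x : Σ i, J i,
    w = single x ((s : ℚ) / (2 * d x.1)) ∨ w = -single x ((s : ℚ) / (2 * d x.1))

theorem cls_power (h : IsFamily q d π) (hq : q ≠ 0) {s : ℕ} (hs : 0 < s) {z : ℂ} {i : I} {j : J i}
    (hz : IsPower (d i) s (π i j) z) : ∃ w, Cls q d π s z w ∧
      (w = single ⟨i, j⟩ ((s : ℚ) / (2 * d i)) ∨ w = -single ⟨i, j⟩ ((s : ℚ) / (2 * d i))) := by
  obtain ⟨N, hN, hz⟩ := hz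
  have hqC : (q : ℂ) ≠ 0 := Nat.cast_ne_zero.2 hq
  have hd := h.pos i
  have hz0 : z ≠ 0 := by
    rintro rfl
    rw [zero_pow (Nat.mul_pos hd hN).ne'] at hz
    rcases hz with hz | hz
    · exact pow_ne_zero _ (h.ne hq i j) hz.symm
    · exact pow_ne_zero _ (h.ne' hq i j) hz.symm
  have hNQ : (N : ℚ) ≠ 0 := Nat.cast_ne_zero.2 hN.ne'
  have hdQ : (d i : ℚ) ≠ 0 := Nat.cast_ne_zero.2 hd.ne'
  obtain ⟨h1, h2⟩ := h.lg_pi hq i j
  rcases hz with hz | hz
  · refine ⟨single ⟨i, j⟩ ((s : ℚ) / (2 * d i)), ⟨hz0, ?_, Or.inr ⟨⟨i, j⟩, Or.inl rfl⟩⟩, Or.inl rfl⟩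
    have h3 := congrArg lg hz
    rw [lg_pow hz0, lg_pow (h.ne hq i j), h1] at h3
    rw [eq_of_smul (by positivity) h3, linearCombination_single, smul_add, smul_smul, smul_smul,
      smul_add, smul_smul, smul_smul]
    congr 2
    · push_cast
      field_simp
    · push_cast
      field_simp
  · refine ⟨-single ⟨i, j⟩ ((s : ℚ) / (2 * d i)), ⟨hz0, ?_, Or.inr ⟨⟨i, j⟩, Or.inr rfl⟩⟩,
      Or.inr rfl⟩
    have h3 := congrArg lg hz
    rw [lg_pow hz0, lg_pow (h.ne' hq i j), h2] at h3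
    rw [eq_of_smul (by positivity) h3, map_neg, linearCombination_single, smul_sub, smul_smul,
      smul_smul, smul_sub, smul_smul, smul_smul, sub_eq_add_neg]
    congr 2
    · push_cast
      field_simp
    · congr 1
      push_cast
      field_simp

theorem cls_super (hq : q ≠ 0) {s : ℕ} {z : ℂ} (hz : IsSuper q s z) : Cls q d π s z 0 := by
  obtain ⟨N, hN, hz⟩ := hz
  have hqC : (q : ℂ) ≠ 0 := Nat.cast_ne_zero.2 hq
  have hz0 : z ≠ 0 := by
    rintro rfl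
    rw [zero_pow (Nat.mul_pos two_pos hN).ne'] at hz
    exact pow_ne_zero _ hqC hz.symm
  have hNQ : (N : ℚ) ≠ 0 := Nat.cast_ne_zero.2 hN.ne'
  refine ⟨hz0, ?_, Or.inl rfl⟩
  have h3 := congrArg lg hz
  rw [lg_pow hz0, lg_pow hqC] at h3
  rw [eq_of_smul (by positivity) h3, map_zero, add_zero, smul_smul]
  congr 1
  push_cast
  field_simp

theorem lg_list {X : Type*} (v : X → ℂ) (hv : ∀ x, v x ≠ 0) (ys : List X) :
    (ys.map v).prod ≠ 0 ∧ lg (ys.map v).prod = (ys.map fun y => lg (v y)).sum := by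
  induction ys with
  | nil => exact ⟨by simp, by simp [lg_one]⟩
  | cons y ys ih =>
    rw [List.map_cons, List.prod_cons, List.map_cons, List.sum_cons]
    exact ⟨mul_ne_zero (hv y) ih.1, by rw [lg_mul (hv y) ih.1, ih.2]⟩

/-- **The relations.** The set `P` consists of indices which do not occur in the eigenvalues
`v x`, and each class `f` of `μ` which is not zero has a coefficient in `P` which is not zero. -/
theorem exactPair (h : IsFamily q d π) (hq : q ≠ 0) {s : ℕ} (hs : 0 < s) {X : Type*} (v : X → ℂ)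
    (P : (Σ i, J i) → Prop)
    (hv : ∀ x, ∃ w, Cls q d π s (v x) w ∧ ∀ y, P y → w y = 0) {N₀ : ℕ} (hN₀ : 0 < N₀)
    (hv₀ : ∀ x y, (∃ N : ℕ, 0 < N ∧ (v x * v y) ^ N = ((q : ℂ) ^ s) ^ N) →
      (v x * v y) ^ N₀ = ((q : ℂ) ^ s) ^ N₀)
    {μ : ℂ} (hμ0 : μ ≠ 0)
    (hμ : ∀ (a : ℚ) (f : (Σ i, J i) →₀ ℚ),
      lg μ = a • lg (q : ℂ) + linearCombination ℚ (EU.ang π) f → f ≠ 0 → ∃ x, P x ∧ f x ≠ 0)
    (hμ' : (∃ x, Cls q d π s (v x) 0) → ∀ (N : ℕ) (k : ℤ), 0 < N → Odd k →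
      μ ^ (2 * N) ≠ ((q : ℂ) ^ s) ^ (k * N)) {k : ℕ} (hk : 0 < k) :
    ExactPair (fun x => v x ^ (N₀ * k)) (((q : ℂ) ^ s) ^ (N₀ * k)) (μ ^ (N₀ * k)) := by
  classical
  have hqC : (q : ℂ) ≠ 0 := Nat.cast_ne_zero.2 hq
  have hsQ : (s : ℚ) ≠ 0 := Nat.cast_ne_zero.2 hs.ne'
  have hQ : (q : ℂ) ^ s ≠ 0 := pow_ne_zero _ hqC
  have hN₁ : 0 < N₀ * k := Nat.mul_pos hN₀ hk
  intro n c N hN hn ys hlen hrel hpw
  choose w hw hwP using hv
  have hv0 : ∀ x, v x ≠ 0 := fun x => (hw x).ne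
  have hw1 := fun x => (hw x).eq
  -- the relation
  have hvp : ∀ x, v x ^ (N₀ * k) ≠ 0 := fun x => pow_ne_zero _ (hv0 x)
  obtain ⟨hp0, hp1⟩ := lg_list (fun x => v x ^ (N₀ * k)) hvp ys
  have hsum : (ys.map fun y => lg (v y ^ (N₀ * k))).sum = ((N₀ * k : ℕ) : ℚ) •
      (((ys.length : ℚ) * (s / 2)) • lg (q : ℂ) +
        linearCombination ℚ (EU.ang π) (ys.map w).sum) := by
    clear hlen hrel hpw hp0 hp1
    induction ys with
    | nil => simp
    | cons y ys ih =>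
      rw [List.map_cons, List.sum_cons, List.map_cons, List.sum_cons, ih, lg_pow (hv0 y), hw1 y,
        List.length_cons, map_add]
      push_cast
      module
  have hlg : ((ys.length : ℚ) * (s / 2)) • lg (q : ℂ) +
      linearCombination ℚ (EU.ang π) (ys.map w).sum + lg μ = ((c : ℚ) * s) • lg (q : ℂ) := by
    have h1 := congrArg lg hrel
    rw [lg_pow (mul_ne_zero hp0 (pow_ne_zero _ hμ0)), lg_mul hp0 (pow_ne_zero _ hμ0), hp1, hsum,
      lg_pow hμ0, lg_pow (zpow_ne_zero _ (pow_ne_zero _ hQ)),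
      lg_zpow (pow_ne_zero _ hQ), lg_pow hQ, lg_pow hqC, ← smul_add, smul_smul] at h1
    have h2 : (N : ℚ) * ((N₀ * k : ℕ) : ℚ) ≠ 0 :=
      mul_ne_zero (Nat.cast_ne_zero.2 hN.ne') (Nat.cast_ne_zero.2 hN₁.ne')
    rw [eq_of_smul h2 h1]
    simp only [smul_smul]
    congr 1
    field_simp
  -- the list is reduced
  have hpw' : ys.Pairwise fun y y' => w y + w y' ≠ 0 := by
    refine hpw.imp fun {y y'} hyy h0 => hyy ?_
    have h1 : lg (v y * v y') = lg ((q : ℂ) ^ s) := by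
      rw [lg_mul (hv0 y) (hv0 y'), hw1 y, hw1 y', lg_pow hqC]
      have h2 : linearCombination ℚ (EU.ang π) (w y) + linearCombination ℚ (EU.ang π) (w y') = 0 :=
        by rw [← map_add, h0, map_zero]
      have h3 : (s : ℚ) • lg (q : ℂ) = ((s : ℚ) / 2) • lg (q : ℂ) + ((s : ℚ) / 2) • lg (q : ℂ) := by
        rw [← add_smul]
        congr 1
        ring
      rw [h3, add_add_add_comm, h2, add_zero]
    have h2 := hv₀ y y' ((lg_eq (mul_ne_zero (hv0 y) (hv0 y')) hQ).1 h1)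
    show v y ^ (N₀ * k) * v y' ^ (N₀ * k) = ((q : ℂ) ^ s) ^ (N₀ * k)
    rw [← mul_pow, pow_mul, h2, ← pow_mul]
  have hne : ys ≠ [] := by
    rintro rfl
    simp at hlen
    omega
  have hdisj := sum_reduced w (fun x : Σ i, J i => (s : ℚ) / (2 * d x.1)) (fun x => by
    have := h.pos x.1
    positivity) ys hne (fun y _ => (hw y).form) hpw'
  rcases hdisj with h1 | ⟨y, rfl, hy⟩
  · obtain ⟨x, hx, hfx⟩ := hμ (c * s - ys.length * (s / 2)) (-(ys.map w).sum) (by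
      rw [map_neg, sub_smul, ← hlg]
      abel) (neg_ne_zero.2 h1)
    apply hfx
    have h4 : ∀ ys : List X, (ys.map w).sum x = 0 := by
      intro ys
      induction ys with
      | nil => simp
      | cons y ys ih =>
        rw [List.map_cons, List.sum_cons, Finsupp.add_apply, ih, hwP y x hx, add_zero]
    rw [Finsupp.neg_apply, h4, neg_zero]
  · rw [List.map_cons, List.map_nil, List.sum_cons, List.sum_nil, add_zero, hy, map_zero, add_zero,
      List.length_singleton, Nat.cast_one, one_mul] at hlg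
    have h1 : lg (μ ^ 2) = lg (((q : ℂ) ^ s) ^ (2 * c - 1)) := by
      rw [lg_pow hμ0, lg_zpow hQ, lg_pow hqC]
      have h2 : lg μ = ((c : ℚ) * s) • lg (q : ℂ) - ((s : ℚ) / 2) • lg (q : ℂ) := by
        rw [← hlg]
        abel
      rw [h2, ← sub_smul, smul_smul, smul_smul]
      congr 1
      push_cast
      ring
    obtain ⟨N'', hN'', h2⟩ := (lg_eq (pow_ne_zero _ hμ0) (zpow_ne_zero _ hQ)).1 h1
    refine hμ' ⟨y, hy ▸ hw y⟩ N'' (2 * c - 1) hN'' ⟨c - 1, by ring⟩ ?_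
    rw [pow_mul, h2, zpow_mul, zpow_natCast]

end family

end Pool.Agent.L0h40.EU
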