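import Mathlib
import Pool.Agent.TH44.SS.Tate
import Pool.Agent.L0h40.EU.Rel

/-!
# From relations to the classes of Tate
-/

set_option autoImplicit false

namespace Pool.Agent.L0h40.EU

open Polynomial TensorProduct Module Pool.Agent.W484.AA Pool.Agent.W484.TB Pool.Agent.W484.BB
  Pool.Agent.TH44.SS

section powers

variable {M : Type*} [AddCommGroup M] [Module ℂ M]

theorem gen_pow (T : M →ₗ[ℂ] M) (μ : ℂ) (N j k : ℕ) (x : M)
    (h : ((T ^ N - μ • (1 : M →ₗ[ℂ] M)) ^ j) x = 0) :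
    ((T ^ (N * k) - μ ^ k • (1 : M →ₗ[ℂ] M)) ^ j) x = 0 := by
  have h1 : ∀ (n : ℕ) (a : ℂ), aeval T (X ^ n - C a : ℂ[X]) = T ^ n - a • (1 : M →ₗ[ℂ] M) := by
    intro n a
    rw [map_sub, map_pow, aeval_X, aeval_C, Algebra.algebraMap_eq_smul_one]
  obtain ⟨r, hr⟩ : (X ^ N - C μ : ℂ[X]) ∣ X ^ (N * k) - C (μ ^ k) := by
    rw [pow_mul, C_pow]
    exact sub_dvd_pow_sub_pow _ _ _
  rw [← h1, ← map_pow, hr, mul_comm, mul_pow, map_mul, Module.End.mul_apply, map_pow, map_pow,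
    h1, h, map_zero]

theorem genTate_pow (T : M →ₗ[ℂ] M) (Q : ℂ) (c N₀ : ℕ) (x : M) (h : IsGenTate T Q c x) :
    IsGenTate (T ^ N₀) (Q ^ N₀) c x := by
  obtain ⟨N, hN, j, h⟩ := h
  refine ⟨N, hN, j, ?_⟩
  have h1 := gen_pow T _ N j N₀ x h
  rw [← pow_mul, mul_comm N₀ N]
  convert h1 using 5
  simp only [← pow_mul]
  congr 1
  ring

theorem genTate_of_pow (T : M →ₗ[ℂ] M) (Q : ℂ) (c : ℕ) {N₀ : ℕ} (hN₀ : 0 < N₀) (x : M)
    (h : IsGenTate (T ^ N₀) (Q ^ N₀) c x) : IsGenTate T Q c x := by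
  obtain ⟨N, hN, j, h⟩ := h
  refine ⟨N₀ * N, Nat.mul_pos hN₀ hN, j, ?_⟩
  rw [← pow_mul] at h
  convert h using 5
  simp only [← pow_mul]
  congr 1
  ring

end powers

variable {V : Type} [AddCommGroup V] [Module ℂ V] {H : ℕ → Type} [∀ m, AddCommGroup (H m)]
  [∀ m, Module ℂ (H m)]

theorem total_pow (F : V →ₗ[ℂ] V) (G : ∀ m, H m →ₗ[ℂ] H m) (N m : ℕ) :
    total (F ^ N) (ext G N) m = total F G m ^ N := by
  refine LinearMap.ext fun t => ext_comp fun n => ?_
  rw [comp_pow, comp_total, map_pow_ext]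
  rfl

theorem tateHolds_pow {G : ∀ m, H m →ₗ[ℂ] H m} {Q : ℂ} {Z : ∀ m, Submodule ℂ (H m)}
    (h : TateHolds G Q Z) {N₀ : ℕ} (hN₀ : 0 < N₀) : TateHolds (ext G N₀) (Q ^ N₀) Z := by
  obtain ⟨h1, h2⟩ := h
  refine ⟨fun m j hm x hx => ?_, fun m j hm x hx => h2 m j hm x (genTate_of_pow _ _ _ hN₀ _ hx)⟩
  obtain ⟨N, hN, h3⟩ := h1 m j hm x hx
  refine ⟨N, hN, ?_⟩
  have h4 := pow_smul_iter (G m ^ N) x h3 N₀
  rw [ext, ← pow_mul, mul_comm, pow_mul, h4]
  congr 1
  simp only [← pow_mul]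
  congr 1
  ring

theorem divisor_of_pow {F : V →ₗ[ℂ] V} {Q : ℂ} {N₀ : ℕ} (hN₀ : 0 < N₀)
    {y : ExteriorAlgebra ℂ V} (h : IsDivisorClass (F ^ N₀) (Q ^ N₀) y) : IsDivisorClass F Q y := by
  obtain ⟨h1, N, hN, h2⟩ := h
  refine ⟨h1, N₀ * N, Nat.mul_pos hN₀ hN, ?_⟩
  rw [pow_mul, h2, pow_mul]

theorem productClasses_mono {F : V →ₗ[ℂ] V} {Q : ℂ} {N₀ : ℕ} (hN₀ : 0 < N₀) (n : ℕ) {K : Type}
    [AddCommGroup K] [Module ℂ K] (Z : Submodule ℂ K) :
    productClasses (F ^ N₀) (Q ^ N₀) n Z ≤ productClasses F Q n Z := by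
  refine Submodule.span_mono ?_
  rintro y ⟨k, D, x, hk, hD, hx, rfl⟩
  exact ⟨k, D, x, hk, fun l => divisor_of_pow hN₀ (hD l), hx, rfl⟩

theorem productClass_of_pow {F : V →ₗ[ℂ] V} {G : ∀ m, H m →ₗ[ℂ] H m} {Q : ℂ}
    {Z : ∀ m, Submodule ℂ (H m)} {N₀ : ℕ} (hN₀ : 0 < N₀) {i : ℕ} {t : Total V H (2 * i)}
    (h : IsProductClass (F ^ N₀) (ext G N₀) (Q ^ N₀) Z i t) : IsProductClass F G Q Z i t := by
  obtain ⟨⟨N, hN, h1⟩, h2⟩ := h
  refine ⟨⟨N₀ * N, Nat.mul_pos hN₀ hN, ?_⟩, fun n => productClasses_mono hN₀ _ _ (h2 n)⟩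
  rw [total_pow, ← pow_mul] at h1
  rw [h1]
  congr 1
  simp only [← pow_mul]
  congr 1
  ring

/-- The relations, over all extensions. -/
def Exact {X : Type*} (val : X → ℂ) (G : ∀ m, H m →ₗ[ℂ] H m) (Q : ℂ) : Prop :=
  ∀ k : ℕ, 0 < k → ∀ m μ, Module.End.HasEigenvalue (G m ^ k) μ →
    ExactPair (fun x => val x ^ k) (Q ^ k) μ

theorem span_pow' {X : Type*} {val : X → ℂ} (F : V →ₗ[ℂ] V)
    (hF : Submodule.span ℂ {v : V | ∃ x, F v = val x • v} = ⊤) (N : ℕ) :
    Submodule.span ℂ {v : V | ∃ x, (F ^ N) v = val x ^ N • v} = ⊤ := by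
  rw [eq_top_iff, ← hF]
  refine Submodule.span_mono ?_
  rintro v ⟨x, hv⟩
  exact ⟨x, pow_smul_iter F v hv N⟩

theorem semi_exact {X : Type*} [FiniteDimensional ℂ V] [∀ m, FiniteDimensional ℂ (H m)]
    {F : V →ₗ[ℂ] V} {val : X → ℂ}
    (hF : Submodule.span ℂ {v : V | ∃ x, F v = val x • v} = ⊤) {G : ∀ m, H m →ₗ[ℂ] H m}
    {Q : ℂ} (hQ : Q ≠ 0) (hex : Exact val G Q) {N : ℕ} (hN : 0 < N)
    (h : SemiTate (ext G N) (Q ^ N)) : SemiTate (total (F ^ N) (ext G N)) (Q ^ N) := by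
  intro i
  rw [semisimpleAt_total]
  rintro ⟨n, hn⟩
  have h3 := semisimpleAt_product (F ^ N) (fun x => val x ^ N) (span_pow' F hF N) (Q ^ N)
    (pow_ne_zero _ hQ) (G (2 * i - n) ^ N) (fun ρ hρ => hex N hN _ ρ hρ) n (i : ℤ) (by
      rintro k rfl
      have hk : k ≤ i := by omega
      have h4 := h (i - k)
      have h5 : ∀ m, m = 2 * (i - k) → SemisimpleAt (G m ^ N) ((Q ^ N) ^ (i - k)) := by
        rintro _ rfl
        exact h4
      have h6 : (Q ^ N) ^ ((i : ℤ) - k) = (Q ^ N) ^ (i - k) := by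
        rw [← Nat.cast_sub hk, zpow_natCast]
      rw [h6]
      exact h5 _ (by omega))
  rw [zpow_natCast] at h3
  exact h3

theorem tate_exact {X : Type*} [FiniteDimensional ℂ V] [∀ m, FiniteDimensional ℂ (H m)]
    {F : V →ₗ[ℂ] V} {val : X → ℂ}
    (hF : Submodule.span ℂ {v : V | ∃ x, F v = val x • v} = ⊤) {G : ∀ m, H m →ₗ[ℂ] H m}
    {Q : ℂ} (hQ : Q ≠ 0) (hex : Exact val G Q) (Z : ∀ m, Submodule ℂ (H m))
    (hZU : TateHolds G Q Z) (i : ℕ) (t : Total V H (2 * i))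
    (ht : IsGenTate (total F G (2 * i)) Q i t) : IsProductClass F G Q Z i t := by
  obtain ⟨hZ, hU⟩ := hZU
  obtain ⟨N, hN, j, hj⟩ := ht
  have hcomp : ∀ n : Fin (2 * i + 1),
      TensorProduct.map (exteriorPower.map (n : ℕ) F ^ N) (G (2 * i - n) ^ N)
        (comp (2 * i) n t) = (Q ^ i) ^ N • comp (2 * i) n t := by
    intro n
    have hss := semisimpleAt_product (F ^ N) (fun x => val x ^ N) (span_pow' F hF N) (Q ^ N)
      (pow_ne_zero _ hQ) (G (2 * i - n) ^ N) (fun ρ hρ => hex N hN _ ρ hρ) n (i : ℤ) (by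
        intro k hk
        have hki : k ≤ i := by have := n.2; omega
        have hm : 2 * i - (n : ℕ) = 2 * (i - k) := by omega
        rw [← Nat.cast_sub hki, zpow_natCast]
        intro x hx
        have h9 : (Q ^ N) ^ (i - k) = (Q ^ (i - k)) ^ N := by
          simp only [← pow_mul]
          congr 1
          ring
        rw [h9] at hx ⊢
        have hxZ : x ∈ Z (2 * i - n) := by
          refine hU _ (i - k) hm x ⟨N, hN, 2, ?_⟩
          rw [pow_two, Module.End.mul_apply, LinearMap.sub_apply, LinearMap.sub_apply,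
            LinearMap.smul_apply, LinearMap.smul_apply, Module.End.one_apply,
            Module.End.one_apply]
          rw [hx, sub_self]
        obtain ⟨N', hN', h10⟩ := hZ _ (i - k) hm x hxZ
        have h11 : ((G (2 * i - n) ^ N) ^ N') x = ((Q ^ (i - k)) ^ N) ^ N' • x := by
          have h12 := pow_smul_iter (G (2 * i - n) ^ N') x h10 N
          rw [← pow_mul, mul_comm N N', pow_mul, h12]
          congr 1
          simp only [← pow_mul]
          congr 1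
          ring
        exact eigen_of_pow (G (2 * i - n) ^ N) (pow_ne_zero _ (pow_ne_zero _ hQ)) x hx hN' h11)
    rw [zpow_natCast, show (Q ^ N) ^ i = (Q ^ i) ^ N by
      simp only [← pow_mul]
      congr 1
      ring, map_pow_ext, ← map_pow_tensor] at hss
    have h20 := eigen_component (M := Total V H (2 * i))
      (M' := (⋀[ℂ]^(n : ℕ) V) ⊗[ℂ] H (2 * i - n)) (total F G (2 * i))
      (TensorProduct.map (exteriorPower.map (n : ℕ) F) (G (2 * i - n)))
      (comp (2 * i) n) (fun t => comp_total _ _ _ t n) _ N j t hj hss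
    rw [map_pow_tensor] at h20
    exact h20
  refine ⟨⟨N, hN, ?_⟩, fun n => ?_⟩
  · refine ext_comp fun n => ?_
    rw [comp_pow, hcomp n, map_smul]
  · have h16 := mem_mixedProducts F val hF Q hQ (G (2 * i - n)) (fun ρ hρ => by
        have h1 := hex 1 one_pos (2 * i - n) ρ (by rwa [pow_one])
        simpa only [pow_one] using h1) n (i : ℤ) N hN (comp (2 * i) n t) (by
          rw [zpow_natCast]
          exact hcomp n)
    refine Submodule.span_mono ?_ h16
    rintro y ⟨k, D, x, hk, hD, ⟨M, hM, hx⟩, rfl⟩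
    refine ⟨k, D, x, hk, hD, ?_, rfl⟩
    have hki : k ≤ i := by have := n.2; omega
    refine hU _ (i - k) (by omega) x ⟨M, hM, 1, ?_⟩
    rw [← Nat.cast_sub hki, zpow_natCast] at hx
    rw [pow_one, LinearMap.sub_apply, LinearMap.smul_apply, Module.End.one_apply, hx, sub_self]

theorem transfers_of_exact {X : Type*} [FiniteDimensional ℂ V] [∀ m, FiniteDimensional ℂ (H m)]
    {F : V →ₗ[ℂ] V} {val : X → ℂ}
    (hF : Submodule.span ℂ {v : V | ∃ x, F v = val x • v} = ⊤) {G : ∀ m, H m →ₗ[ℂ] H m}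
    {Q : ℂ} (hQ : Q ≠ 0) {N₀ : ℕ} (hN₀ : 0 < N₀)
    (hex : Exact (fun x => val x ^ N₀) (ext G N₀) (Q ^ N₀)) : Transfers F G Q := by
  refine ⟨fun Z hZ i t ht => ?_, fun h N hN i => ?_, fun h N hN i => ?_⟩
  · refine productClass_of_pow hN₀ (tate_exact (span_pow' F hF N₀) (pow_ne_zero _ hQ) hex Z
      (tateHolds_pow hZ hN₀) i t ?_)
    rw [total_pow]
    exact genTate_pow _ _ _ _ _ ht
  · have h2 := (semisimpleAt_total (F ^ N) (ext G N) (2 * i) _).1 (h N hN i) ⟨0, by omega⟩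
    exact semisimpleAt_zero (F ^ N) (ext G N (2 * i)) _ h2
  · have h1 : ext (ext G N₀) N = ext (ext G N) N₀ := by
      funext m
      simp only [ext, ← pow_mul, mul_comm]
    have h2 := semi_exact (span_pow' F hF N₀) (pow_ne_zero _ hQ) hex hN (by
      have h3 := h (N₀ * N) (Nat.mul_pos hN₀ hN)
      have h4 : ext G (N₀ * N) = ext (ext G N₀) N := by
        funext m
        simp only [ext, ← pow_mul]
      rw [h4, pow_mul] at h3
      exact h3) i
    have h7 : (F ^ N₀) ^ N = (F ^ N) ^ N₀ := by rw [← pow_mul, ← pow_mul, mul_comm]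
    rw [h1, h7, total_pow] at h2
    intro x hx
    refine eigen_of_pow _ (pow_ne_zero _ (pow_ne_zero _ hQ)) x hx hN₀ ?_
    set T := total (F ^ N) (ext G N) (2 * i) with hT
    set μ := (Q ^ N) ^ i with hμ
    have h3 : ((T ^ 1 - μ • (1 : Total V H (2 * i) →ₗ[ℂ] Total V H (2 * i))) ^ 2) x = 0 := by
      rw [pow_one, pow_two, Module.End.mul_apply, LinearMap.sub_apply, LinearMap.sub_apply,
        LinearMap.smul_apply, LinearMap.smul_apply, Module.End.one_apply, Module.End.one_apply,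
        hx, sub_self]
    have h4 := gen_pow T μ 1 2 N₀ x h3
    rw [one_mul, pow_two, Module.End.mul_apply, LinearMap.sub_apply, LinearMap.sub_apply,
        LinearMap.smul_apply, LinearMap.smul_apply, Module.End.one_apply, Module.End.one_apply,
        sub_eq_zero] at h4
    have h5 : ((Q ^ N₀) ^ N) ^ i = μ ^ N₀ := by
      rw [hμ]
      simp only [← pow_mul]
      congr 1
      ring
    rw [h5] at h2
    exact h2 x h4

/-- There is an extension over which all coincidences are exact. -/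
theorem exists_common {A : Type*} [Finite A] (P : A → ℕ → Prop)
    (hP : ∀ a N k, P a N → 0 < k → P a (N * k)) :
    ∃ N₀ : ℕ, 0 < N₀ ∧ ∀ a, (∃ N : ℕ, 0 < N ∧ P a N) → P a N₀ := by
  classical
  have := Fintype.ofFinite A
  choose! f hf using fun (a : A) (h : ∃ N : ℕ, 0 < N ∧ P a N) => h
  let g : A → ℕ := fun a => if ∃ N : ℕ, 0 < N ∧ P a N then f a else 1
  have hg : ∀ a, 0 < g a := fun a => by
    by_cases h : ∃ N : ℕ, 0 < N ∧ P a N
    · simp only [g, if_pos h]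
      exact (hf a h).1
    · simp only [g, if_neg h]
      exact one_pos
  refine ⟨∏ a, g a, Finset.prod_pos fun a _ => hg a, fun a h => ?_⟩
  rw [← Finset.mul_prod_erase _ _ (Finset.mem_univ a)]
  refine hP a _ _ ?_ (Finset.prod_pos fun a _ => hg a)
  simp only [g, if_pos h]
  exact (hf a h).2

/-- The elements with property `P` on which `F` acts by a scalar with property `P` generate. -/
theorem exists_eigen {P : ℂ → Prop} {F : V →ₗ[ℂ] V}
    (hF : Submodule.span ℂ {v : V | ∃ z, P z ∧ F v = z • v} = ⊤) :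
    Submodule.span ℂ {v : V | ∃ x : {z : ℂ // P z ∧ Module.End.HasEigenvalue F z},
      F v = (x : ℂ) • v} = ⊤ := by
  rw [eq_top_iff, ← hF, Submodule.span_le]
  rintro v ⟨z, hz, hv⟩
  by_cases h0 : v = 0
  · rw [h0]
    exact Submodule.zero_mem _
  · exact Submodule.subset_span ⟨⟨z, hz, Module.End.hasEigenvalue_of_hasEigenvector
      ⟨Module.End.mem_eigenspace_iff.2 hv, h0⟩⟩, hv⟩

end Pool.Agent.L0h40.EU
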