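import Mathlib
import Pool.Agent.L0h40.EU.Lift

/-!
# Arbitrary varieties and abelian varieties in an independent family
-/

set_option autoImplicit false

namespace Pool.Agent.L0h40.EU

open Finsupp Module Pool.Agent.W484.AA Pool.Agent.TH44.SS

open scoped ComplexConjugate

theorem Diagonal.mono {P P' : ℂ → Prop} {V : Type} [AddCommGroup V] [Module ℂ V] {F : V →ₗ[ℂ] V}
    (h : Diagonal P F) (hP : ∀ z, P z → P' z) : Diagonal P' F := by
  unfold Diagonal at h ⊢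
  rw [eq_top_iff, ← h]
  refine Submodule.span_mono ?_
  rintro v ⟨z, hz, hv⟩
  exact ⟨z, hP z hz, hv⟩

theorem TransfersFor.mono {q s : ℕ} {P P' P₁ P₁' : ℂ → Prop} (h : TransfersFor q s P P')
    (h1 : ∀ z, P₁ z → P z) (h2 : ∀ z, P₁' z → P' z) : TransfersFor q s P₁ P₁' := by
  intro H _ _ _ G hG V _ _ _ F hF
  exact h H G (fun m μ hμ => h2 μ (hG m μ hμ)) V F (hF.mono fun z hz => hz.imp_left (h1 z))

theorem transfers_core {P : ℂ → Prop} {Q : ℂ} (hQ : Q ≠ 0) {H : ℕ → Type}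
    [∀ m, AddCommGroup (H m)] [∀ m, Module ℂ (H m)]
    [∀ m, FiniteDimensional ℂ (H m)] (G : ∀ m, H m →ₗ[ℂ] H m)
    {V : Type} [AddCommGroup V] [Module ℂ V] [FiniteDimensional ℂ V] (F : V →ₗ[ℂ] V)
    (hF : Diagonal P F)
    (h : ∀ (X : Type) (v : X → ℂ), (∀ x, P (v x)) → ∀ N₀ : ℕ, 0 < N₀ →
      (∀ x y, (∃ N : ℕ, 0 < N ∧ (v x * v y) ^ N = Q ^ N) → (v x * v y) ^ N₀ = Q ^ N₀) →
      ∀ m μ, Module.End.HasEigenvalue (G m) μ → ∀ k : ℕ, 0 < k →
        ExactPair (fun x => v x ^ (N₀ * k)) (Q ^ (N₀ * k)) (μ ^ (N₀ * k))) :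
    Transfers F G Q := by
  let X := {z : ℂ // P z ∧ Module.End.HasEigenvalue F z}
  have hXfin : Finite X := by
    refine Set.Finite.subset (s := {z | Module.End.HasEigenvalue F z}) ?_ fun z hz => hz.2
    exact Module.End.finite_hasEigenvalue F
  obtain ⟨N₀, hN₀, hN⟩ := exists_common (A := X × X)
    (fun x N => ((x.1 : ℂ) * x.2) ^ N = Q ^ N) (fun a N k h _ => by
      rw [pow_mul, h, ← pow_mul])
  refine transfers_of_exact (exists_eigen hF) hQ hN₀ ?_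
  intro k hk m μ hμ
  have h1 : μ ∈ spectrum ℂ (ext G N₀ m ^ k) := Module.End.hasEigenvalue_iff_mem_spectrum.1 hμ
  have h2 : ext G N₀ m ^ k = G m ^ (N₀ * k) := (pow_mul _ _ _).symm
  have hN₁ : 0 < N₀ * k := Nat.mul_pos hN₀ hk
  rw [h2, spectrum.map_pow_of_pos (G m) hN₁] at h1
  obtain ⟨μ₀, hμ₀, rfl⟩ := h1
  have h3 := h X (fun x : X => (x : ℂ)) (fun x => x.2.1) N₀ hN₀
    (fun x y => hN (x, y)) m μ₀ (Module.End.hasEigenvalue_iff_mem_spectrum.2 hμ₀) k hk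
  simp only [pow_mul] at h3 ⊢
  exact h3

section family

variable {q : ℕ} {I : Type} {J : I → Type} {d : I → ℕ} {π : ∀ i, J i → ℂ}

/-- General form: the indices with property `P₀` do not occur for `A`, and each class of an eigenvalue
for `B` which is not zero has a coefficient with property `P₀` which is not zero. -/
theorem transfers_gen (h : IsFamily q d π) (hq : q ≠ 0) {s : ℕ} (hs : 0 < s)
    (P₀ : (Σ i, J i) → Prop) {P P' : ℂ → Prop}
    (hP : ∀ z, P z → ∃ w, w ≠ 0 ∧ Cls q d π s z w ∧ ∀ y, P₀ y → w y = 0)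
    (hP' : ∀ μ, P' μ → μ ≠ 0 ∧ ∀ (a : ℚ) (f : (Σ i, J i) →₀ ℚ),
      lg μ = a • lg (q : ℂ) + linearCombination ℚ (EU.ang π) f → f ≠ 0 → ∃ x, P₀ x ∧ f x ≠ 0) :
    TransfersFor q s P P' := by
  intro H _ _ _ G hG V _ _ _ F hF
  have hqC : (q : ℂ) ≠ 0 := Nat.cast_ne_zero.2 hq
  refine transfers_core (pow_ne_zero s hqC) G F hF ?_
  intro X v hv N₀ hN₀ hv₀ m μ hμ k hk
  obtain ⟨hμ0, hμ1⟩ := hP' μ (hG m μ hμ)
  refine exactPair h hq hs v P₀ (fun x => ?_) hN₀ hv₀ hμ0 hμ1 ?_ hk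
  · rcases hv x with h1 | ⟨h1, -⟩
    · obtain ⟨w, -, hw, hw'⟩ := hP _ h1
      exact ⟨w, hw, hw'⟩
    · exact ⟨0, cls_super hq h1, fun y _ => rfl⟩
  · rintro ⟨x, hx⟩
    rcases hv x with h1 | ⟨-, h1⟩
    · exfalso
      obtain ⟨w, hw0, hw, -⟩ := hP _ h1
      exact hw0 ((h.ang hq).uniq ⟨_, hw.eq⟩ ⟨_, hx.eq⟩)
    · exact h1 m μ hμ

theorem single_cls_ne (h : IsFamily q d π) {s : ℕ} (hs : 0 < s) {i : I} {j : J i}
    {w : (Σ i, J i) →₀ ℚ}
    (hw : w = single ⟨i, j⟩ ((s : ℚ) / (2 * d i)) ∨ w = -single ⟨i, j⟩ ((s : ℚ) / (2 * d i))) :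
    w ≠ 0 := by
  have h2 : (s : ℚ) / (2 * d i) ≠ 0 := by
    have := h.pos i
    positivity
  rcases hw with rfl | rfl
  · exact fun h3 => h2 (Finsupp.single_eq_zero.1 h3)
  · exact fun h3 => h2 (Finsupp.single_eq_zero.1 (neg_eq_zero.1 h3))

theorem single_cls_apply {s : ℕ} {i : I} {j : J i}
    {w : (Σ i, J i) →₀ ℚ}
    (hw : w = single ⟨i, j⟩ ((s : ℚ) / (2 * d i)) ∨ w = -single ⟨i, j⟩ ((s : ℚ) / (2 * d i)))
    {y : Σ i, J i} (hy : y ≠ ⟨i, j⟩) : w y = 0 := by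
  rcases hw with rfl | rfl
  · rw [single_eq_of_ne hy]
  · rw [Finsupp.neg_apply, single_eq_of_ne hy, neg_zero]

/-- **Arbitrary varieties and independent families.** -/
theorem family_main (h : IsFamily q d π) (hq : q ≠ 0) {R : Finset ℂ} (hR : (0 : ℂ) ∉ R)
    (hc : ∀ ρ ∈ R, conj ρ ∈ R) :
    ∃ S : Finset I, 2 * S.card ≤ (angular q R).ncard ∧ ∀ s : ℕ, 0 < s →
      TransfersFor q s (fun z => ∃ i, i ∉ S ∧ ∃ j : J i, IsPower (d i) s (π i j) z)
        (InPowers R s) := by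
  classical
  have hA := h.ang hq
  obtain ⟨S, T', hT', hcard, hT, hS⟩ := hA.exists_hit (fun x : Σ i, J i => x.1) lg (fun z => conj z)
    R hc (fun z _ => Complex.conj_conj z) (fun z _ => (cj_lg z).symm)
  refine ⟨S, hcard.trans ?_, fun s hs => ?_⟩
  · have hsub : (T' : Set ℂ) ⊆ angular q R := by
      intro ρ hρ
      refine ⟨hT' hρ, fun N M hN hNM => ?_⟩
      obtain ⟨f, hf0, hf⟩ := hT ρ hρ
      apply hf0
      have hρ0 : ρ ≠ 0 := fun h0 => hR (h0 ▸ hT' hρ)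
      have h1 := congrArg lg hNM
      rw [lg_pow hρ0, lg_zpow (Nat.cast_ne_zero.2 hq)] at h1
      refine hA.uniq hf ⟨(N : ℚ)⁻¹ * M, ?_⟩
      rw [eq_of_smul (Nat.cast_ne_zero.2 hN.ne') h1, map_zero, add_zero, smul_smul]
    rw [← Set.ncard_coe_finset]
    exact Set.ncard_le_ncard hsub (R.finite_toSet.subset fun ρ hρ => hρ.1)
  · refine transfers_gen h hq hs (fun x => x.1 ∈ S) ?_ ?_
    · rintro z ⟨i, hi, j, hz⟩
      obtain ⟨w, hw, hw'⟩ := cls_power h hq hs hz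
      exact ⟨w, single_cls_ne h hs hw', hw, fun y hy =>
        single_cls_apply hw' fun h1 => hi (by rw [h1] at hy; exact hy)⟩
    · rintro μ ⟨ρ, hρ, N, hN, hμρ⟩
      have hρ0 : ρ ≠ 0 := fun h0 => hR (h0 ▸ hρ)
      have hμ0 : μ ≠ 0 := by
        rintro rfl
        rw [zero_pow hN.ne'] at hμρ
        exact pow_ne_zero _ hρ0 hμρ.symm
      have hsQ : (s : ℚ) ≠ 0 := Nat.cast_ne_zero.2 hs.ne'
      have hNQ : (N : ℚ) ≠ 0 := Nat.cast_ne_zero.2 hN.ne'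
      refine ⟨hμ0, fun a f hf hf0 => ?_⟩
      have h1 := congrArg lg hμρ
      rw [lg_pow hμ0, lg_pow hρ0, hf] at h1
      have h2 : lg ρ = (a / s) • lg (q : ℂ) + linearCombination ℚ (EU.ang π) ((s : ℚ)⁻¹ • f) := by
        rw [eq_of_smul (by positivity) h1.symm, map_smul, smul_smul, smul_add, smul_smul]
        congr 1
        · congr 1
          push_cast
          field_simp
        · congr 1
          push_cast
          field_simp
      obtain ⟨x, hx, hfx⟩ := hS ρ hρ _ ⟨_, h2⟩ (smul_ne_zero (inv_ne_zero hsQ) hf0)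
      refine ⟨x, hx, fun h3 => hfx ?_⟩
      rw [Finsupp.smul_apply, h3, smul_zero]

end family

end Pool.Agent.L0h40.EU
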