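import Mathlib
import Pool.Agent.L0h12.EC.Supp
import Pool.Agent.L0h40.EU.Ell

/-!
# Independence of the eigenvalues of Frobenius of ordinary elliptic curves with different
endomorphism algebras
-/

set_option autoImplicit false

namespace Pool.Agent.L0h40.EU

open Polynomial

open scoped ComplexConjugate

/-- the algebraic numbers -/
abbrev Qb : Type := algebraicClosure ℚ ℂ

instance : Algebra.IsAlgebraic ℚ Qb := algebraicClosure.isAlgebraic ℚ ℂ

instance : IsAlgClosure ℚ Qb := algebraicClosure.isAlgClosure ℚ ℂ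

instance : Normal ℚ Qb := IsAlgClosure.normal ℚ Qb

/-- complex conjugation as an algebra isomorphism -/
noncomputable def conjAlg : ℂ ≃ₐ[ℚ] ℂ := (Complex.conjAe).restrictScalars ℚ

/-- complex conjugation on the algebraic numbers -/
noncomputable def conjQ : Qb ≃ₐ[ℚ] Qb := algebraicClosure.algEquivOfAlgEquiv conjAlg

theorem conjQ_coe (x : Qb) : ((conjQ x : Qb) : ℂ) = conj (x : ℂ) := rfl

theorem mem_Qb {q s : ℕ} {a : ℤ} {z : ℂ} (h : Ord q s a z) : z ∈ algebraicClosure ℚ ℂ := by
  rw [mem_algebraicClosure_iff]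
  refine ⟨X ^ 2 - C (a : ℚ) * X + C ((q : ℚ) ^ s), ?_, ?_⟩
  · exact (IsMonicOfDegree.monic (isMonicOfDegree_sub_add_two (a : ℚ) ((q : ℚ) ^ s))).ne_zero
  · have h1 : z ^ 2 - a * z + (q : ℂ) ^ s = 0 := by
      rw [← h.add, ← h.mul]
      ring
    simpa using h1

/-- a number as an algebraic number -/
noncomputable def up {q s : ℕ} {a : ℤ} {z : ℂ} (h : Ord q s a z) : Qb := ⟨z, mem_Qb h⟩

theorem up_coe {q s : ℕ} {a : ℤ} {z : ℂ} (h : Ord q s a z) : ((up h : Qb) : ℂ) = z := rfl

theorem conjQ_up {q s : ℕ} {a : ℤ} {z : ℂ} (h : Ord q s a z) : conjQ (up h) = up h.conj' :=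
  Subtype.ext rfl

section one

variable {q s : ℕ} {a : ℤ} {z : ℂ} (h : Ord q s a z)

include h

theorem up_add : up h + up h.conj' = (a : Qb) := by
  apply Subtype.ext
  push_cast
  exact h.add

theorem up_mul : up h * up h.conj' = (q : Qb) ^ s := by
  apply Subtype.ext
  push_cast
  exact h.mul

theorem up_ne (hq : 1 < q) : up h ≠ 0 := fun h0 => h.ne hq (congrArg Subtype.val h0)

theorem up_act (τ : Qb ≃ₐ[ℚ] Qb) : (τ (up h) = up h ∧ τ (up h.conj') = up h.conj') ∨
    (τ (up h) = up h.conj' ∧ τ (up h.conj') = up h) := by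
  have h1 := congrArg τ (up_add h)
  have h2 := congrArg τ (up_mul h)
  rw [map_add, map_intCast] at h1
  rw [map_mul, map_pow, map_natCast] at h2
  have h3 : (τ (up h) - up h) * (τ (up h) - up h.conj') = 0 := by
    linear_combination τ (up h) * h1 - h2 - τ (up h) * up_add h + up_mul h
  rcases mul_eq_zero.1 h3 with h4 | h4
  · have h5 := sub_eq_zero.1 h4
    refine Or.inl ⟨h5, ?_⟩
    linear_combination h1 - h5 - up_add h
  · have h5 := sub_eq_zero.1 h4
    refine Or.inr ⟨h5, ?_⟩
    linear_combination h1 - h5 - up_add h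

theorem up_ne_conj (hq : 1 < q) : up h ≠ up h.conj' := by
  intro h0
  have h1 := h.free hq one_pos
  rw [pow_one, pow_one] at h1
  exact h1 (congrArg Subtype.val h0)

end one

/-- **The datum.** -/
noncomputable def dat {ι : Type*} {q : ℕ} (hq : 1 < q) (s : ι → ℕ) (a : ι → ℤ) (z : ι → ℂ)
    (h : ∀ i, Ord q (s i) (a i) (z i))
    (hsq : ∀ i j, i ≠ j → ¬ IsSquare ((a i ^ 2 - 4 * (q : ℤ) ^ s i) *
      (a j ^ 2 - 4 * (q : ℤ) ^ s j))) :
    Pool.Agent.L0h12.EC.Dat ι (Qb ≃ₐ[ℚ] Qb) (Additive Qbˣ) where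
  a τ := MonoidHom.toAdditive (Units.map (τ : Qb →* Qb))
  c := conjQ
  χ := 0
  θ i := Additive.ofMul (Units.mk0 (up (h i)) (up_ne _ hq) / Units.mk0 (up (h i).conj') (up_ne _ hq))
  ε i τ := by
    classical
    exact if τ (up (h i)) = up (h i) then 1 else -1
  act_χ τ := map_zero _
  act_θ τ i := by
    classical
    have h1 : ∀ x : Qbˣ, MonoidHom.toAdditive (Units.map (τ : Qb →* Qb)) (Additive.ofMul x) =
        Additive.ofMul (Units.map (τ : Qb →* Qb) x) := fun x => rfl
    rw [h1, _root_.map_div]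
    rcases up_act (h i) τ with ⟨h2, h3⟩ | ⟨h2, h3⟩
    · rw [if_pos h2, one_smul]
      congr 2
      · exact Units.ext h2
      · exact Units.ext h3
    · have h4 : τ (up (h i)) ≠ up (h i) := by
        rw [h2]
        exact (up_ne_conj (h i) hq).symm
      rw [if_neg h4, neg_smul, one_smul, ← ofMul_inv, inv_div]
      congr 2
      · exact Units.ext h2
      · exact Units.ext h3
  invol x := by
    apply Additive.toMul.injective
    apply Units.ext
    apply Subtype.ext
    show conj (conj (((x.toMul : Qbˣ) : Qb) : ℂ)) = _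
    exact Complex.conj_conj _
  sign i τ := by
    classical
    by_cases h1 : τ (up (h i)) = up (h i)
    · left
      exact if_pos h1
    · right
      exact if_neg h1
  neg i _ := by
    classical
    refine if_neg ?_
    rw [conjQ_up]
    exact (up_ne_conj (h i) hq).symm
  free i _ n hn := by
    by_contra hn0
    have h1 : (Units.mk0 (up (h i)) (up_ne _ hq) / Units.mk0 (up (h i).conj') (up_ne _ hq)) ^ n =
        1 := Additive.ofMul.injective (by rw [ofMul_zpow, hn, ofMul_one])
    have h2 : ∀ m : ℕ, 0 < m → (Units.mk0 (up (h i)) (up_ne _ hq) /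
        Units.mk0 (up (h i).conj') (up_ne _ hq)) ^ m ≠ 1 := by
      intro m hm h3
      rw [div_pow, div_eq_one] at h3
      have h4 := congrArg (fun x : Qbˣ => ((x : Qb) : ℂ)) h3
      apply (h i).free hq hm
      simpa [up_coe] using h4
    rcases Int.natAbs_eq n with h3 | h3
    · rw [h3, zpow_natCast] at h1
      exact h2 _ (Int.natAbs_pos.2 hn0) h1
    · rw [h3, zpow_neg, zpow_natCast, inv_eq_one] at h1
      exact h2 _ (Int.natAbs_pos.2 hn0) h1
  sep i j hij _ _ := by
    classical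
    set e : ℤ := (a i ^ 2 - 4 * (q : ℤ) ^ s i) * (a j ^ 2 - 4 * (q : ℤ) ^ s j) with he
    set u : Qb := (up (h i) - up (h i).conj') * (up (h j) - up (h j).conj') with hu
    have hu2 : u ^ 2 = ((e : ℚ) : Qb) := by
      apply Subtype.ext
      have e0 : (((e : ℚ) : Qb) : ℂ) = ((e : ℤ) : ℂ) := by push_cast; rfl
      rw [e0, he, Int.cast_mul, ← (h i).sq_disc, ← (h j).sq_disc, ← mul_pow]
      rfl
    have hirr : Irreducible (X ^ 2 - C (e : ℚ)) := by
      refine X_pow_sub_C_irreducible_of_prime Nat.prime_two fun b hb => ?_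
      apply hsq i j hij
      rw [← he, ← Rat.isSquare_intCast_iff, ← hb]
      exact ⟨b, by ring⟩
    have hmin : minpoly ℚ u = X ^ 2 - C (e : ℚ) := by
      refine (minpoly.eq_of_irreducible_of_monic hirr ?_ (monic_X_pow_sub_C _ two_ne_zero)).symm
      rw [map_sub, map_pow, aeval_X, aeval_C, hu2]
      exact sub_self _
    obtain ⟨τ, hτ⟩ := minpoly.exists_algEquiv_of_root' (K := ℚ) (L := Qb) (x := -u) (y := u)
      (Algebra.IsAlgebraic.isAlgebraic u) (by
        rw [hmin, map_sub, map_pow, aeval_X, aeval_C, neg_sq, hu2]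
        exact sub_self _)
    refine ⟨τ, ?_⟩
    have hu0 : u ≠ 0 := mul_ne_zero (sub_ne_zero.2 (up_ne_conj (h i) hq))
      (sub_ne_zero.2 (up_ne_conj (h j) hq))
    have hneg : -u ≠ u := by
      intro h0
      apply hu0
      have h1 : (2 : Qb) * u = 0 := by linear_combination -h0
      exact (mul_eq_zero.1 h1).resolve_left two_ne_zero
    rw [hu, map_mul, map_sub, map_sub] at hτ
    rcases up_act (h i) τ with ⟨h1, h1'⟩ | ⟨h1, h1'⟩ <;>
      rcases up_act (h j) τ with ⟨h2, h2'⟩ | ⟨h2, h2'⟩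
    · exfalso
      apply hneg
      rw [← hτ, h1, h1', h2, h2']
    · rw [if_pos h1, if_neg (by rw [h2]; exact (up_ne_conj (h j) hq).symm)]
      norm_num
    · rw [if_pos h2, if_neg (by rw [h1]; exact (up_ne_conj (h i) hq).symm)]
      norm_num
    · exfalso
      apply hneg
      rw [← hτ, h1, h1', h2, h2']
      ring

/-- **Independence.** -/
theorem indep_ell {ι : Type*} {q : ℕ} (hq : 1 < q) (s : ι → ℕ) (a : ι → ℤ) (z : ι → ℂ)
    (h : ∀ i, Ord q (s i) (a i) (z i))
    (hsq : ∀ i j, i ≠ j → ¬ IsSquare ((a i ^ 2 - 4 * (q : ℤ) ^ s i) *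
      (a j ^ 2 - 4 * (q : ℤ) ^ s j))) (f : ι →₀ ℤ)
    (hf : (f.prod fun x n => (z x / conj (z x)) ^ n) = 1) : f = 0 := by
  let D := dat hq s a z h hsq
  have hθ : ∀ i, D.θ i = Additive.ofMul
    (Units.mk0 (up (h i)) (up_ne _ hq) / Units.mk0 (up (h i).conj') (up_ne _ hq)) := fun i => rfl
  have hok : D.Ok f := by
    intro i _ h0
    rw [hθ] at h0
    have h1 := Additive.ofMul.injective (h0.trans ofMul_one.symm)
    rw [div_eq_one] at h1
    exact up_ne_conj (h i) hq (congrArg Units.val h1)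
  refine D.indep0 _ f rfl hok ?_
  show (f.sum fun i n => n • D.θ i) = 0
  have h1 : (f.prod fun i n => (Units.mk0 (up (h i)) (up_ne _ hq) /
      Units.mk0 (up (h i).conj') (up_ne _ hq)) ^ n) = 1 := by
    apply Units.ext
    apply Subtype.ext
    have h2 := map_prod ((algebraMap Qb ℂ : Qb →* ℂ).comp (Units.coeHom Qb))
      (fun i => (Units.mk0 (up (h i)) (up_ne _ hq) /
        Units.mk0 (up (h i).conj') (up_ne _ hq)) ^ (f i)) f.support
    refine h2.trans (Eq.trans ?_ hf)
    refine Finset.prod_congr rfl fun i _ => ?_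
    rw [map_zpow, _root_.map_div]
    rfl
  apply Additive.toMul.injective
  rw [toMul_zero, ← h1, Finsupp.prod, Finsupp.sum, toMul_sum]
  rfl

end Pool.Agent.L0h40.EU
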