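import Mathlib
import Pool.Agent.L0h40.EU.Log
import Pool.Agent.L0h40.EU.Def

/-!
# The group generated by finitely many numbers, up to roots
-/

set_option autoImplicit false

namespace Pool.Agent.L0h40.EU

open Finsupp TensorProduct

open scoped ComplexConjugate

/-- the action of an automorphism -/
noncomputable def act0 (τ : ℂ ≃+* ℂ) : Additive ℂˣ →+ Additive ℂˣ :=
  MonoidHom.toAdditive (Units.map (τ : ℂ →* ℂ))

/-- the action of an automorphism -/
noncomputable def act (τ : ℂ ≃+* ℂ) : 𝕎 →ₗ[ℚ] 𝕎 := ((act0 τ).toIntLinearMap).baseChange ℚ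

theorem act_lg (τ : ℂ ≃+* ℂ) (z : ℂ) : act τ (lg z) = lg (τ z) := by
  by_cases hz : z = 0
  · subst hz
    rw [map_zero]
    simp [lg]
  · have hz' : τ z ≠ 0 := by rwa [Ne, map_eq_zero_iff _ τ.injective]
    rw [lg_of_ne hz, lg_of_ne hz']
    have h1 : act τ (can (Additive.ofMul (Units.mk0 z hz))) =
        can (act0 τ (Additive.ofMul (Units.mk0 z hz))) :=
      LinearMap.baseChange_tmul (act0 τ).toIntLinearMap (1 : ℚ) (Additive.ofMul (Units.mk0 z hz))
    rw [h1]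
    congr 1
    show Additive.ofMul (Units.map (τ : ℂ →* ℂ) (Units.mk0 z hz)) = _
    congr 1
    ext
    rfl

/-- the space of the logarithms -/
noncomputable def hsp (q : ℕ) (R : Finset ℂ) : Submodule ℚ 𝕎 :=
  Submodule.span ℚ (insert (lg (q : ℂ)) (lg '' (R : Set ℂ)))

theorem q_mem (q : ℕ) (R : Finset ℂ) : lg (q : ℂ) ∈ hsp q R :=
  Submodule.subset_span (Set.mem_insert _ _)

theorem mem_hsp {q : ℕ} {R : Finset ℂ} {ρ : ℂ} (h : ρ ∈ R) : lg ρ ∈ hsp q R :=
  Submodule.subset_span (Set.mem_insert_of_mem _ ⟨ρ, h, rfl⟩)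

theorem lg_prod (R : Finset ℂ) (m : ℂ → ℤ) (h : ∀ ρ ∈ R, ρ ≠ 0) :
    (∏ ρ ∈ R, ρ ^ m ρ) ≠ 0 ∧ lg (∏ ρ ∈ R, ρ ^ m ρ) = ∑ ρ ∈ R, (m ρ : ℚ) • lg ρ := by
  classical
  induction R using Finset.induction_on with
  | empty => exact ⟨by simp, by simp [lg_one]⟩
  | insert a R ha ih =>
    obtain ⟨h1, h2⟩ := ih fun ρ hρ => h ρ (Finset.mem_insert_of_mem hρ)
    have h3 := h a (Finset.mem_insert_self a R)
    rw [Finset.prod_insert ha, Finset.sum_insert ha]
    refine ⟨mul_ne_zero (zpow_ne_zero _ h3) h1, ?_⟩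
    rw [lg_mul (zpow_ne_zero _ h3) h1, h2, lg_zpow h3]

section hull

variable {q : ℕ} {R : Finset ℂ} (hq : q ≠ 0) (hR : (0 : ℂ) ∉ R)

include hq hR

theorem Hull.ne {z : ℂ} (h : Hull q R z) : z ≠ 0 := by
  obtain ⟨N, M, m, hN, h⟩ := h
  rintro rfl
  rw [zero_pow hN.ne'] at h
  exact mul_ne_zero (zpow_ne_zero _ (Nat.cast_ne_zero.2 hq))
    (lg_prod R m fun ρ hρ h0 => hR (h0 ▸ hρ)).1 h.symm

theorem Hull.mem {z : ℂ} (h : Hull q R z) : lg z ∈ hsp q R := by
  have hz := h.ne hq hR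
  obtain ⟨N, M, m, hN, h⟩ := h
  have hqC : (q : ℂ) ≠ 0 := Nat.cast_ne_zero.2 hq
  obtain ⟨h1, h2⟩ := lg_prod R m fun ρ hρ h0 => hR (h0 ▸ hρ)
  have h3 := congrArg lg h
  rw [lg_pow hz, lg_mul (zpow_ne_zero _ hqC) h1, lg_zpow hqC, h2] at h3
  have h4 : lg z = (N : ℚ)⁻¹ • ((N : ℚ) • lg z) := by
    rw [smul_smul, inv_mul_cancel₀ (Nat.cast_ne_zero.2 hN.ne'), one_smul]
  rw [h4, h3]
  refine Submodule.smul_mem _ _ (Submodule.add_mem _ (Submodule.smul_mem _ _ (q_mem q R)) ?_)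
  exact Submodule.sum_mem _ fun ρ hρ => Submodule.smul_mem _ _ (mem_hsp hρ)

omit hR in
theorem int_form (hR : (0 : ℂ) ∉ R) {w : 𝕎} (hw : w ∈ hsp q R) :
    ∃ (N : ℕ) (M : ℤ) (m : ℂ → ℤ), 0 < N ∧
      (N : ℚ) • w = lg ((q : ℂ) ^ M * ∏ ρ ∈ R, ρ ^ m ρ) := by
  classical
  have hqC : (q : ℂ) ≠ 0 := Nat.cast_ne_zero.2 hq
  have hlg : ∀ (M : ℤ) (m : ℂ → ℤ), lg ((q : ℂ) ^ M * ∏ ρ ∈ R, ρ ^ m ρ) =
      (M : ℚ) • lg (q : ℂ) + ∑ ρ ∈ R, (m ρ : ℚ) • lg ρ := by
    intro M m
    obtain ⟨h1, h2⟩ := lg_prod R m fun ρ hρ h0 => hR (h0 ▸ hρ)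
    rw [lg_mul (zpow_ne_zero _ hqC) h1, lg_zpow hqC]
    congr 1
  refine Submodule.span_induction ?_ ?_ ?_ ?_ hw
  · rintro x (rfl | ⟨ρ, hρ, rfl⟩)
    · exact ⟨1, 1, 0, one_pos, by rw [hlg]; simp⟩
    · refine ⟨1, 0, Pi.single ρ 1, one_pos, ?_⟩
      rw [hlg, Finset.sum_eq_single ρ]
      · simp
      · intro b _ hb
        rw [Pi.single_eq_of_ne hb, Int.cast_zero, zero_smul]
      · intro h
        exact absurd hρ h
  · exact ⟨1, 0, 0, one_pos, by rw [hlg]; simp⟩
  · rintro x y - - ⟨N, M, m, hN, h1⟩ ⟨N', M', m', hN', h2⟩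
    refine ⟨N * N', N' * M + N * M', fun ρ => N' * m ρ + N * m' ρ, Nat.mul_pos hN hN', ?_⟩
    rw [hlg] at h1 h2 ⊢
    have e1 := congrArg (fun w => (N' : ℚ) • w) h1
    have e2 := congrArg (fun w => (N : ℚ) • w) h2
    beta_reduce at e1 e2
    rw [smul_smul, smul_add, smul_smul, Finset.smul_sum] at e1 e2
    have e3 : ((N * N' : ℕ) : ℚ) • (x + y) = ((N' : ℚ) * N) • x + ((N : ℚ) * N') • y := by
      push_cast
      module
    rw [e3, e1, e2]
    push_cast
    simp only [add_smul, Finset.sum_add_distrib, mul_smul]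
    abel
  · rintro a x - ⟨N, M, m, hN, h1⟩
    refine ⟨a.den * N, a.num * M, fun ρ => a.num * m ρ, Nat.mul_pos a.den_pos hN, ?_⟩
    rw [hlg] at h1 ⊢
    have e1 := congrArg (fun w => (a.num : ℚ) • w) h1
    beta_reduce at e1
    rw [smul_smul, smul_add, smul_smul, Finset.smul_sum] at e1
    have e3 : ((a.den * N : ℕ) : ℚ) • a • x = ((a.num : ℚ) * N) • x := by
      rw [smul_smul]
      congr 1
      push_cast
      have h2 := Rat.mul_den_eq_num a
      linear_combination (N : ℚ) * h2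
    rw [e3, e1]
    push_cast
    simp only [mul_smul]

theorem hull_iff {z : ℂ} (hz : z ≠ 0) : Hull q R z ↔ lg z ∈ hsp q R := by
  refine ⟨fun h => h.mem hq hR, fun h => ?_⟩
  obtain ⟨N, M, m, hN, h1⟩ := int_form hq hR h
  obtain ⟨h2, -⟩ := lg_prod R m fun ρ hρ h0 => hR (h0 ▸ hρ)
  have h3 : (q : ℂ) ^ M * ∏ ρ ∈ R, ρ ^ m ρ ≠ 0 :=
    mul_ne_zero (zpow_ne_zero _ (Nat.cast_ne_zero.2 hq)) h2
  rw [← lg_pow hz] at h1
  obtain ⟨N', hN', h4⟩ := (lg_eq (pow_ne_zero _ hz) h3).1 h1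
  refine ⟨N * N', N' * M, fun ρ => m ρ * N', Nat.mul_pos hN hN', ?_⟩
  rw [pow_mul, h4, mul_pow, ← Finset.prod_pow]
  congr 1
  · rw [← zpow_natCast, ← zpow_mul, mul_comm]
  · refine Finset.prod_congr rfl fun ρ _ => ?_
    rw [← zpow_natCast, ← zpow_mul]

theorem Hull.mul {z w : ℂ} (hz : Hull q R z) (hw : Hull q R w) : Hull q R (z * w) := by
  have h1 := hz.ne hq hR
  have h2 := hw.ne hq hR
  rw [hull_iff hq hR (mul_ne_zero h1 h2), lg_mul h1 h2]
  exact Submodule.add_mem _ (hz.mem hq hR) (hw.mem hq hR)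

theorem Hull.list (ys : List ℂ) (h : ∀ y ∈ ys, Hull q R y) : Hull q R ys.prod := by
  induction ys with
  | nil => exact ⟨1, 0, 0, one_pos, by simp⟩
  | cons y ys ih =>
    rw [List.prod_cons]
    exact (h y (by simp)).mul hq hR (ih fun y hy => h y (by simp [hy]))

omit hR hq in
theorem act_mem (hc : ∀ τ : ℂ ≃+* ℂ, ∀ ρ ∈ R, τ ρ ∈ R) (τ : ℂ ≃+* ℂ) {w : 𝕎}
    (hw : w ∈ hsp q R) : act τ w ∈ hsp q R := by
  have h1 : hsp q R ≤ (hsp q R).comap (act τ) := by
    refine Submodule.span_le.2 ?_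
    rintro x (rfl | ⟨ρ, hρ, rfl⟩)
    · rw [SetLike.mem_coe, Submodule.mem_comap, act_lg, map_natCast]
      exact q_mem q R
    · rw [SetLike.mem_coe, Submodule.mem_comap, act_lg]
      exact mem_hsp (hc τ ρ hρ)
  exact h1 hw

end hull

section isolate

variable {W : Type*} [AddCommGroup W] [Module ℚ W] {ι Γ : Type*}

/-- the action on the coefficients -/
noncomputable def twist (ε : ι → Γ → ℚ) (τ : Γ) (f : ι →₀ ℚ) : ι →₀ ℚ :=
  Finsupp.onFinset f.support (fun i => f i * ε i τ) fun i hi =>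
    Finsupp.mem_support_iff.2 fun h => hi (by rw [h, zero_mul])

theorem twist_apply (ε : ι → Γ → ℚ) (τ : Γ) (f : ι →₀ ℚ) (i : ι) :
    twist ε τ f i = f i * ε i τ := rfl

theorem lc_twist (A : Γ → W →ₗ[ℚ] W) (θ : ι → W) (ε : ι → Γ → ℚ)
    (hA : ∀ τ i, A τ (θ i) = ε i τ • θ i) (τ : Γ) (f : ι →₀ ℚ) :
    A τ (linearCombination ℚ θ f) = linearCombination ℚ θ (twist ε τ f) := by
  classical
  have h1 : linearCombination ℚ θ (twist ε τ f) = ∑ i ∈ f.support, (f i * ε i τ) • θ i := by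
    rw [linearCombination_apply, Finsupp.sum_of_support_subset (s := f.support)]
    · rfl
    · exact Finsupp.support_onFinset_subset
    · exact fun i _ => zero_smul ℚ _
  rw [h1, linearCombination_apply, Finsupp.sum, map_sum]
  refine Finset.sum_congr rfl fun i _ => ?_
  rw [map_smul, hA, smul_smul]

/-- Elements with different signs can be separated. -/
theorem isolate (A : Γ → W →ₗ[ℚ] W) (θ : ι → W) (ε : ι → Γ → ℚ)
    (hA : ∀ τ i, A τ (θ i) = ε i τ • θ i) (hε : ∀ i τ, ε i τ = 1 ∨ ε i τ = -1)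
    (sep : ∀ i j, i ≠ j → ∃ τ, ε i τ ≠ ε j τ) (T : Submodule ℚ W)
    (hT : ∀ τ, ∀ w ∈ T, A τ w ∈ T) (n : ℕ) : ∀ f : ι →₀ ℚ, f.support.card = n →
      linearCombination ℚ θ f ∈ T → ∀ i, f i ≠ 0 → θ i ∈ T := by
  classical
  induction n using Nat.strong_induction_on with
  | _ n ih =>
    intro f hn hf i hi
    have hsq : ∀ i τ, ε i τ * ε i τ = 1 := by
      intro i τ
      rcases hε i τ with h | h <;> rw [h] <;> norm_num
    by_cases hall : ∀ a ∈ f.support, a = i
    · have h1 : linearCombination ℚ θ f = f i • θ i := by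
        rw [linearCombination_apply, Finsupp.sum, Finset.sum_eq_single i]
        · intro a ha hab
          exact absurd (hall a ha) hab
        · intro h
          exact absurd (Finsupp.mem_support_iff.2 hi) h
      rw [h1] at hf
      have h2 := T.smul_mem (f i)⁻¹ hf
      rwa [smul_smul, inv_mul_cancel₀ hi, one_smul] at h2
    · push Not at hall
      obtain ⟨a, ha, hab⟩ := hall
      obtain ⟨τ, hτ⟩ := sep a i hab
      let g : ι →₀ ℚ := f - ε a τ • twist ε τ f
      have hg : ∀ i, g i = f i * (1 - ε a τ * ε i τ) := by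
        intro i
        simp only [g]
        rw [Finsupp.sub_apply, Finsupp.smul_apply, twist_apply, smul_eq_mul]
        ring
      have hga : g a = 0 := by
        rw [hg, hsq, sub_self, mul_zero]
      have hsub : g.support ⊆ f.support.erase a := by
        intro i hi
        rw [Finset.mem_erase, Finsupp.mem_support_iff]
        rw [Finsupp.mem_support_iff] at hi
        refine ⟨fun h => hi (by rw [h, hga]), fun h => hi (by rw [hg, h, zero_mul])⟩
      have hcard : g.support.card < n := by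
        have h1 := Finset.card_le_card hsub
        have h2 := Finset.card_erase_add_one ha
        omega
      refine ih _ hcard g rfl ?_ i ?_
      · simp only [g]
        rw [map_sub, map_smul, ← lc_twist A θ ε hA]
        exact T.sub_mem hf (T.smul_mem _ (hT τ _ hf))
      · rw [hg]
        refine mul_ne_zero hi fun h3 => hτ ?_
        rcases hε a τ with e1 | e1 <;> rcases hε i τ with e2 | e2 <;> rw [e1, e2] at h3 ⊢ <;>
          norm_num at h3

/-- **The number of the exceptional elements.** -/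
theorem card_exc {c : W →ₗ[ℚ] W} {χ : W} {θ : ι → W} (h : Ang c χ θ) {A : Type*} [DecidableEq A]
    (l : A → W) (σ : A → A) (R : Finset A) (hσ : ∀ x ∈ R, σ x ∈ R)
    (hσσ : ∀ x ∈ R, σ (σ x) = x) (hl : ∀ x ∈ R, l (σ x) = c (l x)) (E : Finset ι)
    (hE : ∀ i ∈ E, θ i ∈ Submodule.span ℚ (insert χ (l '' (R : Set A)))) :
    ∃ R' ⊆ R, 2 * E.card ≤ R'.card ∧ ∀ x ∈ R', c (l x) ≠ l x := by
  classical
  let R' := R.filter fun x => c (l x) ≠ l x
  have hmem : ∀ x, x ∈ R' ↔ x ∈ R ∧ c (l x) ≠ l x := fun x => Finset.mem_filter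
  have hcc : ∀ x ∈ R, c (c (l x)) = l x := fun x hx => by
    rw [← hl x hx, ← hl _ (hσ x hx), hσσ x hx]
  obtain ⟨R₀, hR₀, hRc, hRT⟩ := Pool.Agent.L0h12.EC.exists_half σ _ R' rfl
    (fun x hx => by
      obtain ⟨h1, h2⟩ := (hmem x).1 hx
      refine (hmem _).2 ⟨hσ x h1, ?_⟩
      rw [hl x h1, hcc x h1]
      exact h2.symm)
    (fun x hx => hσσ x ((hmem x).1 hx).1)
    (fun x hx he => by
      obtain ⟨h1, h2⟩ := (hmem x).1 hx
      apply h2
      rw [← hl x h1, he])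
  refine ⟨R', Finset.filter_subset _ _, ?_, fun x hx => ((hmem x).1 hx).2⟩
  let g : A → W := fun x => l x - c (l x)
  let N : Submodule ℚ W := Submodule.span ℚ ((R₀.image g : Finset W) : Set W)
  have hg : ∀ x ∈ R₀, g x ∈ N := fun x hx =>
    Submodule.subset_span (Finset.mem_coe.2 (Finset.mem_image_of_mem g hx))
  have hT : ∀ w ∈ Submodule.span ℚ (insert χ (l '' (R : Set A))), w - c w ∈ N := by
    intro w hw
    have h1 : Submodule.span ℚ (insert χ (l '' (R : Set A))) ≤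
        N.comap (LinearMap.id - c) := by
      refine Submodule.span_le.2 ?_
      rintro x (rfl | ⟨ρ, hρ, rfl⟩)
      · rw [SetLike.mem_coe, Submodule.mem_comap, LinearMap.sub_apply, LinearMap.id_apply, h.tate,
          sub_self]
        exact N.zero_mem
      · rw [SetLike.mem_coe, Submodule.mem_comap, LinearMap.sub_apply, LinearMap.id_apply]
        by_cases h2 : c (l ρ) = l ρ
        · rw [h2, sub_self]
          exact N.zero_mem
        · rcases hRT ρ ((hmem ρ).2 ⟨hρ, h2⟩) with h3 | h3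
          · exact hg ρ h3
          · have h4 := hg _ h3
            simp only [g] at h4
            rw [hl ρ hρ, hcc ρ hρ] at h4
            have h5 := N.neg_mem h4
            rwa [neg_sub] at h5
    exact h1 hw
  have hθN : ∀ i ∈ E, θ i ∈ N := by
    intro i hi
    have h1 := hT _ (hE i hi)
    rw [h.neg, sub_neg_eq_add, ← two_smul ℚ] at h1
    have h2 := N.smul_mem (2 : ℚ)⁻¹ h1
    rwa [smul_smul, inv_mul_cancel₀ two_ne_zero, one_smul] at h2
  have hfin : Module.Finite ℚ N := Module.Finite.span_finset ℚ _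
  have hli : LinearIndependent ℚ fun i : E => (⟨θ i, hθN i i.2⟩ : N) := by
    refine LinearIndependent.of_comp N.subtype ?_
    exact h.indep.comp _ Subtype.val_injective
  have h1 := hli.fintype_card_le_finrank
  have h2 : Module.finrank ℚ N ≤ (R₀.image g).card := finrank_span_finset_le_card _
  have h3 := Finset.card_image_le (s := R₀) (f := g)
  rw [Fintype.card_coe] at h1
  omega

end isolate

end Pool.Agent.L0h40.EU
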