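import Mathlib
import Pool.Agent.L0h40.EU.Fam
import Pool.Agent.L0h40.EU.Gal
import Pool.Agent.L0h40.EU.Hull
import Pool.Agent.H977R3.CM.Aut

/-!
# Arbitrary varieties and elliptic curves
-/

set_option autoImplicit false

namespace Pool.Agent.L0h40.EU

open Finsupp Module Pool.Agent.W484.AA Pool.Agent.TH44.SS TensorProduct

open scoped ComplexConjugate

section classes

/-- the ordinary eigenvalues of all levels -/
def Pts (q : ℕ) : Type := {x : ℕ × ℤ × ℂ // Ord q x.1 x.2.1 x.2.2}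

/-- the discriminant -/
def Pts.disc {q : ℕ} (x : Pts q) : ℤ := x.1.2.1 ^ 2 - 4 * (q : ℤ) ^ x.1.1

theorem isSquare_of_mul_sq {x y : ℤ} (hy : y ≠ 0) (h : IsSquare (x * y ^ 2)) : IsSquare x := by
  obtain ⟨r, hr⟩ := h
  have h1 : y ^ 2 ∣ r ^ 2 := ⟨x, by rw [pow_two r, ← hr]; ring⟩
  obtain ⟨t, rfl⟩ := (Int.pow_dvd_pow_iff two_ne_zero).1 h1
  refine ⟨t, ?_⟩
  have h2 : y ^ 2 * x = y ^ 2 * (t * t) := by linear_combination hr
  exact mul_left_cancel₀ (pow_ne_zero 2 hy) h2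

theorem disc_trans {q : ℕ} (hq : 1 < q) {x y z : Pts q} (h1 : IsSquare (x.disc * y.disc))
    (h2 : IsSquare (y.disc * z.disc)) : IsSquare (x.disc * z.disc) := by
  refine isSquare_of_mul_sq (x := x.disc * z.disc) (y := y.disc) (y.2.disc_neg hq).ne ?_
  obtain ⟨r, hr⟩ := h1
  obtain ⟨t, ht⟩ := h2
  exact ⟨r * t, by linear_combination (y.disc * z.disc) * hr + r * r * ht⟩

/-- The same endomorphism algebra. -/
def ptSetoid {q : ℕ} (hq : 1 < q) : Setoid (Pts q) where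
  r x y := IsSquare (x.disc * y.disc)
  iseqv :=
    { refl := fun x => ⟨x.disc, rfl⟩
      symm := fun {x y} h => by rwa [mul_comm]
      trans := fun h1 h2 => disc_trans hq h1 h2 }

/-- Representatives. -/
theorem exists_reps {q : ℕ} (hq : 1 < q) : ∃ (I : Type) (x : I → Pts q),
    (∀ i j, i ≠ j → ¬ IsSquare ((x i).disc * (x j).disc)) ∧
    ∀ y : Pts q, ∃ i, IsSquare ((x i).disc * y.disc) := by
  let st := ptSetoid hq
  refine ⟨Quotient st, fun i => Quotient.out i, ?_, fun y => ⟨Quotient.mk st y, ?_⟩⟩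
  · intro i j hij hsq
    apply hij
    have h1 : Quotient.mk st (Quotient.out i) = Quotient.mk st (Quotient.out j) :=
      Quotient.sound hsq
    rw [← Quotient.out_eq i, ← Quotient.out_eq j]
    exact h1
  · exact Quotient.exact (Quotient.out_eq (Quotient.mk st y))

variable {q : ℕ} {I : Type} {x : I → Pts q}

theorem ell_family (hq : 1 < q) (hx : ∀ i j, i ≠ j → ¬ IsSquare ((x i).disc * (x j).disc)) :
    IsFamily q (J := fun _ : I => Unit) (fun i => (x i).1.1) (fun i _ => (x i).1.2.2) := by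
  refine ⟨fun i => (x i).2.pos, fun i _ => (x i).2.mul, fun f hf => ?_⟩
  refine indep_ell hq (fun y : Σ _ : I, Unit => (x y.1).1.1) (fun y => (x y.1).1.2.1)
    (fun y => (x y.1).1.2.2) (fun y => (x y.1).2) ?_ f hf
  rintro ⟨i, ⟨⟩⟩ ⟨j, ⟨⟩⟩ hij hsq
  refine hx i j (fun h => hij ?_) hsq
  rw [h]

theorem ell_power (hq : IsPrimePow q) {x y : Pts q} (h : IsSquare (x.disc * y.disc)) :
    IsPower x.1.1 y.1.1 x.1.2.2 y.1.2.2 := by
  obtain ⟨t, u, h1, h2⟩ := y.2.pow x.2.pos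
  obtain ⟨t', u', h1', h2'⟩ := x.2.pow y.2.pos
  rw [mul_comm x.1.1 y.1.1] at h1' h2'
  have hsq : IsSquare ((t ^ 2 - 4 * (q : ℤ) ^ (y.1.1 * x.1.1)) *
      (t' ^ 2 - 4 * (q : ℤ) ^ (y.1.1 * x.1.1))) := by
    obtain ⟨r, hr⟩ := h
    refine ⟨r * u * u', ?_⟩
    rw [h2, h2']
    have hr' : ((x.1.2.1) ^ 2 - 4 * (q : ℤ) ^ x.1.1) *
      (y.1.2.1 ^ 2 - 4 * (q : ℤ) ^ y.1.1) = r * r := hr
    linear_combination (u ^ 2 * u' ^ 2) * hr'
  refine ⟨12, by norm_num, ?_⟩
  rcases pow_eq_of_square hq h1 h1' hsq with h3 | h3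
  · left
    rw [pow_mul, pow_mul]
    exact h3
  · right
    rw [pow_mul, pow_mul, h3, map_pow]

/-- an ordinary eigenvalue as a point -/
def toPt {s : ℕ} (hs : 0 < s) {a : ℤ} {z : ℂ} (h : IsOrdinary q s a z) : Pts q :=
  ⟨(s, a, z), ord_of_root hs h.1 h.2.1 h.2.2⟩

end classes

/-- **Arbitrary varieties and elliptic curves, with few exceptions.** -/
theorem ell_main {q : ℕ} (hq : IsPrimePow q) {R : Finset ℂ} (hR : (0 : ℂ) ∉ R)
    (hc : ∀ ρ ∈ R, conj ρ ∈ R) :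
    ∃ D : Finset ℤ, (∀ δ ∈ D, δ < 0) ∧ 2 * D.card ≤ (angular q R).ncard ∧ ∀ s : ℕ, 0 < s →
      TransfersFor q s (fun z => ∃ a : ℤ, IsOrdinary q s a z ∧
        ∀ δ ∈ D, ¬ IsSquare (δ * (a ^ 2 - 4 * (q : ℤ) ^ s))) (InPowers R s) := by
  classical
  have hq1 := hq.one_lt
  obtain ⟨I, x, hx, hy⟩ := exists_reps hq1
  obtain ⟨S, hS, hT⟩ := family_main (ell_family hq1 hx) (by omega) hR hc
  refine ⟨S.image fun i => (x i).disc, ?_, ?_, fun s hs => (hT s hs).mono ?_ fun μ h => h⟩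
  · intro δ hδ
    obtain ⟨i, -, rfl⟩ := Finset.mem_image.1 hδ
    exact (x i).2.disc_neg hq1
  · have h1 := Finset.card_image_le (s := S) (f := fun i => (x i).disc)
    omega
  · rintro z ⟨a, hz, hD⟩
    obtain ⟨i, hi⟩ := hy (toPt hs hz)
    exact ⟨i, fun hiS => hD _ (Finset.mem_image_of_mem _ hiS) hi, (), ell_power hq hi⟩

section galois

variable {q : ℕ} {I : Type} {x : I → Pts q}

/-- the angles of the representatives -/
noncomputable def th (x : I → Pts q) (y : Σ _ : I, Unit) : 𝕎 :=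
  ang (fun i (_ : Unit) => (x i).1.2.2) y

theorem act_cases (y : Pts q) (τ : ℂ ≃+* ℂ) :
    (τ y.1.2.2 = y.1.2.2 ∧ τ (conj y.1.2.2) = conj y.1.2.2) ∨
    (τ y.1.2.2 = conj y.1.2.2 ∧ τ (conj y.1.2.2) = y.1.2.2) := by
  have h1 := congrArg τ y.2.add
  have h2 := congrArg τ y.2.mul
  rw [map_add, map_intCast] at h1
  rw [map_mul, map_pow, map_natCast] at h2
  have h3 : (τ y.1.2.2 - y.1.2.2) * (τ y.1.2.2 - conj y.1.2.2) = 0 := by
    linear_combination τ y.1.2.2 * h1 - h2 - τ y.1.2.2 * y.2.add + y.2.mul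
  rcases mul_eq_zero.1 h3 with h4 | h4
  · have h5 := sub_eq_zero.1 h4
    refine Or.inl ⟨h5, ?_⟩
    linear_combination h1 - h5 - y.2.add
  · have h5 := sub_eq_zero.1 h4
    refine Or.inr ⟨h5, ?_⟩
    linear_combination h1 - h5 - y.2.add

open Classical in
/-- the sign -/
noncomputable def sgn (x : I → Pts q) (y : Σ _ : I, Unit) (τ : ℂ ≃+* ℂ) : ℚ :=
  if τ (x y.1).1.2.2 = (x y.1).1.2.2 then 1 else -1

theorem conj_ne_self (hq : 1 < q) (y : Pts q) : conj y.1.2.2 ≠ y.1.2.2 := by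
  have h1 := y.2.free hq one_pos
  rw [pow_one, pow_one] at h1
  exact h1.symm

theorem act_th (hq : 1 < q) (τ : ℂ ≃+* ℂ) (y : Σ _ : I, Unit) :
    act τ (th x y) = sgn x y τ • th x y := by
  unfold th ang
  rw [act_lg, map_div₀]
  have h0 := (x y.1).2.ne hq
  have h0' := (x y.1).2.conj'.ne hq
  rcases act_cases (x y.1) τ with ⟨h1, h2⟩ | ⟨h1, h2⟩
  · rw [h1, h2, sgn, if_pos h1, one_smul]
  · rw [h1, h2, sgn, if_neg (by rw [h1]; exact conj_ne_self hq _), neg_smul, one_smul,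
      lg_div h0' h0, lg_div h0 h0', neg_sub]

theorem sgn_cases (x : I → Pts q) (y : Σ _ : I, Unit) (τ : ℂ ≃+* ℂ) :
    sgn x y τ = 1 ∨ sgn x y τ = -1 := by
  unfold sgn
  split_ifs
  · exact Or.inl rfl
  · exact Or.inr rfl

theorem sgn_sep (hq : 1 < q) (hx : ∀ i j, i ≠ j → ¬ IsSquare ((x i).disc * (x j).disc))
    (y z : Σ _ : I, Unit) (hyz : y ≠ z) : ∃ τ, sgn x y τ ≠ sgn x z τ := by
  classical
  have hsq : ∀ i j : (Σ _ : I, Unit), i ≠ j →
      ¬ IsSquare ((((x i.1).1.2.1) ^ 2 - 4 * (q : ℤ) ^ (x i.1).1.1) *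
        ((x j.1).1.2.1 ^ 2 - 4 * (q : ℤ) ^ (x j.1).1.1)) := by
    rintro ⟨i, ⟨⟩⟩ ⟨j, ⟨⟩⟩ hij hsq
    refine hx i j (fun h => hij ?_) hsq
    rw [h]
  let D := dat hq (fun y : Σ _ : I, Unit => (x y.1).1.1) (fun y => (x y.1).1.2.1)
    (fun y => (x y.1).1.2.2) (fun y => (x y.1).2) hsq
  have hθ : ∀ y : Σ _ : I, Unit, D.θ y ≠ 0 := by
    intro y h0
    have h1 := Additive.ofMul.injective (h0.trans ofMul_one.symm)
    rw [div_eq_one] at h1
    exact up_ne_conj (x y.1).2 hq (congrArg Units.val h1)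
  obtain ⟨τ, hτ⟩ := D.sep y z hyz (hθ y) (hθ z)
  obtain ⟨σ, hσ⟩ := Pool.Agent.H977R3.CM.exists_aut (algebraMap Qb ℂ) (τ : Qb ≃+* Qb)
  refine ⟨σ, fun h => hτ ?_⟩
  have key : ∀ y : Σ _ : I, Unit, σ (x y.1).1.2.2 = (x y.1).1.2.2 ↔
      τ (up (x y.1).2) = up (x y.1).2 := by
    intro y
    have h1 := hσ (up (x y.1).2)
    constructor
    · intro h2
      apply Subtype.ext
      have h3 : (algebraMap Qb ℂ) (τ (up (x y.1).2)) = (x y.1).1.2.2 := h1.symm.trans h2
      exact h3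
    · intro h2
      refine h1.trans ?_
      exact congrArg Subtype.val h2
  have h1 : ∀ y : Σ _ : I, Unit, D.ε y τ = if τ (up (x y.1).2) = up (x y.1).2 then 1 else -1 := by
    intro y
    rfl
  rw [h1, h1]
  unfold sgn at h
  by_cases h2 : τ (up (x y.1).2) = up (x y.1).2 <;> by_cases h3 : τ (up (x z.1).2) = up (x z.1).2
  · rw [if_pos h2, if_pos h3]
  · rw [if_pos ((key y).2 h2), if_neg (fun h4 => h3 ((key z).1 h4))] at h
    norm_num at h
  · rw [if_neg (fun h4 => h2 ((key y).1 h4)), if_pos ((key z).2 h3)] at h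
    norm_num at h
  · rw [if_neg h2, if_neg h3]

end galois

theorem mem_of_smul_add {W : Type*} [AddCommGroup W] [Module ℚ W] (T : Submodule ℚ W) {χ u : W}
    (hχ : χ ∈ T) {a b : ℚ} (hb : b ≠ 0) : a • χ + b • u ∈ T ↔ u ∈ T := by
  constructor
  · intro h
    have h1 := T.sub_mem h (T.smul_mem a hχ)
    rw [add_sub_cancel_left] at h1
    have h2 := T.smul_mem b⁻¹ h1
    rwa [smul_smul, inv_mul_cancel₀ hb, one_smul] at h2
  · intro h
    exact T.add_mem (T.smul_mem a hχ) (T.smul_mem b h)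

/-- **Arbitrary varieties and elliptic curves: the exceptional curves.** -/
theorem ell_hull {q : ℕ} (hq : IsPrimePow q) {R : Finset ℂ} (hR : (0 : ℂ) ∉ R)
    (hc : ∀ τ : ℂ ≃+* ℂ, ∀ ρ ∈ R, τ ρ ∈ R) :
    (∃ D : Finset ℤ, 2 * D.card ≤ (angular q R).ncard ∧
      (∀ δ ∈ D, δ < 0 ∧ ∃ w ∈ Subfield.closure (R : Set ℂ), w ^ 2 = (δ : ℂ)) ∧
      ∀ s : ℕ, 0 < s → ∀ (a : ℤ) (z : ℂ), IsOrdinary q s a z →
        (Hull q R z ↔ ∃ δ ∈ D, IsSquare (δ * (a ^ 2 - 4 * (q : ℤ) ^ s)))) ∧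
    ∀ s : ℕ, 0 < s →
      TransfersFor q s (fun z => ∃ a : ℤ, IsOrdinary q s a z ∧ ¬ Hull q R z) (Hull q R) := by
  classical
  have hq1 := hq.one_lt
  have hq0 : q ≠ 0 := by omega
  obtain ⟨I, x, hx, hy⟩ := exists_reps hq1
  have hfam := ell_family hq1 hx
  have hA := hfam.ang hq0
  have hcc : ∀ ρ ∈ R, conj ρ ∈ R := fun ρ hρ => hc starRingAut ρ hρ
  -- the class of an ordinary eigenvalue
  have hcls : ∀ (s : ℕ) (hs : 0 < s) (a : ℤ) (z : ℂ) (hz : IsOrdinary q s a z) (i : I),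
      IsSquare ((x i).disc * (toPt hs hz).disc) →
        ∃ w : (Σ _ : I, Unit) →₀ ℚ, w ≠ 0 ∧
          Cls q (J := fun _ : I => Unit) (fun i => (x i).1.1) (fun i _ => (x i).1.2.2) s z w ∧
          (∀ y, y ≠ ⟨i, ()⟩ → w y = 0) ∧ (lg z ∈ hsp q R ↔ th x ⟨i, ()⟩ ∈ hsp q R) := by
    intro s hs a z hz i hi
    have hpow : IsPower (x i).1.1 s (x i).1.2.2 z := ell_power hq hi
    obtain ⟨w, hw, hw'⟩ := cls_power hfam hq0 hs (i := i) (j := ()) hpow
    refine ⟨w, single_cls_ne hfam hs hw', hw,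
      fun y hy => single_cls_apply (d := fun i => (x i).1.1) (s := s) hw' hy, ?_⟩
    have hne : (s : ℚ) / (2 * (x i).1.1) ≠ 0 := by
      have := (x i).2.pos
      positivity
    rw [hw.eq]
    rcases hw' with h1 | h1
    · rw [h1, linearCombination_single]
      exact mem_of_smul_add _ (q_mem q R) hne
    · rw [h1, map_neg, linearCombination_single, ← neg_smul]
      exact mem_of_smul_add _ (q_mem q R) (neg_ne_zero.2 hne)
  have hz0 : ∀ (s : ℕ) (_ : 0 < s) (a : ℤ) (z : ℂ), IsOrdinary q s a z → z ≠ 0 :=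
    fun s hs a z hz => (toPt hs hz).2.ne hq1
  refine ⟨?_, fun s hs => ?_⟩
  · -- the exceptional classes
    let Exc : Set I := {i | th x ⟨i, ()⟩ ∈ hsp q R}
    have hbound : ∀ E : Finset I, (∀ i ∈ E, i ∈ Exc) → 2 * E.card ≤ (angular q R).ncard := by
      intro E hE
      obtain ⟨R', hR', h1, h2⟩ := card_exc hA lg (fun z => conj z) R hcc
        (fun z _ => Complex.conj_conj z) (fun z _ => (cj_lg z).symm)
        (E.map ⟨fun i => (⟨i, ()⟩ : Σ _ : I, Unit), fun i j h => by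
          simpa using h⟩) (by
          intro i hi
          obtain ⟨j, hj, rfl⟩ := Finset.mem_map.1 hi
          exact hE j hj)
      rw [Finset.card_map] at h1
      refine h1.trans ?_
      rw [← Set.ncard_coe_finset]
      refine Set.ncard_le_ncard ?_ (R.finite_toSet.subset fun ρ hρ => hρ.1)
      intro ρ hρ
      refine ⟨hR' hρ, fun N M hN hNM => ?_⟩
      apply h2 ρ hρ
      have hρ0 : ρ ≠ 0 := fun h0 => hR (h0 ▸ hR' hρ)
      have h3 := congrArg lg hNM
      rw [lg_pow hρ0, lg_zpow (Nat.cast_ne_zero.2 hq0)] at h3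
      rw [eq_of_smul (Nat.cast_ne_zero.2 hN.ne') h3, map_smul, map_smul, hA.tate]
    have hfin : Exc.Finite := by
      by_contra hinf
      obtain ⟨E, hE, hEc⟩ := Set.Infinite.exists_subset_card_eq hinf ((angular q R).ncard + 1)
      have h1 := hbound E fun i hi => hE hi
      omega
    let S : Finset I := hfin.toFinset
    have hS : ∀ i, i ∈ S ↔ th x ⟨i, ()⟩ ∈ hsp q R := fun i => hfin.mem_toFinset
    refine ⟨S.image fun i => (x i).disc, ?_, ?_, ?_⟩
    · have h1 := Finset.card_image_le (s := S) (f := fun i => (x i).disc)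
      have h2 := hbound S fun i hi => (hS i).1 hi
      omega
    · intro δ hδ
      obtain ⟨i, hi, rfl⟩ := Finset.mem_image.1 hδ
      refine ⟨(x i).2.disc_neg hq1, ?_⟩
      -- the square root
      have hπ : Hull q R (x i).1.2.2 := by
        rw [hull_iff hq0 hR ((x i).2.ne hq1), (hfam.lg_pi hq0 i ()).1]
        exact (mem_of_smul_add _ (q_mem q R) (by norm_num)).2 ((hS i).1 hi)
      obtain ⟨N, M, m, hN, hNM⟩ := hπ
      obtain ⟨t, u, h1, h2⟩ := (x i).2.pow hN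
      have hu : (u : ℂ) ≠ 0 := by
        intro h3
        have h4 : u = 0 := by exact_mod_cast h3
        have h5 := h1.disc_neg hq1
        rw [h4] at h2
        simp at h2
        omega
      have hmem : (x i).1.2.2 ^ N ∈ Subfield.closure (R : Set ℂ) := by
        rw [hNM]
        refine mul_mem (zpow_mem (natCast_mem _ q) M) (prod_mem fun ρ hρ => zpow_mem ?_ _)
        exact Subfield.subset_closure hρ
      refine ⟨(2 * (x i).1.2.2 ^ N - t) / u, ?_, ?_⟩
      · exact div_mem (sub_mem (mul_mem (ofNat_mem _ 2) hmem) (intCast_mem _ t)) (intCast_mem _ u)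
      · have h3 : 2 * (x i).1.2.2 ^ N - t = (x i).1.2.2 ^ N - conj ((x i).1.2.2 ^ N) := by
          rw [← h1.add]
          ring
        rw [div_pow, h3, h1.sq_disc, h2]
        unfold Pts.disc
        push_cast
        field_simp
    · intro s hs a z hz
      rw [hull_iff hq0 hR (hz0 s hs a z hz)]
      constructor
      · intro h1
        obtain ⟨i, hi⟩ := hy (toPt hs hz)
        obtain ⟨w, -, -, -, h2⟩ := hcls s hs a z hz i hi
        exact ⟨_, Finset.mem_image_of_mem _ ((hS i).2 (h2.1 h1)), hi⟩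
      · rintro ⟨δ, hδ, hsq⟩
        obtain ⟨i, hi, rfl⟩ := Finset.mem_image.1 hδ
        obtain ⟨w, -, -, -, h2⟩ := hcls s hs a z hz i hsq
        exact h2.2 ((hS i).1 hi)
  · refine transfers_gen hfam hq0 hs (fun y => th x y ∈ hsp q R) ?_ ?_
    · rintro z ⟨a, hz, hnot⟩
      obtain ⟨i, hi⟩ := hy (toPt hs hz)
      obtain ⟨w, hw0, hw, hw', h2⟩ := hcls s hs a z hz i hi
      refine ⟨w, hw0, hw, fun y hy => hw' y ?_⟩
      rintro rfl
      exact hnot ((hull_iff hq0 hR (hz0 s hs a z hz)).2 (h2.2 hy))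
    · intro μ hμ
      refine ⟨hμ.ne hq0 hR, fun b f hf hf0 => ?_⟩
      obtain ⟨y, hy⟩ := Finsupp.support_nonempty_iff.2 hf0
      have hy' := Finsupp.mem_support_iff.1 hy
      refine ⟨y, ?_, hy'⟩
      refine isolate act (th x) (sgn x) (fun τ i => act_th hq1 τ i) (sgn_cases x)
        (sgn_sep hq1 hx) (hsp q R) (fun τ w hw => act_mem hc τ hw) _ f rfl ?_ y hy'
      have h1 := hμ.mem hq0 hR
      rw [hf] at h1
      have h2 := Submodule.sub_mem _ h1 (Submodule.smul_mem _ b (q_mem q R))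
      rw [add_sub_cancel_left] at h2
      exact h2

/-- The eigenvalues for `A × U`. -/
theorem eigen_total {q : ℕ} (hq : q ≠ 0) {R : Finset ℂ} (hR : (0 : ℂ) ∉ R)
    {V : Type} [AddCommGroup V] [Module ℂ V] [FiniteDimensional ℂ V] {F : V →ₗ[ℂ] V}
    (hF : Diagonal (Hull q R) F) {H : ℕ → Type} [∀ m, AddCommGroup (H m)]
    [∀ m, Module ℂ (H m)] {G : ∀ m, H m →ₗ[ℂ] H m} (hG : EigenIn (Hull q R) G) :
    EigenIn (Hull q R) (total F G) := by
  classical
  intro m μ hμ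
  obtain ⟨t, ht, ht0⟩ := hμ.exists_hasEigenvector
  rw [Module.End.mem_eigenspace_iff] at ht
  obtain ⟨n, hn⟩ : ∃ n, comp m n t ≠ 0 := by
    by_contra hcon
    push Not at hcon
    exact ht0 (ext_comp fun n => by rw [hcon, map_zero])
  have h1 : TensorProduct.map (exteriorPower.map (n : ℕ) F) (G (m - n)) (comp m n t) =
      μ • comp m n t := by
    rw [← comp_total, ht, map_smul]
  have hF' : Submodule.span ℂ {v : V | ∃ y : {z : ℂ // Hull q R z}, F v = (y : ℂ) • v} = ⊤ := by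
    rw [eq_top_iff, ← hF]
    refine Submodule.span_mono ?_
    rintro v ⟨z, hz, hv⟩
    exact ⟨⟨z, hz⟩, hv⟩
  obtain ⟨r, b', α, hα, hb'⟩ := Pool.Agent.W484.BB.exists_eigenbasis_list F
    (fun y : {z : ℂ // Hull q R z} => (y : ℂ)) hF' n
  obtain ⟨e, he⟩ := exists_components (exteriorPower.map (n : ℕ) F) (G (m - n)) b' α hb'
  obtain ⟨j, hj⟩ : ∃ j, e (comp m n t) j ≠ 0 := by
    by_contra hcon
    push Not at hcon
    apply hn
    apply e.injective
    rw [map_zero]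
    exact Finsupp.ext hcon
  have h2 := congrArg (fun u => e u j) h1
  beta_reduce at h2
  rw [he, map_smul, Finsupp.smul_apply] at h2
  obtain ⟨L, -, hL⟩ := hα j
  have hαj : Hull q R (α j) := by
    rw [hL]
    refine Hull.list hq hR _ ?_
    intro y hy
    obtain ⟨y', -, rfl⟩ := List.mem_map.1 hy
    exact y'.2
  have hα0 := hαj.ne hq hR
  have h3 : G (m - n) (e (comp m n t) j) = (μ / α j) • e (comp m n t) j := by
    have h4 := congrArg (fun u => (α j)⁻¹ • u) h2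
    beta_reduce at h4
    rw [smul_smul, inv_mul_cancel₀ hα0, one_smul, smul_smul] at h4
    rw [h4, div_eq_inv_mul]
  have h4 : Hull q R (μ / α j) := hG _ _ (Module.End.hasEigenvalue_of_hasEigenvector
    ⟨Module.End.mem_eigenspace_iff.2 h3, hj⟩)
  have h5 := hαj.mul hq hR h4
  rwa [mul_div_cancel₀ _ hα0] at h5

end Pool.Agent.L0h40.EU
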