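import Mathlib
import Pool.Agent.L0h40.EU.Lift

/-!
# Models of products of eigenvectors
-/

set_option autoImplicit false

namespace Pool.Agent.L0h40.EU

open TensorProduct Module ExteriorAlgebra

variable {V₀ : Type} [AddCommGroup V₀] [Module ℂ V₀] [FiniteDimensional ℂ V₀]

/-- A basis of eigenvectors, indexed by the eigenvalues. -/
theorem exists_basis {F₀ : V₀ →ₗ[ℂ] V₀} (hF₀ : Diagonal (fun _ => True) F₀) :
    ∃ B : Basis (Σ lam : ℂ, Fin (finrank ℂ (Module.End.eigenspace F₀ lam))) ℂ V₀,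
      ∀ x, F₀ (B x) = x.1 • B x := by
  classical
  have hind : iSupIndep (Module.End.eigenspace F₀) := Module.End.eigenspaces_iSupIndep F₀
  have hsup : ⨆ lam, Module.End.eigenspace F₀ lam = ⊤ := by
    rw [eq_top_iff, ← hF₀]
    refine Submodule.span_le.2 ?_
    rintro v ⟨z, -, hv⟩
    exact Submodule.mem_iSup_of_mem z (Module.End.mem_eigenspace_iff.2 hv)
  have hint : DirectSum.IsInternal (Module.End.eigenspace F₀) :=
    (DirectSum.isInternal_submodule_iff_iSupIndep_and_iSup_eq_top _).2 ⟨hind, hsup⟩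
  let b : ∀ lam : ℂ, Basis (Fin (finrank ℂ (Module.End.eigenspace F₀ lam))) ℂ
      (Module.End.eigenspace F₀ lam) := fun lam => Module.finBasis ℂ _
  refine ⟨hint.collectedBasis b, fun x => ?_⟩
  exact Module.End.mem_eigenspace_iff.1 (hint.collectedBasis_mem b x)

/-- The model: eigenvectors `v i` of `F` are the images of linearly independent eigenvectors of
`F₀` under a linear map compatible with `F₀` and `F`. -/
theorem exists_phi {F₀ : V₀ →ₗ[ℂ] V₀} (hF₀ : Diagonal (fun _ => True) F₀)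
    {V : Type} [AddCommGroup V] [Module ℂ V] (F : V →ₗ[ℂ] V) {r : ℕ} (v : Fin r → V)
    (lam : Fin r → ℂ) (hv : ∀ i, F (v i) = lam i • v i)
    (hm : ∀ c : ℂ, Fintype.card {i // lam i = c} ≤
      finrank ℂ (Module.End.eigenspace F₀ c)) :
    ∃ (e : Fin r → V₀) (d : Fin r → (V₀ →ₗ[ℂ] ℂ)) (φ : V₀ →ₗ[ℂ] V),
      (∀ i j, d j (e i) = if i = j then 1 else 0) ∧ (∀ i, F₀ (e i) = lam i • e i) ∧
      (∀ x, φ (F₀ x) = F (φ x)) ∧ ∀ i, φ (e i) = v i := by
  classical
  obtain ⟨B, hB⟩ := exists_basis hF₀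
  have hemb : ∀ c : ℂ, Nonempty ({i // lam i = c} ↪ Fin (finrank ℂ (Module.End.eigenspace F₀ c))) :=
    fun c => Function.Embedding.nonempty_of_card_le (by
      rw [Fintype.card_fin]
      exact hm c)
  let emb : ∀ c : ℂ, {i // lam i = c} ↪ Fin (finrank ℂ (Module.End.eigenspace F₀ c)) :=
    fun c => (hemb c).some
  let g : Fin r → Σ c : ℂ, Fin (finrank ℂ (Module.End.eigenspace F₀ c)) :=
    fun i => ⟨lam i, emb (lam i) ⟨i, rfl⟩⟩
  have hg : Function.Injective g := by
    intro i j hij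
    have h1 : lam i = lam j := congrArg Sigma.fst hij
    have h2 : ∀ (c : ℂ) (hi : lam i = c) (hj : lam j = c),
        (⟨c, emb c ⟨i, hi⟩⟩ : Σ c : ℂ, Fin (finrank ℂ (Module.End.eigenspace F₀ c))) =
          ⟨c, emb c ⟨j, hj⟩⟩ → i = j := by
      intro c hi hj h
      have h3 := eq_of_heq (Sigma.mk.inj h).2
      exact congrArg Subtype.val ((emb c).injective h3)
    refine h2 (lam i) rfl h1.symm ?_
    refine hij.trans ?_
    have h4 : ∀ (c : ℂ) (hj : lam j = c), g j = ⟨c, emb c ⟨j, hj⟩⟩ := by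
      rintro c rfl
      rfl
    exact h4 _ _
  let φ : V₀ →ₗ[ℂ] V := B.constr ℂ (Function.extend g v 0)
  refine ⟨fun i => B (g i), fun i => B.coord (g i), φ, ?_, ?_, ?_, ?_⟩
  · intro i j
    rw [Basis.coord_apply, Basis.repr_self, Finsupp.single_apply]
    by_cases h : i = j
    · rw [if_pos h, if_pos (congrArg g h)]
    · rw [if_neg h, if_neg fun h' => h (hg h')]
  · exact fun i => hB (g i)
  · intro x
    have h1 : φ ∘ₗ F₀ = F ∘ₗ φ := by
      refine B.ext fun y => ?_
      rw [LinearMap.comp_apply, LinearMap.comp_apply, hB, map_smul, Basis.constr_basis]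
      by_cases h : ∃ i, g i = y
      · obtain ⟨i, rfl⟩ := h
        rw [hg.extend_apply, hv]
      · rw [Function.extend_apply' _ _ _ h, Pi.zero_apply, map_zero, smul_zero]
    exact LinearMap.congr_fun h1 x
  · intro i
    show B.constr ℂ (Function.extend g v 0) (B (g i)) = v i
    rw [Basis.constr_basis, hg.extend_apply]

/-- **The model of a product of eigenvectors.** -/
theorem exists_model {F₀ : V₀ →ₗ[ℂ] V₀} (hF₀ : Diagonal (fun _ => True) F₀)
    {V : Type} [AddCommGroup V] [Module ℂ V] (F : V →ₗ[ℂ] V) {X : Type*} (val : X → ℂ)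
    (L : List (V × X)) (hL : ∀ e ∈ L, F e.1 = val e.2 • e.1)
    (hm : ∀ c : ℂ, (L.map fun e => val e.2).count c ≤ finrank ℂ (Module.End.eigenspace F₀ c)) :
    ∃ (a : ⋀[ℂ]^L.length V₀) (φ : V₀ →ₗ[ℂ] V), a ≠ 0 ∧
      exteriorPower.map L.length F₀ a = (L.map fun e => val e.2).prod • a ∧
      (∀ x, φ (F₀ x) = F (φ x)) ∧
      ExteriorAlgebra.map φ (a : ExteriorAlgebra ℂ V₀) = (L.map fun e => ι ℂ e.1).prod := by
  classical
  have hcard : ∀ c : ℂ, Fintype.card {i : Fin L.length // val (L.get i).2 = c} =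
      (L.map fun e => val e.2).count c := by
    intro c
    have h1 : (L.map fun e => val e.2) = List.ofFn fun i : Fin L.length => val (L.get i).2 := by
      conv_lhs => rw [← List.ofFn_get L, List.map_ofFn]
      rfl
    rw [h1, Fintype.card_subtype, ← Multiset.coe_count, ← Fin.univ_val_map, Multiset.count_map,
      Finset.card]
    rw [Finset.filter_val]
    simp only [eq_comm]
  obtain ⟨e, d, φ, h1, h2, h3, h4⟩ := exists_phi hF₀ F (fun i : Fin L.length => (L.get i).1)
    (fun i => val (L.get i).2) (fun i => hL _ (List.get_mem L i)) (fun c => by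
      rw [hcard]
      exact hm c)
  refine ⟨exteriorPower.ιMulti ℂ L.length e, φ, ?_, ?_, h3, ?_⟩
  · intro h0
    have h5 := ExteriorAlgebra.liftAlternating_apply_ιMulti (R := ℂ) (M := V₀) (N := ℂ)
      (n := L.length)
      (Pi.single L.length (Matrix.detRowAlternating.compLinearMap (LinearMap.pi d))) e
    rw [← exteriorPower.ιMulti_apply_coe, h0, ZeroMemClass.coe_zero, map_zero,
      Pi.single_eq_same] at h5
    have h6 : Matrix.detRowAlternating.compLinearMap (LinearMap.pi d) e =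
        Matrix.det (Matrix.of fun i j => d j (e i)) := rfl
    have h7 : (Matrix.of fun i j => d j (e i)) = (1 : Matrix (Fin L.length) (Fin L.length) ℂ) := by
      ext i j
      rw [Matrix.of_apply, h1, Matrix.one_apply]
    rw [h6, h7, Matrix.det_one] at h5
    exact zero_ne_one h5
  · rw [exteriorPower.map_apply_ιMulti]
    have h5 : (F₀ ∘ e) = fun i => val (L.get i).2 • e i := funext h2
    rw [h5, AlternatingMap.map_smul_univ]
    congr 1
    conv_rhs => rw [← List.ofFn_get L, List.map_ofFn, List.prod_ofFn]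
    rfl
  · rw [exteriorPower.ιMulti_apply_coe, ExteriorAlgebra.map_apply_ιMulti,
      ExteriorAlgebra.ιMulti_apply]
    have h5 : (fun i => ι ℂ ((φ ∘ e) i)) = fun i => ι ℂ (L.get i).1 :=
      funext fun i => by rw [Function.comp_apply, h4]
    rw [h5]
    conv_rhs => rw [← List.ofFn_get L, List.map_ofFn]
    rfl

/-- Pure tensors of nonzero vectors. -/
theorem tmul_zero_right {U K : Type} [AddCommGroup U] [Module ℂ U] [AddCommGroup K] [Module ℂ K]
    {a : U} (ha : a ≠ 0) {z : K} (h : a ⊗ₜ[ℂ] z = 0) : z = 0 := by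
  obtain ⟨f, hf⟩ : ∃ f : Module.Dual ℂ U, f a ≠ 0 := by
    by_contra hcon
    push Not at hcon
    exact ha ((Module.forall_dual_apply_eq_zero_iff ℂ a).1 hcon)
  have h1 := congrArg ((TensorProduct.lid ℂ K).toLinearMap ∘ₗ LinearMap.rTensor K f) h
  rw [map_zero, LinearMap.comp_apply, LinearMap.rTensor_tmul, LinearEquiv.coe_coe,
    TensorProduct.lid_tmul] at h1
  exact (smul_eq_zero.1 h1).resolve_left hf

end Pool.Agent.L0h40.EU
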