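import Mathlib
import Pool.Agent.L0h40.EU.Model
import Pool.Agent.L0h40.EU.Def2

/-!
# Pull-backs from one test variety: linear algebra
-/

set_option autoImplicit false

namespace Pool.Agent.L0h40.EU

open Polynomial Module Pool.Agent.H925R2 Pool.Agent.H485R3 Pool.Agent.W484.BB Pool.Agent.W521.Frob
  Pool.Agent.W521.Criterion Pool.Agent.W521.Descent Pool.Agent.W521.Count Pool.Agent.W521.Bad
  Pool.Agent.W521.Density ExteriorAlgebra Pool.Agent.H204R3.CM
  Pool.Agent.H868R3.TwoOdd Pool.Agent.H194R3.Weil TensorProduct Pool.Agent.W484.AS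
  Pool.Agent.W484.AA Pool.Agent.TH44.SS

variable {V₀ : Type} [AddCommGroup V₀] [Module ℂ V₀] [FiniteDimensional ℂ V₀]
  {V : Type} [AddCommGroup V] [Module ℂ V] {K : Type} [AddCommGroup K] [Module ℂ K]

/-- The multiplicities of the values in a reduced list which occurs in a relation are bounded by
the dimensions of the eigenspaces. -/
def Model {X : Type} (val : X → ℂ) (Q ρ : ℂ) (F₀ : V₀ →ₗ[ℂ] V₀) : Prop :=
  ∀ (c : ℤ) (s : ℕ), 0 < s → ∀ ys : List X, ((ys.map val).prod * ρ) ^ s = (Q ^ c) ^ s →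
    ys.Pairwise (fun y y' => val y * val y' ≠ Q) →
      ∀ lam : ℂ, (ys.map val).count lam ≤ finrank ℂ (Module.End.eigenspace F₀ lam)

omit [FiniteDimensional ℂ V₀] in
theorem mul_pulled (F₀ : V₀ →ₗ[ℂ] V₀) (F : V →ₗ[ℂ] V) (Q : ℂ)
    (Z : ∀ j : ℕ, Submodule ℂ ((⋀[ℂ]^j V₀) ⊗[ℂ] K)) (n : ℕ) (D : ExteriorAlgebra ℂ V)
    (hD : IsDivisorClass F Q D) (w : ExteriorAlgebra ℂ V) (h : K)
    (hw : w ⊗ₜ[ℂ] h ∈ pulled F₀ F Q Z n) : (D * w) ⊗ₜ[ℂ] h ∈ pulled F₀ F Q Z (n + 2) := by
  have h1 : pulled F₀ F Q Z n ≤ (pulled F₀ F Q Z (n + 2)).comap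
      (TensorProduct.map (LinearMap.mulLeft ℂ D) LinearMap.id) := by
    refine Submodule.span_le.2 ?_
    rintro _ ⟨k, j, E, φ, x, hn, hE, hφ, hx, rfl⟩
    refine Submodule.subset_span ⟨k + 1, j, Fin.cons D E, φ, x, by omega, ?_, hφ, hx, ?_⟩
    · intro l
      refine Fin.cases ?_ (fun l => ?_) l
      · exact hD
      · exact hE l
    · rw [← LinearMap.comp_apply, ← TensorProduct.map_comp, List.ofFn_cons, List.prod_cons,
        LinearMap.id_comp, ← LinearMap.comp_assoc]
      congr 2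
      rw [LinearMap.mulLeft_mul]
  have h2 := h1 hw
  rw [Submodule.mem_comap, TensorProduct.map_tmul, LinearMap.mulLeft_apply,
    LinearMap.id_apply] at h2
  exact h2

theorem map_pow_tmul {U : Type} [AddCommGroup U] [Module ℂ U] (T : U →ₗ[ℂ] U) (G : K →ₗ[ℂ] K)
    (s : ℕ) (a : U) (h : K) {α β : ℂ} (ha : T a = α • a) (hh : (G ^ s) h = β • h) :
    (TensorProduct.map T G ^ s) (a ⊗ₜ h) = (α ^ s * β) • (a ⊗ₜ[ℂ] h) := by
  have h1 : TensorProduct.map T G ^ s = TensorProduct.map (T ^ s) (G ^ s) := by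
    clear hh
    induction s with
    | zero =>
      rw [pow_zero, pow_zero, pow_zero]
      exact (TensorProduct.map_one).symm
    | succ s ih =>
      rw [pow_succ, ih, pow_succ, pow_succ]
      exact (TensorProduct.map_mul _ _ _ _).symm
  rw [h1, TensorProduct.map_tmul, pow_smul_iter T a ha, hh, TensorProduct.smul_tmul_smul]

theorem genTate_of_eigen {M : Type*} [AddCommGroup M] [Module ℂ M] {T : M →ₗ[ℂ] M} {Q : ℂ} {c : ℕ}
    {x : M} {N : ℕ} (hN : 0 < N) (h : (T ^ N) x = (Q ^ c) ^ N • x) : IsGenTate T Q c x :=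
  ⟨N, hN, 1, by
    rw [pow_one, LinearMap.sub_apply, LinearMap.smul_apply, Module.End.one_apply, h, sub_self]⟩

/-- **The products of eigenvectors.** -/
theorem list_pulled {X : Type} {F₀ : V₀ →ₗ[ℂ] V₀} (hF₀ : Diagonal (fun _ => True) F₀)
    (F : V →ₗ[ℂ] V) (val : X → ℂ) {Q ρ : ℂ} (hQ : Q ≠ 0) (G : K →ₗ[ℂ] K)
    (hmod : Model val Q ρ F₀) (m : ℕ) (Z : ∀ j : ℕ, Submodule ℂ ((⋀[ℂ]^j V₀) ⊗[ℂ] K))
    (hZ : ∀ j i : ℕ, j + m = 2 * i → ∀ x,
      IsGenTate (TensorProduct.map (exteriorPower.map j F₀) G) Q i x → x ∈ Z j)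
    (s : ℕ) (hs : 0 < s) (h : K) (hh : (G ^ s) h = ρ ^ s • h) :
    ∀ (n i : ℕ), n + m = 2 * i → ∀ L : List (V × X), L.length = n →
      (∀ e ∈ L, F e.1 = val e.2 • e.1) →
      ((L.map (fun e => val e.2)).prod * ρ) ^ s = (Q ^ i) ^ s →
      (L.map (fun e => ι ℂ e.1)).prod ⊗ₜ[ℂ] h ∈ pulled F₀ F Q Z n := by
  classical
  intro n
  induction n using Nat.strong_induction_on with
  | _ n ih =>
    intro i hi L hlen hL hrel
    by_cases hp : (L.map Prod.snd).Pairwise fun y y' => val y * val y' ≠ Q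
    · have h0 := hmod i s hs (L.map Prod.snd) (by
        rw [List.map_map, zpow_natCast]
        exact hrel) hp
      have h1 : (L.map Prod.snd).map val = L.map fun e => val e.2 := by
        rw [List.map_map]
        rfl
      rw [h1] at h0
      obtain ⟨a, φ, ha0, ha, hφ, hmap⟩ := exists_model hF₀ F val L hL h0
      subst hlen
      refine Submodule.subset_span ⟨0, L.length, Fin.elim0, φ, a ⊗ₜ h, by omega,
        fun l => l.elim0, ⟨1, one_pos, fun v => by rw [pow_one, pow_one]; exact hφ v⟩, ?_, ?_⟩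
      · refine hZ L.length i hi _ (genTate_of_eigen hs ?_)
        rw [map_pow_tmul _ G s a h ha hh, ← mul_pow, hrel]
      · rw [incl, TensorProduct.map_tmul, TensorProduct.map_tmul, LinearMap.id_apply,
          LinearMap.id_apply, LinearMap.comp_apply, AlgHom.toLinearMap_apply]
        have h2 : ExteriorAlgebra.map φ ((⋀[ℂ]^L.length V₀).subtype a) =
            (L.map fun e => ι ℂ e.1).prod := hmap
        rw [h2, List.ofFn_zero, List.prod_nil, LinearMap.mulLeft_apply, one_mul]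
    · rw [List.pairwise_map] at hp
      obtain ⟨e, e', L', hperm, hgood⟩ := exists_of_not_pairwise _ L hp
      rw [not_not] at hgood
      have heL : e ∈ L := hperm.mem_iff.2 (by simp)
      have heL' : e' ∈ L := hperm.mem_iff.2 (by simp)
      have hlen' : n = L'.length + 2 := by
        have h2 := hperm.length_eq
        rw [List.length_cons, List.length_cons, hlen] at h2
        omega
      obtain ⟨b', hb'⟩ := prod_perm (K := ℂ) hperm
      have h3 : (L.map (fun e => val e.2)).prod = Q * (L'.map (fun e => val e.2)).prod := by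
        rw [(hperm.map (fun e => val e.2)).prod_eq, List.map_cons, List.prod_cons,
          List.map_cons, List.prod_cons, ← mul_assoc, hgood]
      obtain ⟨i', rfl⟩ : ∃ i', i = i' + 1 := ⟨i - 1, by omega⟩
      have h5 := ih L'.length (by omega) i' (by omega) L' rfl
        (fun e₁ he₁ => hL e₁ (hperm.mem_iff.2
          (List.mem_cons_of_mem _ (List.mem_cons_of_mem _ he₁)))) (by
        rw [h3, mul_assoc, mul_pow, pow_succ', mul_pow Q] at hrel
        exact mul_left_cancel₀ (pow_ne_zero _ hQ) hrel)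
      rw [hb', ← TensorProduct.smul_tmul', hlen']
      refine Submodule.smul_mem _ _ ?_
      rw [List.map_cons, List.prod_cons, List.map_cons, List.prod_cons, ← mul_assoc]
      exact mul_pulled F₀ F Q Z _ _ (isDivisorClass_of_good F _ _ _ _ _ (hL e heL) (hL e' heL')
        ⟨1, one_pos, by rw [pow_one, pow_one]; exact hgood⟩) _ h h5

/-- **Tate classes.** -/
theorem mem_pulled {X : Type} [FiniteDimensional ℂ V] [FiniteDimensional ℂ K]
    {F₀ : V₀ →ₗ[ℂ] V₀} (hF₀ : Diagonal (fun _ => True) F₀)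
    (F : V →ₗ[ℂ] V) (val : X → ℂ) (hF : Submodule.span ℂ {v : V | ∃ x, F v = val x • v} = ⊤)
    {Q : ℂ} (hQ : Q ≠ 0) (G : K →ₗ[ℂ] K)
    (hG : ∀ ρ, Module.End.HasEigenvalue G ρ → Model val Q ρ F₀)
    (m : ℕ) (Z : ∀ j : ℕ, Submodule ℂ ((⋀[ℂ]^j V₀) ⊗[ℂ] K))
    (hZ : ∀ j i : ℕ, j + m = 2 * i → ∀ x,
      IsGenTate (TensorProduct.map (exteriorPower.map j F₀) G) Q i x → x ∈ Z j)
    (n i : ℕ) (hni : n + m = 2 * i) (s : ℕ) (hs : 0 < s) (u : (⋀[ℂ]^n V) ⊗[ℂ] K)
    (hu : TensorProduct.map (exteriorPower.map n F ^ s) (G ^ s) u = (Q ^ i) ^ s • u) :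
    incl V K n u ∈ pulled F₀ F Q Z n := by
  classical
  obtain ⟨r, b', α, hα, hb'⟩ := exists_eigenbasis_list F val hF n
  obtain ⟨h, hh, h1⟩ := components_left (exteriorPower.map n F ^ s) (G ^ s) b'
    (fun j => α j ^ s) (fun j => pow_apply_eigen _ _ _ (hb' j) s) _ u hu
  rw [hh, map_sum]
  refine Submodule.sum_mem _ fun j _ => ?_
  have h5 : incl V K n (b' j ⊗ₜ h j) = (b' j : ExteriorAlgebra ℂ V) ⊗ₜ h j := by
    rw [incl, TensorProduct.map_tmul]
    rfl
  rw [h5]
  by_cases hj : h j = 0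
  · rw [hj, TensorProduct.tmul_zero]
    exact Submodule.zero_mem _
  have hQc : (Q ^ i) ^ s ≠ 0 := pow_ne_zero _ (pow_ne_zero _ hQ)
  have hα0 : α j ^ s ≠ 0 := by
    intro h0
    have h2 := h1 j
    rw [h0, zero_smul] at h2
    rcases smul_eq_zero.1 h2.symm with h4 | h4
    · exact hQc h4
    · exact hj h4
  obtain ⟨c', hc'⟩ : ∃ c', c' = (Q ^ i) ^ s / α j ^ s := ⟨_, rfl⟩
  have h2 : (G ^ s) (h j) = c' • h j := by
    have h3 := congrArg (fun z => (α j ^ s)⁻¹ • z) (h1 j)
    simp only [smul_smul] at h3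
    rw [inv_mul_cancel₀ hα0, one_smul] at h3
    rw [h3, hc', div_eq_inv_mul]
  have h3 : Module.End.HasEigenvalue (G ^ s) c' :=
    Module.End.hasEigenvalue_of_hasEigenvector ⟨Module.End.mem_eigenspace_iff.2 h2, hj⟩
  have h4 : c' ∈ spectrum ℂ (G ^ s) := Module.End.hasEigenvalue_iff_mem_spectrum.1 h3
  rw [spectrum.map_pow_of_pos G hs] at h4
  obtain ⟨ρ, hρ, hρs⟩ := h4
  have hρe : Module.End.HasEigenvalue G ρ := Module.End.hasEigenvalue_iff_mem_spectrum.2 hρ
  have hρs : ρ ^ s = c' := hρs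
  have hrel : (α j * ρ) ^ s = (Q ^ i) ^ s := by
    rw [mul_pow, hρs, hc', mul_div_cancel₀ _ hα0]
  have hh' : (G ^ s) (h j) = ρ ^ s • h j := by rw [hρs]; exact h2
  have hlist := list_pulled hF₀ F val hQ G (hG ρ hρe) m Z hZ s hs (h j) hh' n i hni
  have h6 : ExteriorAlgebra.map F (b' j : ExteriorAlgebra ℂ V) = α j • (b' j :
      ExteriorAlgebra ℂ V) := by
    rw [← Pool.Agent.W484.BB.coe_map, hb' j]
    rfl
  have h7 : (b' j : ExteriorAlgebra ℂ V) ∈ (pulled F₀ F Q Z n).comap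
      ((TensorProduct.mk ℂ (ExteriorAlgebra ℂ V) K).flip (h j)) := by
    refine mem_of_lists_sub F val hF n 1 (α j) _ ?_ _ (b' j).2 (by
      rw [pow_one]
      exact h6)
    intro L hlen hL hLα
    rw [pow_one] at hLα
    exact hlist L hlen hL (by rw [hLα]; exact hrel)
  exact h7

/-- Reduction of a list of values. -/
theorem reduce_list {X : Type} (val : X → ℂ) {Q : ℂ} :
    ∀ (n : ℕ) (ys : List X), ys.length = n → ∃ (k : ℕ) (ys' : List X),
      ys.length = 2 * k + ys'.length ∧ (ys.map val).prod = Q ^ k * (ys'.map val).prod ∧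
      ys'.Pairwise fun y y' => val y * val y' ≠ Q := by
  classical
  intro n
  induction n using Nat.strong_induction_on with
  | _ n ih =>
    intro ys hlen
    by_cases hp : ys.Pairwise fun y y' => val y * val y' ≠ Q
    · exact ⟨0, ys, by omega, by simp, hp⟩
    · obtain ⟨e, e', L', hperm, hgood⟩ := exists_of_not_pairwise _ ys hp
      rw [not_not] at hgood
      have hlen' : ys.length = L'.length + 2 := by
        have h2 := hperm.length_eq
        rw [List.length_cons, List.length_cons] at h2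
        omega
      obtain ⟨k, ys', h1, h2, h3⟩ := ih L'.length (by omega) L' rfl
      refine ⟨k + 1, ys', by omega, ?_, h3⟩
      rw [(hperm.map val).prod_eq, List.map_cons, List.prod_cons,
          List.map_cons, List.prod_cons, ← mul_assoc, hgood, h2, pow_succ']
      ring

/-- **Semisimplicity.** -/
theorem semi_pulled {X : Type} [FiniteDimensional ℂ V]
    {F₀ : V₀ →ₗ[ℂ] V₀} (hF₀ : Diagonal (fun _ => True) F₀)
    (F : V →ₗ[ℂ] V) (val : X → ℂ) (hF : Submodule.span ℂ {v : V | ∃ x, F v = val x • v} = ⊤)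
    {Q : ℂ} (hQ : Q ≠ 0) (G : K →ₗ[ℂ] K)
    (hG : ∀ ρ, Module.End.HasEigenvalue G ρ → Model val Q ρ F₀) (m : ℕ)
    (hss : ∀ j i : ℕ, j + m = 2 * i → SemisimpleAt (M := (⋀[ℂ]^j V₀) ⊗[ℂ] K)
      (TensorProduct.map (exteriorPower.map j F₀) G) (Q ^ i))
    (n i : ℕ) (hni : n + m = 2 * i) :
    SemisimpleAt (M := (⋀[ℂ]^n V) ⊗[ℂ] K) (TensorProduct.map (exteriorPower.map n F) G)
      (Q ^ i) := by
  classical
  obtain ⟨r, b', α, hα, hb'⟩ := exists_eigenbasis_list F val hF n
  obtain ⟨e, he⟩ := exists_components (exteriorPower.map n F) G b' α hb'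
  intro u hu
  apply e.injective
  refine Finsupp.ext fun j => ?_
  have h1 := congrArg (fun w => e w j) hu
  beta_reduce at h1
  rw [he, map_smul, Finsupp.smul_apply, map_sub, map_smul, Finsupp.sub_apply, he,
    Finsupp.smul_apply] at h1
  rw [he, map_smul, Finsupp.smul_apply]
  set v := e u j with hv
  set w := α j • G v - Q ^ i • v with hw
  rw [← sub_eq_zero, ← hw]
  by_contra hw0
  have hQc : Q ^ i ≠ 0 := pow_ne_zero _ hQ
  have hα0 : α j ≠ 0 := by
    intro h0
    rw [h0, zero_smul] at h1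
    rcases smul_eq_zero.1 h1.symm with h4 | h4
    · exact hQc h4
    · exact hw0 h4
  have h2 : G w = (Q ^ i / α j) • w := by
    have h3 := congrArg (fun z => (α j)⁻¹ • z) h1
    simp only [smul_smul] at h3
    rw [inv_mul_cancel₀ hα0, one_smul] at h3
    rw [h3, div_eq_inv_mul]
  have h3 : Module.End.HasEigenvalue G (Q ^ i / α j) :=
    Module.End.hasEigenvalue_of_hasEigenvector ⟨Module.End.mem_eigenspace_iff.2 h2, hw0⟩
  obtain ⟨L, hL, hLα⟩ := hα j
  obtain ⟨k, ys, hk1, hk2, hk3⟩ := reduce_list val (Q := Q) L.length L rfl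
  have hki : k ≤ i := by omega
  have hQk : Q ^ k ≠ 0 := pow_ne_zero _ hQ
  have hβ0 : (ys.map val).prod ≠ 0 := by
    intro h0
    rw [hLα, hk2, h0, mul_zero] at hα0
    exact hα0 rfl
  have hmod := hG _ h3 ((i - k : ℕ) : ℤ) 1 one_pos ys (by
    rw [pow_one, pow_one, zpow_natCast, hLα, hk2, mul_div_assoc', mul_comm,
      mul_div_mul_right _ _ hβ0]
    rw [div_eq_iff hQk, ← pow_add, Nat.sub_add_cancel hki]) hk3
  obtain ⟨a, φ, ha0, ha, -, -⟩ := exists_model hF₀ F val (ys.map fun y => ((0 : V), y))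
    (fun e he => by
      obtain ⟨y, -, rfl⟩ := List.mem_map.1 he
      rw [map_zero, smul_zero]) (fun c => by
      rw [List.map_map]
      exact hmod c)
  have hlen : (ys.map fun y => ((0 : V), y)).length = ys.length := by rw [List.length_map]
  have hprod : ((ys.map fun y => ((0 : V), y)).map fun e => val e.2).prod = (ys.map val).prod := by
    rw [List.map_map]
    rfl
  rw [hprod] at ha
  generalize hβ : (ys.map val).prod = β at *
  have hss' := hss (ys.map fun y => ((0 : V), y)).length (i - k) (by rw [hlen]; omega)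
    (a ⊗ₜ v)
  have hT : ∀ z : K, TensorProduct.map (exteriorPower.map
      (ys.map fun y => ((0 : V), y)).length F₀) G (a ⊗ₜ z) = a ⊗ₜ[ℂ] (β • G z) := by
    intro z
    rw [TensorProduct.map_tmul, ha, TensorProduct.smul_tmul]
  have hQik : Q ^ i = Q ^ k * Q ^ (i - k) := by
    rw [← pow_add, Nat.add_sub_cancel' hki]
  have hw' : w = Q ^ k • (β • G v - Q ^ (i - k) • v) := by
    rw [hw, hLα, hk2, hQik, smul_sub, smul_smul, smul_smul]
  have hz : G (β • G v - Q ^ (i - k) • v) =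
      (Q ^ i / α j) • (β • G v - Q ^ (i - k) • v) := by
    have h5 : β • G v - Q ^ (i - k) • v = (Q ^ k)⁻¹ • w := by
      rw [hw', smul_smul, inv_mul_cancel₀ hQk, one_smul]
    rw [h5, map_smul, h2, smul_comm]
  have h6 := hss' (by
    rw [hT, ← TensorProduct.tmul_smul, ← TensorProduct.tmul_sub, hT, hz, smul_smul,
      ← TensorProduct.tmul_smul]
    congr 2
    rw [hLα, hk2, hQik]
    field_simp)
  rw [hT, ← TensorProduct.tmul_smul, ← sub_eq_zero, ← TensorProduct.tmul_sub] at h6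
  have h7 := tmul_zero_right ha0 h6
  exact hw0 (by rw [hw', h7, smul_zero])

end Pool.Agent.L0h40.EU
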