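import Mathlib
import Pool.Agent.L0h40.EU.Pull

/-!
# Pull-backs from one test variety: all finite extensions
-/

set_option autoImplicit false

namespace Pool.Agent.L0h40.EU

open Module TensorProduct Pool.Agent.W484.AA Pool.Agent.W484.BB Pool.Agent.TH44.SS

section pows

variable {V : Type} [AddCommGroup V] [Module ℂ V] {H : ℕ → Type} [∀ m, AddCommGroup (H m)]
  [∀ m, Module ℂ (H m)]

theorem bi_pow (F : V →ₗ[ℂ] V) (G : ∀ m, H m →ₗ[ℂ] H m) (N n m : ℕ) :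
    bi (F ^ N) (ext G N) n m = bi F G n m ^ N := by
  unfold bi ext
  rw [map_pow_ext, map_pow_tensor]

theorem biTate_pow {F : V →ₗ[ℂ] V} {G : ∀ m, H m →ₗ[ℂ] H m} {Q : ℂ}
    {Z : ∀ n m, Submodule ℂ ((⋀[ℂ]^n V) ⊗[ℂ] H m)} (h : BiTate F G Q Z) {N₀ : ℕ}
    (hN₀ : 0 < N₀) : BiTate (F ^ N₀) (ext G N₀) (Q ^ N₀) Z := by
  intro n m i hi
  obtain ⟨h1, h2⟩ := h n m i hi
  rw [bi_pow]
  refine ⟨fun x hx => ?_, fun x hx => h2 x (genTate_of_pow _ _ _ hN₀ _ hx)⟩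
  obtain ⟨N, hN, h3⟩ := h1 x hx
  refine ⟨N, hN, ?_⟩
  have h4 := pow_smul_iter (bi F G n m ^ N) x h3 N₀
  rw [← pow_mul, mul_comm N₀ N, pow_mul, h4]
  congr 1
  simp only [← pow_mul]
  congr 1
  ring

end pows

variable {V₀ : Type} [AddCommGroup V₀] [Module ℂ V₀]
  {V : Type} [AddCommGroup V] [Module ℂ V] {H : ℕ → Type}
  [∀ m, AddCommGroup (H m)] [∀ m, Module ℂ (H m)]

theorem pulled_mono {F₀ : V₀ →ₗ[ℂ] V₀} {F : V →ₗ[ℂ] V} {Q : ℂ} {N₀ : ℕ} (hN₀ : 0 < N₀) {K : Type}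
    [AddCommGroup K] [Module ℂ K] (Z : ∀ j : ℕ, Submodule ℂ ((⋀[ℂ]^j V₀) ⊗[ℂ] K)) (n : ℕ) :
    pulled (F₀ ^ N₀) (F ^ N₀) (Q ^ N₀) Z n ≤ pulled F₀ F Q Z n := by
  refine Submodule.span_mono ?_
  rintro y ⟨k, j, D, φ, x, hn, hD, ⟨N, hN, hφ⟩, hx, rfl⟩
  refine ⟨k, j, D, φ, x, hn, fun l => divisor_of_pow hN₀ (hD l), ⟨N₀ * N, Nat.mul_pos hN₀ hN, ?_⟩,
    hx, rfl⟩
  intro v
  rw [pow_mul, pow_mul]
  exact hφ v

theorem semi_of_pow {M : Type} [AddCommGroup M] [Module ℂ M] {T : M →ₗ[ℂ] M} {μ : ℂ} (hμ : μ ≠ 0)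
    {N₀ : ℕ} (hN₀ : 0 < N₀) (h : SemisimpleAt (T ^ N₀) (μ ^ N₀)) : SemisimpleAt T μ := by
  intro x hx
  refine eigen_of_pow _ hμ x hx hN₀ (h x ?_)
  have h3 : ((T ^ 1 - μ • (1 : M →ₗ[ℂ] M)) ^ 2) x = 0 := by
    rw [pow_one, pow_two, Module.End.mul_apply, LinearMap.sub_apply, LinearMap.sub_apply,
      LinearMap.smul_apply, LinearMap.smul_apply, Module.End.one_apply, Module.End.one_apply,
      hx, sub_self]
  have h4 := gen_pow T μ 1 2 N₀ x h3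
  rw [one_mul, pow_two, Module.End.mul_apply, LinearMap.sub_apply, LinearMap.sub_apply,
      LinearMap.smul_apply, LinearMap.smul_apply, Module.End.one_apply, Module.End.one_apply,
      sub_eq_zero] at h4
  exact h4

theorem genTate_of_two {M : Type} [AddCommGroup M] [Module ℂ M] {T : M →ₗ[ℂ] M} {Q : ℂ} {c : ℕ}
    {x : M} {N : ℕ} (hN : 0 < N)
    (hx : (T ^ N) ((T ^ N) x - (Q ^ c) ^ N • x) = (Q ^ c) ^ N • ((T ^ N) x - (Q ^ c) ^ N • x)) :
    IsGenTate T Q c x := by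
  refine ⟨N, hN, 2, ?_⟩
  rw [pow_two, Module.End.mul_apply, LinearMap.sub_apply, LinearMap.sub_apply,
    LinearMap.smul_apply, LinearMap.smul_apply, Module.End.one_apply, Module.End.one_apply]
  rw [hx, sub_self]

theorem governs_exact {X : Type} [FiniteDimensional ℂ V₀] [FiniteDimensional ℂ V]
    [∀ m, FiniteDimensional ℂ (H m)] {F₀ : V₀ →ₗ[ℂ] V₀}
    (hF₀ : ∀ N : ℕ, Diagonal (fun _ => True) (F₀ ^ N)) {F : V →ₗ[ℂ] V}
    {val : X → ℂ} (hF : Submodule.span ℂ {v : V | ∃ x, F v = val x • v} = ⊤)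
    {G : ∀ m, H m →ₗ[ℂ] H m} {Q : ℂ} (hQ : Q ≠ 0)
    (hmod : ∀ k : ℕ, 0 < k → ∀ m μ, Module.End.HasEigenvalue (G m ^ k) μ →
      Model (fun x => val x ^ k) (Q ^ k) μ (F₀ ^ k)) : Governs F₀ F G Q := by
  refine ⟨fun Z hZ n m i hi t ht => ?_, fun h N hN i => ?_⟩
  · obtain ⟨N, hN, j, hj⟩ := ht
    have hss := semi_pulled (hF₀ N) (F ^ N) (fun x => val x ^ N) (span_pow' F hF N)
      (pow_ne_zero N hQ) (G m ^ N) (fun ρ hρ => hmod N hN m ρ hρ) m (fun j i' hji => by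
        intro x hx
        have hb : TensorProduct.map (exteriorPower.map j (F₀ ^ N)) (G m ^ N) =
          bi F₀ G j m ^ N := bi_pow F₀ G N j m
        have h9 : (Q ^ N) ^ i' = (Q ^ i') ^ N := by
          simp only [← pow_mul]
          congr 1
          ring
        rw [hb, h9] at hx ⊢
        obtain ⟨h1, h2⟩ := hZ j m i' hji
        have hxZ : x ∈ Z j m := h2 x (genTate_of_two hN hx)
        obtain ⟨N', hN', h10⟩ := h1 x hxZ
        have h11 : ((bi F₀ G j m ^ N) ^ N') x = ((Q ^ i') ^ N) ^ N' • x := by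
          have h12 := pow_smul_iter (bi F₀ G j m ^ N') x h10 N
          rw [← pow_mul, mul_comm N N', pow_mul, h12]
          congr 1
          simp only [← pow_mul]
          congr 1
          ring
        exact eigen_of_pow (bi F₀ G j m ^ N) (pow_ne_zero _ (pow_ne_zero _ hQ)) x hx hN' h11)
      n i hi
    have hb : TensorProduct.map (exteriorPower.map n (F ^ N)) (G m ^ N) =
      bi F G n m ^ N := bi_pow F G N n m
    have h9 : (Q ^ N) ^ i = (Q ^ i) ^ N := by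
      simp only [← pow_mul]
      congr 1
      ring
    rw [hb, h9] at hss
    have h20 := eigen_component (M := (⋀[ℂ]^n V) ⊗[ℂ] H m) (M' := (⋀[ℂ]^n V) ⊗[ℂ] H m)
      (bi F G n m) (bi F G n m) LinearMap.id (fun t => rfl) _ N j t hj hss
    rw [LinearMap.id_apply] at h20
    refine ⟨⟨N, hN, h20⟩, ?_⟩
    refine mem_pulled (by simpa using hF₀ 1) F val hF hQ (G m) (fun ρ hρ => ?_) m
      (fun j => Z j m) (fun j i' hji x hx => (hZ j m i' hji).2 x hx) n i hi N hN t ?_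
    · have h1 := hmod 1 one_pos m ρ (by rwa [pow_one])
      simpa only [pow_one] using h1
    · rw [← map_pow_tensor]
      exact h20
  · rw [semisimpleAt_total]
    rintro ⟨n, hn⟩
    refine semi_pulled (hF₀ N) (F ^ N) (fun x => val x ^ N) (span_pow' F hF N)
      (pow_ne_zero N hQ) (G (2 * i - n) ^ N) (fun ρ hρ => hmod N hN (2 * i - n) ρ hρ) (2 * i - n)
      (fun j i' hji => ?_) n i (by omega)
    have h1 := (semisimpleAt_total (F₀ ^ N) (ext G N) (2 * i') _).1 (h N hN i') ⟨j, by omega⟩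
    have h2 : ∀ m, m = 2 * i' - j → SemisimpleAt (M := (⋀[ℂ]^j V₀) ⊗[ℂ] H m)
        (TensorProduct.map (exteriorPower.map j (F₀ ^ N)) (G m ^ N)) ((Q ^ N) ^ i') := by
      rintro _ rfl
      exact h1
    exact h2 _ (by omega)

theorem governs_of_pow {F₀ : V₀ →ₗ[ℂ] V₀} {F : V →ₗ[ℂ] V} {G : ∀ m, H m →ₗ[ℂ] H m} {Q : ℂ}
    (hQ : Q ≠ 0) {N₀ : ℕ} (hN₀ : 0 < N₀)
    (h : Governs (F₀ ^ N₀) (F ^ N₀) (ext G N₀) (Q ^ N₀)) : Governs F₀ F G Q := by
  refine ⟨fun Z hZ n m i hi t ht => ?_, fun hs N hN i => ?_⟩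
  · obtain ⟨⟨N, hN, h1⟩, h2⟩ := h.1 Z (biTate_pow hZ hN₀) n m i hi t (by
      rw [bi_pow]
      exact genTate_pow _ _ _ _ _ ht)
    refine ⟨⟨N₀ * N, Nat.mul_pos hN₀ hN, ?_⟩, pulled_mono hN₀ _ _ h2⟩
    rw [bi_pow, ← pow_mul] at h1
    rw [h1]
    congr 1
    simp only [← pow_mul]
    congr 1
    ring
  · have h1 : ext (ext G N₀) N = ext (ext G N) N₀ := by
      funext m
      simp only [ext, ← pow_mul, mul_comm]
    have h2 := h.2 (fun N hN => by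
      have h3 := hs (N₀ * N) (Nat.mul_pos hN₀ hN)
      have h4 : ext G (N₀ * N) = ext (ext G N₀) N := by
        funext m
        simp only [ext, ← pow_mul]
      rw [h4, pow_mul, pow_mul] at h3
      exact h3) N hN i
    have h7 : (F ^ N₀) ^ N = (F ^ N) ^ N₀ := by rw [← pow_mul, ← pow_mul, mul_comm]
    rw [h1, h7, total_pow] at h2
    have h5 : ((Q ^ N₀) ^ N) ^ i = ((Q ^ N) ^ i) ^ N₀ := by
      simp only [← pow_mul]
      congr 1
      ring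
    rw [h5] at h2
    exact semi_of_pow (pow_ne_zero _ (pow_ne_zero _ hQ)) hN₀ h2

end Pool.Agent.L0h40.EU
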