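import Mathlib
import Pool.Agent.L0h40.EU.EllMain

/-!
# Arbitrary varieties and families of abelian varieties that are separated by sign changes
-/

set_option autoImplicit false

namespace Pool.Agent.L0h40.EU

open Finsupp Module Pool.Agent.W484.AA Pool.Agent.TH44.SS TensorProduct

open scoped ComplexConjugate

section sign

variable {q : ℕ} {I : Type} {d : I → ℕ} {π : I → ℂ}

/-- the sign changes -/
def Sg (π : I → ℂ) : Type := {τ : ℂ ≃+* ℂ // ∀ k, τ (π k) = π k ∨ τ (π k) = conj (π k)}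

open Classical in
/-- the sign -/
noncomputable def sg (π : I → ℂ) (y : Σ _ : I, Unit) (τ : Sg π) : ℚ :=
  if τ.1 (π y.1) = π y.1 then 1 else -1

theorem sg_cases (π : I → ℂ) (y : Σ _ : I, Unit) (τ : Sg π) : sg π y τ = 1 ∨ sg π y τ = -1 := by
  unfold sg
  split_ifs
  · exact Or.inl rfl
  · exact Or.inr rfl

variable (h : IsSignFamily q d π) (hq : q ≠ 0)

include h hq

theorem IsSignFamily.ne (i : I) : π i ≠ 0 ∧ conj (π i) ≠ 0 := by
  have h1 := h.norm i
  constructor
  · intro h0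
    rw [h0, zero_mul] at h1
    exact pow_ne_zero (d i) (Nat.cast_ne_zero.2 hq) h1.symm
  · intro h0
    rw [h0, mul_zero] at h1
    exact pow_ne_zero (d i) (Nat.cast_ne_zero.2 hq) h1.symm

omit hq in
theorem IsSignFamily.conj_ne (i : I) : conj (π i) ≠ π i := by
  have h1 := h.free i 1 one_pos
  rw [pow_one, pow_one] at h1
  exact h1.symm

theorem act_sg (τ : Sg π) (y : Σ _ : I, Unit) :
    act τ.1 (ang (fun i (_ : Unit) => π i) y) = sg π y τ • ang (fun i (_ : Unit) => π i) y := by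
  unfold ang
  rw [act_lg, map_div₀]
  obtain ⟨h0, h0'⟩ := h.ne hq y.1
  have hQ : (q : ℂ) ^ d y.1 ≠ 0 := pow_ne_zero _ (Nat.cast_ne_zero.2 hq)
  have h2 := congrArg τ.1 (h.norm y.1)
  rw [map_mul, map_pow, map_natCast, ← h.norm y.1] at h2
  rcases τ.2 y.1 with h1 | h1
  · have h3 : τ.1 (conj (π y.1)) = conj (π y.1) := by
      rw [h1] at h2
      exact mul_left_cancel₀ h0 h2
    rw [h1, h3, sg, if_pos h1, one_smul]
  · have h3 : τ.1 (conj (π y.1)) = π y.1 := by
      rw [h1, mul_comm (π y.1)] at h2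
      exact mul_left_cancel₀ h0' h2
    rw [h1, h3, sg, if_neg (by rw [h1]; exact h.conj_ne _), neg_smul, one_smul,
      lg_div h0' h0, lg_div h0 h0', neg_sub]

omit hq in
theorem sg_sep (y z : Σ _ : I, Unit) (hyz : y ≠ z) : ∃ τ : Sg π, sg π y τ ≠ sg π z τ := by
  have hne : y.1 ≠ z.1 := by
    intro h1
    obtain ⟨i, ⟨⟩⟩ := y
    obtain ⟨j, ⟨⟩⟩ := z
    have h2 : i = j := h1
    exact hyz (by rw [h2])
  obtain ⟨τ, hτ, h1⟩ := h.sep y.1 z.1 hne
  refine ⟨⟨τ, hτ⟩, ?_⟩
  unfold sg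
  rcases h1 with ⟨h1, h2⟩ | ⟨h1, h2⟩
  · rw [if_pos h1, if_neg (by rw [h2]; exact h.conj_ne _)]
    norm_num
  · rw [if_neg (by rw [h1]; exact h.conj_ne _), if_pos h2]
    norm_num

theorem IsSignFamily.isFamily : IsFamily q (J := fun _ : I => Unit) d (fun i _ => π i) := by
  refine ⟨h.pos, fun i _ => h.norm i, fun f hf => ?_⟩
  by_contra hf0
  obtain ⟨y, hy⟩ := Finsupp.support_nonempty_iff.2 hf0
  have hy' := Finsupp.mem_support_iff.1 hy
  have hu : ∀ x : Σ _ : I, Unit, π x.1 / conj (π x.1) ≠ 0 := fun x =>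
    div_ne_zero (h.ne hq x.1).1 (h.ne hq x.1).2
  let f' : (Σ _ : I, Unit) →₀ ℚ := f.mapRange (Int.cast : ℤ → ℚ) Int.cast_zero
  have h1 : linearCombination ℚ (ang fun i (_ : Unit) => π i) f' = 0 := by
    have h2 := congrArg lg hf
    rw [lg_one] at h2
    have h4 : (f'.sum fun i a => a • ang (fun i (_ : Unit) => π i) i) =
        f.sum fun i a => (a : ℚ) • ang (fun i (_ : Unit) => π i) i :=
      Finsupp.sum_mapRange_index fun i => zero_smul ℚ _
    rw [← h2, linearCombination_apply, h4]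
    have h3 : ∀ R : Finset (Σ _ : I, Unit),
        (∏ x ∈ R, (π x.1 / conj (π x.1)) ^ f x) ≠ 0 ∧
        lg (∏ x ∈ R, (π x.1 / conj (π x.1)) ^ f x) =
          ∑ x ∈ R, (f x : ℚ) • lg (π x.1 / conj (π x.1)) := by
      classical
      intro R
      induction R using Finset.induction_on with
      | empty => exact ⟨by simp, by simp [lg_one]⟩
      | insert a R ha ih =>
        obtain ⟨h1, h2⟩ := ih
        rw [Finset.prod_insert ha, Finset.sum_insert ha]
        refine ⟨mul_ne_zero (zpow_ne_zero _ (hu a)) h1, ?_⟩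
        rw [lg_mul (zpow_ne_zero _ (hu a)) h1, h2, lg_zpow (hu a)]
    exact (h3 f.support).2.symm
  have h2 := isolate (fun τ : Sg π => act τ.1) (ang fun i (_ : Unit) => π i) (sg π)
    (fun τ i => act_sg h hq τ i) (sg_cases π) (sg_sep h) ⊥ (fun τ w hw => by
      rw [Submodule.mem_bot] at hw ⊢
      rw [hw, map_zero]) _ f' rfl (by rw [h1]; exact Submodule.zero_mem _) y (by
      rw [Finsupp.mapRange_apply]
      exact_mod_cast hy')
  rw [Submodule.mem_bot] at h2
  obtain ⟨N, hN, h3⟩ := (lg_eq_zero (hu y)).1 h2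
  rw [div_pow, div_eq_one_iff_eq (pow_ne_zero _ (h.ne hq y.1).2)] at h3
  exact h.free y.1 N hN h3

theorem hull_ang {R : Finset ℂ} (hR : (0 : ℂ) ∉ R) (i : I) :
    Hull q R (π i) ↔ ang (fun i (_ : Unit) => π i) ⟨i, ()⟩ ∈ hsp q R := by
  rw [hull_iff hq hR (h.ne hq i).1, ((h.isFamily hq).lg_pi hq i ()).1]
  exact mem_of_smul_add _ (q_mem q R) (by norm_num)

/-- **Arbitrary varieties and families separated by sign changes.** -/
theorem sign_main {R : Finset ℂ} (hR : (0 : ℂ) ∉ R) (hc : ∀ τ : ℂ ≃+* ℂ, ∀ ρ ∈ R, τ ρ ∈ R) :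
    ({i | Hull q R (π i)}.Finite ∧ 2 * {i | Hull q R (π i)}.ncard ≤ (angular q R).ncard) ∧
    ∀ s : ℕ, 0 < s →
      TransfersFor q s (fun z => ∃ i, ¬ Hull q R (π i) ∧ IsPower (d i) s (π i) z) (Hull q R) := by
  classical
  have hfam := h.isFamily hq
  have hA := hfam.ang hq
  have hcc : ∀ ρ ∈ R, conj ρ ∈ R := fun ρ hρ => hc starRingAut ρ hρ
  refine ⟨?_, fun s hs => ?_⟩
  · have hbound : ∀ E : Finset I, (∀ i ∈ E, Hull q R (π i)) →
        2 * E.card ≤ (angular q R).ncard := by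
      intro E hE
      obtain ⟨R', hR', h1, h2⟩ := card_exc hA lg (fun z => conj z) R hcc
        (fun z _ => Complex.conj_conj z) (fun z _ => (cj_lg z).symm)
        (E.map ⟨fun i => (⟨i, ()⟩ : Σ _ : I, Unit), fun i j h => by
          simpa using h⟩) (by
          intro i hi
          obtain ⟨j, hj, rfl⟩ := Finset.mem_map.1 hi
          exact (hull_ang h hq hR j).1 (hE j hj))
      rw [Finset.card_map] at h1
      refine h1.trans ?_
      rw [← Set.ncard_coe_finset]
      refine Set.ncard_le_ncard ?_ (R.finite_toSet.subset fun ρ hρ => hρ.1)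
      intro ρ hρ
      refine ⟨hR' hρ, fun N M hN hNM => ?_⟩
      apply h2 ρ hρ
      have hρ0 : ρ ≠ 0 := fun h0 => hR (h0 ▸ hR' hρ)
      have h3 := congrArg lg hNM
      rw [lg_pow hρ0, lg_zpow (Nat.cast_ne_zero.2 hq)] at h3
      rw [eq_of_smul (Nat.cast_ne_zero.2 hN.ne') h3, map_smul, map_smul, hA.tate]
    have hfin : {i | Hull q R (π i)}.Finite := by
      by_contra hinf
      obtain ⟨E, hE, hEc⟩ := Set.Infinite.exists_subset_card_eq hinf ((angular q R).ncard + 1)
      have h1 := hbound E fun i hi => hE hi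
      omega
    refine ⟨hfin, ?_⟩
    rw [Set.ncard_eq_toFinset_card _ hfin]
    exact hbound _ fun i hi => hfin.mem_toFinset.1 hi
  · refine transfers_gen hfam hq hs
      (fun y => ang (fun i (_ : Unit) => π i) y ∈ hsp q R) ?_ ?_
    · rintro z ⟨i, hi, hz⟩
      obtain ⟨w, hw, hw'⟩ := cls_power hfam hq hs (i := i) (j := ()) hz
      refine ⟨w, single_cls_ne hfam hs hw', hw, fun y hy =>
        single_cls_apply (d := d) (s := s) hw' ?_⟩
      rintro rfl
      exact hi ((hull_ang h hq hR i).2 hy)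
    · intro μ hμ
      refine ⟨hμ.ne hq hR, fun b f hf hf0 => ?_⟩
      obtain ⟨y, hy⟩ := Finsupp.support_nonempty_iff.2 hf0
      have hy' := Finsupp.mem_support_iff.1 hy
      refine ⟨y, ?_, hy'⟩
      refine isolate (fun τ : Sg π => act τ.1) (ang fun i (_ : Unit) => π i) (sg π)
        (fun τ i => act_sg h hq τ i) (sg_cases π) (sg_sep h) (hsp q R)
        (fun τ w hw => act_mem hc τ.1 hw) _ f rfl ?_ y hy'
      have h1 := hμ.mem hq hR
      rw [hf] at h1
      have h2 := Submodule.sub_mem _ h1 (Submodule.smul_mem _ b (q_mem q R))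
      rw [add_sub_cancel_left] at h2
      exact h2

end sign

end Pool.Agent.L0h40.EU
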