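import Mathlib
import Pool.Agent.L0h40.EU.Gov
import Pool.Agent.L0h40.EU.Sign

/-!
# Multiplicities in reduced relations
-/

set_option autoImplicit false

namespace Pool.Agent.L0h40.EU

open Finsupp Module Pool.Agent.W484.AA Pool.Agent.TH44.SS TensorProduct

open scoped ComplexConjugate

theorem all_zero_pairwise {ι X : Type*} (w : X → ι →₀ ℚ) (ys : List X)
    (h0 : ∀ y ∈ ys, w y = 0) (hp : ys.Pairwise fun y y' => w y + w y' ≠ 0) : ys.length ≤ 1 := by
  match ys with
  | [] => simp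
  | [y] => simp
  | y :: y' :: ys =>
    exfalso
    have h1 := (List.pairwise_cons.1 hp).1 y' (by simp)
    apply h1
    rw [h0 y (by simp), h0 y' (by simp), add_zero]

theorem count_reduced {ι X : Type*} (w : X → ι →₀ ℚ) (r : ι → ℚ) (hr : ∀ i, 0 < r i)
    (val : X → ℂ) (ys : List X)
    (hw : ∀ y ∈ ys, w y = 0 ∨ ∃ i, w y = single i (r i) ∨ w y = -single i (r i))
    (hp : ys.Pairwise fun y y' => w y + w y' ≠ 0)
    (hval : ∀ y ∈ ys, ∀ y' ∈ ys, val y = val y' → w y = w y') (y₀ : X) (hy₀ : y₀ ∈ ys) :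
    (w y₀ = 0 ∧ (ys.map val).count (val y₀) ≤ 1) ∨
    ∃ i, (w y₀ = single i (r i) ∨ w y₀ = -single i (r i)) ∧
      ((ys.map val).count (val y₀) : ℚ) * r i ≤ |(ys.map w).sum i| := by
  classical
  by_cases hy0 : w y₀ = 0
  · left
    refine ⟨hy0, ?_⟩
    have h1 : (ys.map val).count (val y₀) = (ys.filter fun y => val y = val y₀).length := by
      rw [List.count, List.countP_map, List.countP_eq_length_filter]
      congr 1
    rw [h1]
    refine all_zero_pairwise w _ (fun y hy => ?_) (hp.filter _)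
    rw [List.mem_filter] at hy
    rw [hval y hy.1 y₀ hy₀ (by simpa using hy.2), hy0]
  · right
    obtain ⟨i, hi⟩ := (hw y₀ hy₀).resolve_left hy0
    refine ⟨i, hi, ?_⟩
    obtain ⟨e, he, hwy⟩ : ∃ e : ℚ, (e = 1 ∨ e = -1) ∧ w y₀ = e • single i (r i) := by
      rcases hi with h | h
      · exact ⟨1, Or.inl rfl, by rw [h, one_smul]⟩
      · exact ⟨-1, Or.inr rfl, by rw [h, neg_smul, one_smul]⟩
    have hee : e * e = 1 := by rcases he with rfl | rfl <;> norm_num
    have hsym : Std.Symm fun y y' => w y + w y' ≠ 0 := ⟨fun a b h => by rwa [add_comm]⟩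
    have hall : ∀ y' ∈ ys, 0 ≤ e * w y' i := by
      intro y' hy'
      rcases hw y' hy' with h | ⟨i', h⟩
      · rw [h, Finsupp.zero_apply, mul_zero]
      · by_cases hii : i' = i
        · subst hii
          by_cases hneq : y₀ = y'
          · subst hneq
            rw [hwy, Finsupp.smul_apply, single_eq_same, smul_eq_mul, ← mul_assoc, hee, one_mul]
            exact (hr i').le
          · have h1 := hp.forall hy₀ hy' hneq
            have h2 : w y' = e • single i' (r i') := by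
              rcases he with rfl | rfl
              · rcases h with h | h
                · rw [h, one_smul]
                · exfalso
                  apply h1
                  rw [hwy, h, one_smul, add_neg_cancel]
              · rcases h with h | h
                · exfalso
                  apply h1
                  rw [hwy, h, neg_smul, one_smul, neg_add_cancel]
                · rw [h, neg_smul, one_smul]
            rw [h2, Finsupp.smul_apply, single_eq_same, smul_eq_mul, ← mul_assoc, hee, one_mul]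
            exact (hr i').le
        · have h1 : w y' i = 0 := by
            rcases h with h | h
            · rw [h, single_eq_of_ne (Ne.symm hii)]
            · rw [h, Finsupp.neg_apply, single_eq_of_ne (Ne.symm hii), neg_zero]
          rw [h1, mul_zero]
    have hr' : e * w y₀ i = r i := by
      rw [hwy, Finsupp.smul_apply, single_eq_same, smul_eq_mul, ← mul_assoc, hee, one_mul]
    have key : ∀ zs : List X, (∀ y ∈ zs, 0 ≤ e * w y i ∧ (val y = val y₀ → w y = w y₀)) →
        ((zs.map val).count (val y₀) : ℚ) * r i ≤ e * (zs.map w).sum i := by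
      intro zs
      induction zs with
      | nil => intro _; simp
      | cons z zs ih =>
        intro hz
        have h1 := ih fun y hy => hz y (List.mem_cons_of_mem _ hy)
        obtain ⟨h2, h3⟩ := hz z List.mem_cons_self
        rw [List.map_cons, List.map_cons, List.sum_cons, Finsupp.add_apply, mul_add,
          List.count_cons]
        by_cases h4 : val z = val y₀
        · rw [if_pos (by simpa using h4), h3 h4, hr']
          push_cast
          linarith
        · rw [if_neg (by simpa using h4), add_zero]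
          linarith
    have h1 := key ys fun y hy => ⟨hall y hy, fun h => hval y hy y₀ hy₀ h⟩
    refine h1.trans ?_
    rcases he with rfl | rfl
    · rw [one_mul]
      exact le_abs_self _
    · rw [neg_one_mul]
      exact neg_le_abs _

section family

variable {q : ℕ} {I : Type} {J : I → Type} {d : I → ℕ} {π : ∀ i, J i → ℂ}

/-- The relation in terms of classes. -/
theorem rel_lg (hq : q ≠ 0) {s : ℕ} {X : Type*} (v : X → ℂ) (w : X → (Σ i, J i) →₀ ℚ)
    (hw : ∀ x, Cls q d π s (v x) (w x)) {N₁ : ℕ} (hN₁ : 0 < N₁) {μ : ℂ} (hμ0 : μ ≠ 0) {N : ℕ}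
    (hN : 0 < N) (c : ℤ) (ys : List X)
    (hrel : ((ys.map fun x => v x ^ N₁).prod * μ ^ N₁) ^ N = ((((q : ℂ) ^ s) ^ N₁) ^ c) ^ N) :
    lg μ = (c * s - ys.length * (s / 2) : ℚ) • lg (q : ℂ) +
      linearCombination ℚ (EU.ang π) (-(ys.map w).sum) := by
  have hqC : (q : ℂ) ≠ 0 := Nat.cast_ne_zero.2 hq
  have hQ : (q : ℂ) ^ s ≠ 0 := pow_ne_zero _ hqC
  have hv0 : ∀ x, v x ≠ 0 := fun x => (hw x).ne
  have hw1 := fun x => (hw x).eq
  have hvp : ∀ x, v x ^ N₁ ≠ 0 := fun x => pow_ne_zero _ (hv0 x)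
  obtain ⟨hp0, hp1⟩ := lg_list (fun x => v x ^ N₁) hvp ys
  have hsum : (ys.map fun y => lg (v y ^ N₁)).sum = (N₁ : ℚ) •
      (((ys.length : ℚ) * (s / 2)) • lg (q : ℂ) +
        linearCombination ℚ (EU.ang π) (ys.map w).sum) := by
    clear hrel hp0 hp1
    induction ys with
    | nil => simp
    | cons y ys ih =>
      rw [List.map_cons, List.sum_cons, List.map_cons, List.sum_cons, ih, lg_pow (hv0 y), hw1 y,
        List.length_cons, map_add]
      push_cast
      module
  have hlg : ((ys.length : ℚ) * (s / 2)) • lg (q : ℂ) +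
      linearCombination ℚ (EU.ang π) (ys.map w).sum + lg μ = ((c : ℚ) * s) • lg (q : ℂ) := by
    have h1 := congrArg lg hrel
    rw [lg_pow (mul_ne_zero hp0 (pow_ne_zero _ hμ0)), lg_mul hp0 (pow_ne_zero _ hμ0), hp1, hsum,
      lg_pow hμ0, lg_pow (zpow_ne_zero _ (pow_ne_zero _ hQ)),
      lg_zpow (pow_ne_zero _ hQ), lg_pow hQ, lg_pow hqC, ← smul_add, smul_smul] at h1
    have h2 : (N : ℚ) * (N₁ : ℚ) ≠ 0 :=
      mul_ne_zero (Nat.cast_ne_zero.2 hN.ne') (Nat.cast_ne_zero.2 hN₁.ne')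
    rw [eq_of_smul h2 h1]
    simp only [smul_smul]
    congr 1
    have h3 : (N : ℚ) ≠ 0 := Nat.cast_ne_zero.2 hN.ne'
    have h4 : (N₁ : ℚ) ≠ 0 := Nat.cast_ne_zero.2 hN₁.ne'
    field_simp
  rw [map_neg, sub_smul, ← hlg]
  abel

/-- **Multiplicities.** -/
theorem model_of (h : IsFamily q d π) (hq : q ≠ 0) {s : ℕ} (hs : 0 < s) {X : Type} (v : X → ℂ)
    (w : X → (Σ i, J i) →₀ ℚ) (hw : ∀ x, Cls q d π s (v x) (w x)) {N₀ : ℕ} (hN₀ : 0 < N₀)
    (hv₀ : ∀ x y, (∃ N : ℕ, 0 < N ∧ (v x * v y) ^ N = ((q : ℂ) ^ s) ^ N) →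
      (v x * v y) ^ N₀ = ((q : ℂ) ^ s) ^ N₀)
    {μ : ℂ} (hμ0 : μ ≠ 0) {k : ℕ} (hk : 0 < k) {V₀ : Type} [AddCommGroup V₀] [Module ℂ V₀]
    [FiniteDimensional ℂ V₀] (F₀ : V₀ →ₗ[ℂ] V₀) (K : ℕ) (E : (Σ i, J i) → Prop)
    (hμ : ∀ (a : ℚ) (f : (Σ i, J i) →₀ ℚ),
      lg μ = a • lg (q : ℂ) + linearCombination ℚ (EU.ang π) f → ∀ y, f y ≠ 0 →
        E y ∧ |f y| ≤ K * ((s : ℚ) / (2 * d y.1)))
    (hE : ∀ x y, E y → (w x = single y ((s : ℚ) / (2 * d y.1)) ∨
      w x = -single y ((s : ℚ) / (2 * d y.1))) →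
        K ≤ finrank ℂ (Module.End.eigenspace (F₀ ^ (N₀ * k)) (v x ^ (N₀ * k))))
    (hS : ∀ x, w x = 0 →
      1 ≤ finrank ℂ (Module.End.eigenspace (F₀ ^ (N₀ * k)) (v x ^ (N₀ * k)))) :
    Model (fun x => v x ^ (N₀ * k)) (((q : ℂ) ^ s) ^ (N₀ * k)) (μ ^ (N₀ * k))
      (F₀ ^ (N₀ * k)) := by
  classical
  have hqC : (q : ℂ) ≠ 0 := Nat.cast_ne_zero.2 hq
  have hQ : (q : ℂ) ^ s ≠ 0 := pow_ne_zero _ hqC
  have hN₁ : 0 < N₀ * k := Nat.mul_pos hN₀ hk
  intro c N hN ys hrel hpw lam
  have hlg := rel_lg hq v w hw hN₁ hμ0 hN c ys hrel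
  have hpw' : ys.Pairwise fun y y' => w y + w y' ≠ 0 := by
    refine hpw.imp fun {y y'} hyy h0 => hyy ?_
    have h1 : lg (v y * v y') = lg ((q : ℂ) ^ s) := by
      rw [lg_mul (hw y).ne (hw y').ne, (hw y).eq, (hw y').eq, lg_pow hqC]
      have h2 : linearCombination ℚ (EU.ang π) (w y) + linearCombination ℚ (EU.ang π) (w y') = 0 :=
        by rw [← map_add, h0, map_zero]
      have h3 : (s : ℚ) • lg (q : ℂ) = ((s : ℚ) / 2) • lg (q : ℂ) + ((s : ℚ) / 2) • lg (q : ℂ) := by
        rw [← add_smul]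
        congr 1
        ring
      rw [h3, add_add_add_comm, h2, add_zero]
    have h2 := hv₀ y y' ((lg_eq (mul_ne_zero (hw y).ne (hw y').ne) hQ).1 h1)
    show v y ^ (N₀ * k) * v y' ^ (N₀ * k) = ((q : ℂ) ^ s) ^ (N₀ * k)
    rw [← mul_pow, pow_mul, h2, ← pow_mul]
  by_cases hlam : lam ∈ ys.map fun x => v x ^ (N₀ * k)
  · obtain ⟨y₀, hy₀, rfl⟩ := List.mem_map.1 hlam
    have hval : ∀ y ∈ ys, ∀ y' ∈ ys, v y ^ (N₀ * k) = v y' ^ (N₀ * k) → w y = w y' := by
      intro y _ y' _ hyy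
      have h1 : lg (v y) = lg (v y') := (lg_eq (hw y).ne (hw y').ne).2 ⟨_, hN₁, hyy⟩
      exact (h.ang hq).uniq ⟨_, (hw y).eq⟩ ⟨_, h1.trans (hw y').eq⟩
    rcases count_reduced w (fun x : Σ i, J i => (s : ℚ) / (2 * d x.1)) (fun x => by
      have := h.pos x.1
      positivity) (fun x => v x ^ (N₀ * k)) ys (fun y _ => (hw y).form) hpw' hval y₀ hy₀ with
      ⟨h1, h2⟩ | ⟨i, h1, h2⟩
    · exact h2.trans (hS y₀ h1)
    · have hr : (0 : ℚ) < (s : ℚ) / (2 * d i.1) := by
        have := h.pos i.1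
        positivity
      have hpos : 0 < (ys.map fun x => v x ^ (N₀ * k)).count (v y₀ ^ (N₀ * k)) :=
        List.count_pos_iff.2 hlam
      have hne : (-(ys.map w).sum) i ≠ 0 := by
        intro h3
        rw [Finsupp.neg_apply, neg_eq_zero] at h3
        rw [h3, abs_zero] at h2
        have h4 : (0 : ℚ) < ((ys.map fun x => v x ^ (N₀ * k)).count (v y₀ ^ (N₀ * k)) : ℚ) *
          ((s : ℚ) / (2 * d i.1)) := mul_pos (by exact_mod_cast hpos) hr
        exact absurd h2 (not_le.2 h4)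
      obtain ⟨hEi, h3⟩ := hμ _ _ hlg i hne
      rw [Finsupp.neg_apply, abs_neg] at h3
      have h4 := le_of_mul_le_mul_right (h2.trans h3) hr
      exact (by exact_mod_cast h4 : _ ≤ K).trans (hE y₀ i hEi h1)
  · rw [List.count_eq_zero_of_not_mem hlam]
    exact Nat.zero_le _

end family

end Pool.Agent.L0h40.EU
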