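import Mathlib
import Pool.Agent.L0h40.EU.Mult

/-!
# Finiteness: one test variety
-/

set_option autoImplicit false

namespace Pool.Agent.L0h40.EU

open Finsupp Module Pool.Agent.W484.AA Pool.Agent.TH44.SS TensorProduct

open scoped ComplexConjugate

theorem diagonal_pow {V₀ : Type} [AddCommGroup V₀] [Module ℂ V₀] {F₀ : V₀ →ₗ[ℂ] V₀}
    (h : Diagonal (fun _ => True) F₀) (N : ℕ) : Diagonal (fun _ => True) (F₀ ^ N) := by
  unfold Diagonal at h ⊢
  rw [eq_top_iff, ← h]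
  refine Submodule.span_mono ?_
  rintro v ⟨z, -, hv⟩
  exact ⟨z ^ N, trivial, pow_smul_iter F₀ v hv N⟩

theorem finrank_pow {V₀ : Type} [AddCommGroup V₀] [Module ℂ V₀] [FiniteDimensional ℂ V₀]
    (F₀ : V₀ →ₗ[ℂ] V₀) (z : ℂ) (N : ℕ) : finrank ℂ (Module.End.eigenspace F₀ z) ≤
      finrank ℂ (Module.End.eigenspace (F₀ ^ N) (z ^ N)) := by
  refine Submodule.finrank_mono fun v hv => ?_
  rw [Module.End.mem_eigenspace_iff] at hv ⊢
  exact pow_smul_iter F₀ v hv N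

theorem hasEigenvalue_of_finrank {V₀ : Type} [AddCommGroup V₀] [Module ℂ V₀]
    [FiniteDimensional ℂ V₀] (F₀ : V₀ →ₗ[ℂ] V₀) (z : ℂ)
    (h : 1 ≤ finrank ℂ (Module.End.eigenspace F₀ z)) : Module.End.HasEigenvalue F₀ z := by
  intro h0
  have h1 : Module.End.eigenspace F₀ z = ⊥ := h0
  rw [h1, finrank_bot] at h
  omega

theorem finrank_of_hasEigenvalue {V₀ : Type} [AddCommGroup V₀] [Module ℂ V₀]
    [FiniteDimensional ℂ V₀] (F₀ : V₀ →ₗ[ℂ] V₀) (z : ℂ) (h : Module.End.HasEigenvalue F₀ z) :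
    1 ≤ finrank ℂ (Module.End.eigenspace F₀ z) :=
  Submodule.one_le_finrank_iff.2 h

section sign

variable {q : ℕ} {I : Type} {d : I → ℕ} {π : I → ℂ}

/-- A bound for the coefficients. -/
theorem exists_bound (h : IsSignFamily q d π) (hq : q ≠ 0) (R : Finset ℂ) :
    ∃ K : ℕ, ∀ ρ ∈ R, ∀ g, Rep (lg (q : ℂ)) (ang fun i (_ : Unit) => π i) (lg ρ) g → ∀ y,
      2 * (d y.1 : ℚ) * |g y| ≤ K := by
  classical
  have hA := (h.isFamily hq).ang hq
  have h1 : ∀ ρ : ℂ, ∃ K : ℕ, ∀ g, Rep (lg (q : ℂ)) (ang fun i (_ : Unit) => π i) (lg ρ) g → ∀ y,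
      2 * (d y.1 : ℚ) * |g y| ≤ K := by
    intro ρ
    by_cases hρ : ∃ g, Rep (lg (q : ℂ)) (ang fun i (_ : Unit) => π i) (lg ρ) g
    · obtain ⟨g₀, hg₀⟩ := hρ
      refine ⟨∑ y ∈ g₀.support, ⌈2 * (d y.1 : ℚ) * |g₀ y|⌉₊, fun g hg y => ?_⟩
      rw [hA.uniq hg hg₀]
      by_cases hy : y ∈ g₀.support
      · refine (Nat.le_ceil _).trans ?_
        exact_mod_cast Finset.single_le_sum (f := fun y => ⌈2 * (d y.1 : ℚ) * |g₀ y|⌉₊)
          (fun _ _ => Nat.zero_le _) hy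
      · rw [Finsupp.notMem_support_iff.1 hy, abs_zero, mul_zero]
        exact Nat.cast_nonneg _
    · exact ⟨0, fun g hg => absurd ⟨g, hg⟩ hρ⟩
  choose K hK using h1
  refine ⟨∑ ρ ∈ R, K ρ, fun ρ hρ g hg y => (hK ρ g hg y).trans ?_⟩
  exact_mod_cast Finset.single_le_sum (f := K) (fun _ _ => Nat.zero_le _) hρ

/-- **Finiteness for families separated by sign changes.** -/
theorem sign_governs (h : IsSignFamily q d π) (hq : q ≠ 0) {R : Finset ℂ} (hR : (0 : ℂ) ∉ R)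
    (hc : ∀ τ : ℂ ≃+* ℂ, ∀ ρ ∈ R, τ ρ ∈ R) :
    ∃ K : ℕ, ∀ s : ℕ, 0 < s → GovernsFor q s R (fun F₀ => IsTest q R K s d π F₀)
      (fun z => (∃ i, IsPower (d i) s (π i) z) ∨ IsSuper q s z) := by
  classical
  obtain ⟨K, hK⟩ := exists_bound h hq R
  refine ⟨K, fun s hs H _ _ _ G hG V₀ _ _ _ F₀ hF₀ hT V _ _ _ F hF => ?_⟩
  have hfam := h.isFamily hq
  have hA := hfam.ang hq
  have hqC : (q : ℂ) ≠ 0 := Nat.cast_ne_zero.2 hq
  have hQ : (q : ℂ) ^ s ≠ 0 := pow_ne_zero s hqC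
  obtain ⟨hT1, z₁, hz₁, hz₁'⟩ := hT
  let P : ℂ → Prop := fun z => (∃ i, IsPower (d i) s (π i) z) ∨ IsSuper q s z
  let X := {z : ℂ // P z ∧ Module.End.HasEigenvalue F z}
  let X₀ := {z : ℂ // Module.End.HasEigenvalue F₀ z}
  have hXfin : Finite X :=
    Set.Finite.subset (s := {z | Module.End.HasEigenvalue F z})
      (Module.End.finite_hasEigenvalue F) fun z hz => hz.2
  have hX₀fin : Finite X₀ := Module.End.finite_hasEigenvalue F₀
  obtain ⟨N₀, hN₀, hN⟩ := exists_common (A := (X × X) ⊕ (X × X₀))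
    (fun a N => match a with
      | .inl x => ((x.1 : ℂ) * x.2) ^ N = ((q : ℂ) ^ s) ^ N
      | .inr x => (x.1 : ℂ) ^ N = (x.2 : ℂ) ^ N) (fun a N k h _ => by
      match a with
      | .inl x =>
        have h' : ((x.1 : ℂ) * x.2) ^ N = ((q : ℂ) ^ s) ^ N := h
        show ((x.1 : ℂ) * x.2) ^ (N * k) = ((q : ℂ) ^ s) ^ (N * k)
        rw [pow_mul, h', ← pow_mul]
      | .inr x =>
        have h' : (x.1 : ℂ) ^ N = (x.2 : ℂ) ^ N := h
        show (x.1 : ℂ) ^ (N * k) = (x.2 : ℂ) ^ (N * k)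
        rw [pow_mul, h', ← pow_mul])
  have hN1 : ∀ x y : X, (∃ N : ℕ, 0 < N ∧ ((x : ℂ) * y) ^ N = ((q : ℂ) ^ s) ^ N) →
      ((x : ℂ) * y) ^ N₀ = ((q : ℂ) ^ s) ^ N₀ := fun x y => hN (.inl (x, y))
  have hN2 : ∀ (x : X) (y : ℂ), Module.End.HasEigenvalue F₀ y →
      (∃ N : ℕ, 0 < N ∧ (x : ℂ) ^ N = y ^ N) → (x : ℂ) ^ N₀ = y ^ N₀ :=
    fun x y hy => hN (.inr (x, ⟨y, hy⟩))
  refine governs_of_pow hQ hN₀ ?_
  refine governs_exact (fun N => ?_) (span_pow' F (exists_eigen hF) N₀) (pow_ne_zero _ hQ) ?_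
  · rw [← pow_mul]
    exact diagonal_pow hF₀ _
  intro k hk m μ hμ
  have h1 : μ ∈ spectrum ℂ (ext G N₀ m ^ k) := Module.End.hasEigenvalue_iff_mem_spectrum.1 hμ
  have h2 : ext G N₀ m ^ k = G m ^ (N₀ * k) := (pow_mul _ _ _).symm
  have hN₁ : 0 < N₀ * k := Nat.mul_pos hN₀ hk
  rw [h2, spectrum.map_pow_of_pos (G m) hN₁] at h1
  obtain ⟨μ₀, hμ₀, rfl⟩ := h1
  obtain ⟨ρ, hρ, N', hN', hμρ⟩ := hG m μ₀ (Module.End.hasEigenvalue_iff_mem_spectrum.2 hμ₀)
  have hρ0 : ρ ≠ 0 := fun h0 => hR (h0 ▸ hρ)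
  have hμ0 : μ₀ ≠ 0 := by
    rintro rfl
    rw [zero_pow hN'.ne'] at hμρ
    exact pow_ne_zero _ hρ0 hμρ.symm
  have hsQ : (s : ℚ) ≠ 0 := Nat.cast_ne_zero.2 hs.ne'
  -- classes
  have hcls : ∀ x : X, ∃ w : (Σ _ : I, Unit) →₀ ℚ,
      Cls q (J := fun _ : I => Unit) d (fun i _ => π i) s x w := by
    intro x
    rcases x.2.1 with ⟨i, hi⟩ | hx
    · obtain ⟨w, hw, -⟩ := cls_power hfam hq hs (i := i) (j := ()) hi
      exact ⟨w, hw⟩
    · exact ⟨0, cls_super hq hx⟩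
  choose w hw using hcls
  have hinv : ∀ (x : X) (y : ℂ), Module.End.HasEigenvalue F₀ y → y ≠ 0 → lg (x : ℂ) = lg y →
      finrank ℂ (Module.End.eigenspace F₀ y) ≤
        finrank ℂ (Module.End.eigenspace (F₀ ^ (N₀ * k)) ((x : ℂ) ^ (N₀ * k))) := by
    intro x y hy hy0 hxy
    have h3 := hN2 x y hy ((lg_eq (hw x).ne hy0).1 hxy)
    rw [pow_mul (x : ℂ), h3, ← pow_mul]
    exact finrank_pow F₀ y _
  have h3 := model_of hfam hq hs (fun x : X => (x : ℂ)) w hw hN₀ hN1 hμ0 hk F₀ K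
    (fun y => Hull q R (π y.1)) ?_ ?_ ?_
  · simp only [pow_mul] at h3 ⊢
    exact h3
  · -- the coefficients
    intro a f hf y hy
    have h4 := congrArg lg hμρ
    rw [lg_pow hμ0, lg_pow hρ0, hf] at h4
    have hN'Q : (N' : ℚ) ≠ 0 := Nat.cast_ne_zero.2 hN'.ne'
    have h5 : lg ρ = (a / s) • lg (q : ℂ) +
        linearCombination ℚ (ang fun i (_ : Unit) => π i) ((s : ℚ)⁻¹ • f) := by
      rw [eq_of_smul (by positivity) h4.symm, map_smul, smul_smul, smul_add, smul_smul]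
      congr 1
      · congr 1
        push_cast
        field_simp
      · congr 1
        push_cast
        field_simp
    constructor
    · rw [hull_ang h hq hR]
      refine isolate (fun τ : Sg π => act τ.1) (ang fun i (_ : Unit) => π i) (sg π)
        (fun τ i => act_sg h hq τ i) (sg_cases π) (sg_sep h) (hsp q R)
        (fun τ w hw => act_mem hc τ.1 hw) _ ((s : ℚ)⁻¹ • f) rfl ?_ y ?_
      · have h6 := mem_hsp (q := q) hρ
        rw [h5] at h6
        have h7 := Submodule.sub_mem _ h6 (Submodule.smul_mem _ (a / s) (q_mem q R))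
        rw [add_sub_cancel_left] at h7
        exact h7
      · rw [Finsupp.smul_apply]
        exact smul_ne_zero (inv_ne_zero hsQ) hy
    · have h6 := hK ρ hρ _ ⟨_, h5⟩ y
      rw [Finsupp.smul_apply, smul_eq_mul, abs_mul, abs_inv, Nat.abs_cast] at h6
      have hd : (0 : ℚ) < d y.1 := by exact_mod_cast h.pos y.1
      have hs' : (0 : ℚ) < s := by exact_mod_cast hs
      rw [mul_div_assoc', le_div_iff₀ (by positivity)]
      have h7 : |f y| * (2 * (d y.1 : ℚ)) = (2 * (d y.1 : ℚ) * ((s : ℚ)⁻¹ * |f y|)) * s := by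
        field_simp
      rw [h7]
      exact mul_le_mul_of_nonneg_right h6 hs'.le
  · -- the test variety contains the exceptional eigenvalues
    rintro x ⟨i, ⟨⟩⟩ hE hx
    obtain ⟨z, hz, hz1, hz2⟩ := hT1 i hE
    rcases Nat.eq_zero_or_pos K with hK0 | hK0
    · rw [hK0]
      exact Nat.zero_le _
    obtain ⟨u, hu, hu'⟩ := cls_power hfam hq hs (i := i) (j := ()) hz
    have hz0 := hu.ne
    have hcz : lg (conj z) = ((s : ℚ) / 2) • lg (q : ℂ) +
        linearCombination ℚ (ang fun i (_ : Unit) => π i) (-u) := by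
      rw [← cj_lg, hu.eq, map_add, map_smul, hA.tate, hA.lc, map_neg]
    have hcz0 : conj z ≠ 0 := by rwa [Ne, map_eq_zero]
    have hcase : w x = u ∨ w x = -u := by
      rcases hx with h4 | h4 <;> rcases hu' with h5 | h5
      · exact Or.inl (h4.trans h5.symm)
      · refine Or.inr ?_
        rw [h4, h5, neg_neg]
      · refine Or.inr ?_
        rw [h4, h5]
      · exact Or.inl (h4.trans h5.symm)
    rcases hcase with h4 | h4
    · refine hz1.trans (hinv x z (hasEigenvalue_of_finrank F₀ z (Nat.le_trans hK0 hz1)) hz0 ?_)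
      rw [(hw x).eq, hu.eq, h4]
    · refine hz2.trans (hinv x (conj z) (hasEigenvalue_of_finrank F₀ _ (Nat.le_trans hK0 hz2)) hcz0 ?_)
      rw [(hw x).eq, hcz, h4]
  · -- supersingular
    intro x hx
    refine (finrank_of_hasEigenvalue F₀ z₁ hz₁').trans ?_
    have hu := cls_super (J := fun _ : I => Unit) (d := d) (π := fun i _ => π i) hq hz₁
    refine hinv x z₁ hz₁' hu.ne ?_
    rw [(hw x).eq, hu.eq, hx]

end sign

/-- The representatives form a family separated by sign changes. -/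
theorem reps_sign {q : ℕ} (hq : 1 < q) {I : Type} {x : I → Pts q}
    (hx : ∀ i j, i ≠ j → ¬ IsSquare ((x i).disc * (x j).disc)) :
    IsSignFamily q (fun i => (x i).1.1) (fun i => (x i).1.2.2) where
  pos i := (x i).2.pos
  norm i := (x i).2.mul
  free i n hn := (x i).2.free hq hn
  sep i j hij := by
    obtain ⟨τ, hτ⟩ := sgn_sep hq hx ⟨i, ()⟩ ⟨j, ()⟩ (fun h => hij (by
      simpa using h))
    refine ⟨τ, fun k => ?_, ?_⟩
    · rcases act_cases (x k) τ with h | h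
      · exact Or.inl h.1
      · exact Or.inr h.1
    · unfold sgn at hτ
      rcases act_cases (x i) τ with h | h <;> rcases act_cases (x j) τ with h' | h'
      · exfalso
        apply hτ
        rw [if_pos h.1, if_pos h'.1]
      · exact Or.inl ⟨h.1, h'.1⟩
      · exact Or.inr ⟨h.1, h'.1⟩
      · exfalso
        apply hτ
        rw [if_neg (by rw [h.1]; exact conj_ne_self hq _),
          if_neg (by rw [h'.1]; exact conj_ne_self hq _)]

/-- **Finiteness for elliptic curves.** -/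
theorem ell_governs {q : ℕ} (hq : IsPrimePow q) {R : Finset ℂ} (hR : (0 : ℂ) ∉ R)
    (hc : ∀ τ : ℂ ≃+* ℂ, ∀ ρ ∈ R, τ ρ ∈ R) :
    ∃ (D : Finset ℤ) (K : ℕ), 2 * D.card ≤ (angular q R).ncard ∧
      (∀ δ ∈ D, δ < 0 ∧ ∃ w ∈ Subfield.closure (R : Set ℂ), w ^ 2 = (δ : ℂ)) ∧
      ∀ s : ℕ, 0 < s → GovernsFor q s R (fun F₀ => IsEllTest q K s D F₀)
        (fun z => (∃ a : ℤ, IsOrdinary q s a z) ∨ IsSuper q s z) := by
  classical
  have hq1 := hq.one_lt
  obtain ⟨I, x, hx, hy⟩ := exists_reps hq1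
  obtain ⟨⟨D, hD1, hD2, hD3⟩, -⟩ := ell_hull hq hR hc
  obtain ⟨K, hK⟩ := sign_governs (reps_sign hq1 hx) (by omega) hR hc
  refine ⟨D, K, hD1, hD2, fun s hs H _ _ _ G hG V₀ _ _ _ F₀ hF₀ hT V _ _ _ F hF => ?_⟩
  refine hK s hs H G hG V₀ F₀ hF₀ ⟨fun i hi => ?_, hT.2⟩ V F (hF.mono ?_)
  · have hord : IsOrdinary q (x i).1.1 (x i).1.2.1 (x i).1.2.2 := by
      refine ⟨?_, ?_, (x i).2.cop⟩
      · rw [← (x i).2.add, ← (x i).2.mul]
        ring
      · have := (x i).2.disc_neg hq1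
        linarith
    obtain ⟨δ, hδ, hsq⟩ := (hD3 _ (x i).2.pos _ _ hord).1 hi
    obtain ⟨a, z, hz, hsq', h1, h2⟩ := hT.1 δ hδ
    refine ⟨z, ?_, h1, h2⟩
    refine ell_power hq (x := x i) (y := toPt hs hz) ?_
    have hδ0 : δ ≠ 0 := (hD2 δ hδ).1.ne
    refine isSquare_of_mul_sq (y := δ) hδ0 ?_
    obtain ⟨r, hr⟩ := hsq
    obtain ⟨t, ht⟩ := hsq'
    refine ⟨r * t, ?_⟩
    have hr' : δ * (x i).disc = r * r := hr
    have ht' : δ * (toPt hs hz).disc = t * t := ht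
    linear_combination (δ * (toPt hs hz).disc) * hr' + r * r * ht'
  · rintro z (⟨a, hz⟩ | hz)
    · obtain ⟨i, hi⟩ := hy (toPt hs hz)
      exact Or.inl ⟨i, ell_power hq hi⟩
    · exact Or.inr hz

end Pool.Agent.L0h40.EU
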