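import Mathlib
import Pool.Agent.L0h40.EU.Sign

/-!
# The reduction to finitely many elliptic curves
-/

set_option autoImplicit false

namespace Pool.Agent.L0h40.EU

open Finsupp Module Pool.Agent.W484.AA Pool.Agent.TH44.SS TensorProduct

noncomputable instance {V : Type} [AddCommGroup V] [Module ℂ V] [FiniteDimensional ℂ V]
    {H : ℕ → Type} [∀ m, AddCommGroup (H m)] [∀ m, Module ℂ (H m)]
    [∀ m, FiniteDimensional ℂ (H m)] (m : ℕ) : FiniteDimensional ℂ (Total V H m) :=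
  inferInstanceAs (FiniteDimensional ℂ (∀ n : Fin (m + 1), (⋀[ℂ]^(n : ℕ) V) ⊗[ℂ] H (m - n)))

theorem IsSuper.hull {q s : ℕ} {R : Finset ℂ} {z : ℂ} (h : IsSuper q s z) : Hull q R z := by
  obtain ⟨N, hN, h⟩ := h
  refine ⟨2 * N, ((s * N : ℕ) : ℤ), 0, by omega, ?_⟩
  rw [h, zpow_natCast]
  simp

theorem reduction {q : ℕ} (hq : IsPrimePow q) {R : Finset ℂ} (hR : (0 : ℂ) ∉ R)
    (hc : ∀ τ : ℂ ≃+* ℂ, ∀ ρ ∈ R, τ ρ ∈ R) : Reduction q R := by
  intro s hs H _ _ _ G hG V' _ _ _ F' hF' V _ _ _ F hF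
  refine (ell_hull hq hR hc).2 s hs (Total V' H) (total F' G) ?_ V F
    (hF.mono fun z hz => Or.inl hz)
  exact eigen_total hq.pos.ne' hR (hF'.mono fun z hz => hz.elim IsSuper.hull id) hG

end Pool.Agent.L0h40.EU
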